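import Mathlib

/-! Roots of unity with prescribed multiplicative relations. -/

namespace Pool.Agent.P.MP_824f38_ag

theorem zsum {σ : Type} [Fintype σ] {ω : ℂ} (h : ω ≠ 0) (f : σ → ℤ) :
    ω ^ (∑ i, f i) = ∏ i, ω ^ f i := by
  classical
  refine Finset.induction_on (Finset.univ : Finset σ) (by simp) fun a s ha ih => ?_
  rw [Finset.sum_insert ha, Finset.prod_insert ha, zpow_add₀ h, ih]

theorem exists_zeta {σ J : Type} [Fintype σ] [Fintype J] (q : J → ℕ) (hq : ∀ j, 0 < q j)
    (hc : Pairwise (fun i j => Nat.Coprime (q i) (q j))) (l : J → σ → ℤ) :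
    ∃ (ζ : σ → ℂ) (N : ℕ), 0 < N ∧ (∀ i, ζ i ^ N = 1) ∧
      ∀ v : σ → ℕ, ∏ i, ζ i ^ v i = 1 ↔ ∀ j, (q j : ℤ) ∣ ∑ i, l j i * v i := by
  classical
  choose ω hω using fun j => (⟨_, Complex.isPrimitiveRoot_exp (q j) (hq j).ne'⟩ :
    ∃ ω : ℂ, IsPrimitiveRoot ω (q j))
  have hne : ∀ j, ω j ≠ 0 := fun j => (hω j).ne_zero (hq j).ne'
  have key : ∀ v : σ → ℕ, ∏ i, (∏ j, ω j ^ l j i) ^ v i = ∏ j, ω j ^ (∑ i, l j i * v i) := by
    intro v
    simp only [← Finset.prod_pow]
    rw [Finset.prod_comm]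
    refine Finset.prod_congr rfl fun j _ => ?_
    rw [zsum (hne j)]
    refine Finset.prod_congr rfl fun i _ => ?_
    rw [zpow_mul, zpow_natCast]
  refine ⟨fun i => ∏ j, ω j ^ l j i, ∏ j, q j, Finset.prod_pos fun j _ => hq j, fun i => ?_,
    fun v => ?_⟩
  · rw [← Finset.prod_pow]
    refine Finset.prod_eq_one fun j _ => ?_
    rw [← zpow_natCast, ← zpow_mul, (hω j).zpow_eq_one_iff_dvd]
    exact Dvd.dvd.mul_left (Int.natCast_dvd_natCast.mpr (Finset.dvd_prod_of_mem q
      (Finset.mem_univ j))) _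
  · rw [key]
    constructor
    · intro h j
      have h1 := congrArg (fun x => x ^ (∏ k ∈ Finset.univ.erase j, q k)) h
      simp only [one_pow] at h1
      rw [← Finset.prod_pow, Finset.prod_eq_single j] at h1
      · rw [← zpow_natCast, ← zpow_mul, (hω j).zpow_eq_one_iff_dvd] at h1
        refine IsCoprime.dvd_of_dvd_mul_right ?_ h1
        rw [Nat.isCoprime_iff_coprime]
        exact Nat.Coprime.prod_right fun k hk => hc (Finset.ne_of_mem_erase hk).symm
      · intro k _ hk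
        rw [← zpow_natCast, ← zpow_mul, (hω k).zpow_eq_one_iff_dvd]
        exact Dvd.dvd.mul_left (Int.natCast_dvd_natCast.mpr (Finset.dvd_prod_of_mem q
          (Finset.mem_erase.mpr ⟨hk, Finset.mem_univ k⟩))) _
      · simp
    · intro h
      exact Finset.prod_eq_one fun j _ => ((hω j).zpow_eq_one_iff_dvd _).mpr (h j)

theorem exists_moduli (J : Type) [Fintype J] (r B : ℕ) (hr : 0 < r) :
    ∃ q : J → ℕ, Pairwise (fun i j => Nat.Coprime (q i) (q j)) ∧ (∀ j, B < q j) ∧
      ∀ j, ∃ t, q j = r * t + 1 := by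
  classical
  let f := Fintype.equivFin J
  let A := (Fintype.card J + r + B).factorial
  have hA : ∀ x, 0 < x → x ≤ Fintype.card J + r + B → x ∣ A := fun x h1 h2 => Nat.dvd_factorial h1 h2
  have lt : ∀ i j : J, (f i : ℕ) < f j → Nat.Coprime ((f i + 1) * A + 1) ((f j + 1) * A + 1) := by
    intro i j hij
    refine Nat.coprime_mul_succ (hA _ (by omega) ?_)
    have := (f j).2
    omega
  refine ⟨fun j => (f j + 1) * A + 1, fun i j hij => ?_, fun j => ?_, fun j => ?_⟩
  · have : (f i : ℕ) ≠ f j := fun h => hij (f.injective (Fin.ext h))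
    rcases lt_or_gt_of_ne this with h | h
    · exact lt i j h
    · exact (lt j i h).symm
  · have h1 : Fintype.card J + r + B ≤ A := Nat.self_le_factorial _
    have h2 : A ≤ (f j + 1) * A := Nat.le_mul_of_pos_left _ (Nat.succ_pos _)
    change B < (f j + 1) * A + 1
    omega
  · obtain ⟨t, ht⟩ := hA r hr (by omega)
    exact ⟨(f j + 1) * t, by change (f j + 1) * A + 1 = _; rw [ht]; ring⟩

theorem eq_of_dvd_sub {q x y : ℕ} (h : (q : ℤ) ∣ (x : ℤ) - y) (hx : x < q) (hy : y < q) :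
    x = y := by
  have := Int.eq_zero_of_abs_lt_dvd h (by rw [abs_lt]; constructor <;> omega)
  omega

theorem exists_single_data (e : ℕ) (he : 1 ≤ e) :
    ∃ (m : Fin (e + 1) → ℕ) (ζ : Fin (e + 1) → ℂ) (N : ℕ), 0 < N ∧ (∀ i, ζ i ^ N = 1) ∧
      (∀ i, (e + 1) * (e + 1) + 2 < m i) ∧
      (∏ i, ζ i ^ (e + 2) = 1) ∧
      (∀ k, ∏ i, ζ i ^ ((if i = k then m k else 0) + 1) = 1) ∧
      (∀ v : Fin (e + 1) → ℕ, (∀ i, v i ≤ e + 3) → ∏ i, ζ i ^ v i = 1 →
        v = 0 ∨ ∀ i, v i = e + 2) ∧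
      (∀ (v : Fin (e + 1) → ℕ) k, (∀ i, v i ≤ (if i = k then m k else 0) + 2) →
        ∏ i, ζ i ^ v i = 1 → v = 0 ∨ ∀ i, v i = (if i = k then m k else 0) + 1) := by
  classical
  obtain ⟨Q, hQ, hB, hr⟩ := exists_moduli (Fin (e + 1) × Fin (e + 1)) (e + 2)
    ((e + 1) * (e + 1) + 2) (by omega)
  have hB' : ∀ p, e + 3 < Q p := fun p => by have := hB p; nlinarith
  let q : Option (Fin (e + 1) × Fin (e + 1)) → ℕ := fun o => o.elim (e + 2) Q
  let l : Option (Fin (e + 1) × Fin (e + 1)) → Fin (e + 1) → ℤ := fun o i =>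
    o.elim 1 (fun p => (if i = p.1 then 1 else 0) - (if i = p.2 then 1 else 0))
  have cop : ∀ p, Nat.Coprime (e + 2) (Q p) := by
    intro p
    obtain ⟨t, ht⟩ := hr p
    rw [ht]; simp
  obtain ⟨ζ, N, hN, hζ, hiff⟩ := exists_zeta q (by
      rintro (_ | p)
      · exact Nat.succ_pos _
      · exact lt_of_le_of_lt (Nat.zero_le _) (hB p)) (by
      rintro (_ | p) (_ | p') h
      · exact absurd rfl h
      · exact cop p'
      · exact (cop p).symm
      · exact hQ fun h' => h (by rw [h'])) l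
  have hiff' : ∀ v : Fin (e + 1) → ℕ, ∏ i, ζ i ^ v i = 1 ↔
      ((e + 2 : ℕ) : ℤ) ∣ ∑ i, (v i : ℤ) ∧ ∀ a b, (Q (a, b) : ℤ) ∣ (v a : ℤ) - v b := by
    intro v
    rw [hiff, Option.forall, Prod.forall]
    simp [q, l, sub_mul, Finset.sum_sub_distrib]
  let S : Fin (e + 1) → Finset (Fin (e + 1) × Fin (e + 1)) := fun i =>
    Finset.univ.filter fun p => p.1 ≠ p.2 ∧ (p.1 = i ∨ p.2 = i)
  let m : Fin (e + 1) → ℕ := fun i => ∏ p ∈ S i, Q p
  have other : ∀ i : Fin (e + 1), ∃ b, b ≠ i := fun i => by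
    have : Nontrivial (Fin (e + 1)) := Fin.nontrivial_iff_two_le.mpr (by omega)
    exact exists_ne i
  have hdvd : ∀ i p, p ∈ S i → Q p ∣ m i := fun i p hp => Finset.dvd_prod_of_mem Q hp
  have mpos : ∀ i, 0 < m i := fun i => Finset.prod_pos fun p _ => by have := hB p; omega
  have hm : ∀ i, (e + 1) * (e + 1) + 2 < m i := by
    intro i
    obtain ⟨b, hb⟩ := other i
    exact lt_of_lt_of_le (hB (i, b)) (Nat.le_of_dvd (mpos i) (hdvd i _ (by simp [S, hb.symm])))
  have hm1 : ∀ i, ((e + 2 : ℕ) : ℤ) ∣ (m i : ℤ) - 1 := by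
    intro i
    have : (m i : ℤ) ≡ 1 [ZMOD ((e + 2 : ℕ) : ℤ)] := by
      simp only [m, Nat.cast_prod]
      refine Finset.prod_induction _ (fun x => x ≡ 1 [ZMOD ((e + 2 : ℕ) : ℤ)])
        (fun x y hx hy => by simpa using hx.mul hy) rfl fun p _ => ?_
      obtain ⟨t, ht⟩ := hr p
      rw [ht]
      exact (Int.modEq_iff_dvd.mpr ⟨-t, by push_cast; ring⟩)
    exact this.symm.dvd
  have sum_ite : ∀ (k : Fin (e + 1)) (x c : ℕ),
      ∑ i, (((if i = k then x else 0) + c : ℕ) : ℤ) = x + (e + 1) * c := by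
    intro k x c
    push_cast
    simp [Finset.sum_add_distrib]
  refine ⟨m, ζ, N, hN, hζ, hm, ?_, fun k => ?_, fun v hv h => ?_, fun v k hv h => ?_⟩
  · rw [hiff' (fun _ => e + 2)]
    simp
  · rw [hiff' (fun i => (if i = k then m k else 0) + 1), sum_ite]
    refine ⟨?_, fun a b => ?_⟩
    · obtain ⟨t, ht⟩ := hm1 k
      exact ⟨t + 1, by push_cast at ht ⊢; linear_combination ht⟩
    · by_cases hab : a = b
      · simp [hab]
      by_cases ha : a = k
      · have := Int.natCast_dvd_natCast.mpr (hdvd k (a, b)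
          (Finset.mem_filter.mpr ⟨Finset.mem_univ _, hab, Or.inl ha⟩))
        simpa [ha, show ¬ b = k from fun h => hab (ha.trans h.symm)] using this
      by_cases hb : b = k
      · have := Int.natCast_dvd_natCast.mpr (hdvd k (a, b)
          (Finset.mem_filter.mpr ⟨Finset.mem_univ _, hab, Or.inr hb⟩))
        simpa [ha, hb] using this
      · simp [ha, hb]
  · obtain ⟨h1, h2⟩ := (hiff' v).mp h
    have hc : ∀ i, v i = v 0 := fun i => eq_of_dvd_sub (h2 i 0)
      (by have := hv i; have := hB' (i, 0); omega) (by have := hv 0; have := hB' (i, 0); omega)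
    simp only [hc, Finset.sum_const, Finset.card_univ, Fintype.card_fin, nsmul_eq_mul] at h1
    have h3 : ((e + 2 : ℕ) : ℤ) ∣ (v 0 : ℤ) := by
      obtain ⟨t, ht⟩ := h1
      exact ⟨v 0 - t, by push_cast at ht ⊢; linear_combination -ht⟩
    obtain ⟨t, ht⟩ := Int.natCast_dvd_natCast.mp h3
    have := hv 0
    rcases t with _ | _ | t
    · left; funext i; rw [hc, ht]; rfl
    · right; intro i; rw [hc, ht]; omega
    · exfalso; nlinarith
  · obtain ⟨h1, h2⟩ := (hiff' v).mp h
    obtain ⟨b, hb⟩ := other k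
    have hv' : ∀ i, i ≠ k → v i ≤ 2 := fun i hi => by simpa [hi] using hv i
    have hc : ∀ i, i ≠ k → v i = v b := fun i hi => eq_of_dvd_sub (h2 i b)
      (by have := hv' i hi; have := hB' (i, b); omega)
      (by have := hv' b hb; have := hB' (i, b); omega)
    have h3 : (m k : ℤ) ∣ (v k : ℤ) - v b := by
      simp only [m, Nat.cast_prod]
      refine Finset.prod_dvd_of_coprime (fun p _ p' _ hp => ?_) fun p hp => ?_
      · exact Nat.isCoprime_iff_coprime.mpr (hQ hp)
      · obtain ⟨x, y⟩ := p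
        simp only [S, Finset.mem_filter, Finset.mem_univ, true_and] at hp
        rcases hp.2 with rfl | rfl
        · rw [← hc y (Ne.symm hp.1)]; exact h2 _ _
        · rw [← hc x hp.1, ← neg_sub]; exact (h2 _ _).neg_right
    have hvk := hv k
    simp only [if_true] at hvk
    have hvb := hv' b hb
    have hmk := hm k
    have h4 : v k = v b ∨ v k = m k + v b := by
      by_cases hlt : v k < m k
      · exact Or.inl (eq_of_dvd_sub h3 hlt (by nlinarith))
      · right
        have : (m k : ℤ) ∣ ((v k - m k : ℕ) : ℤ) - v b := by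
          rw [Nat.cast_sub (not_lt.mp hlt)]
          obtain ⟨t, ht⟩ := h3
          exact ⟨t - 1, by linear_combination ht⟩
        have := eq_of_dvd_sub this (by nlinarith [Nat.sub_le_iff_le_add'.mpr hvk]) (by nlinarith)
        omega
    rcases h4 with h4 | h4
    · have hv0 : v = fun i => (if i = k then 0 else 0) + v b := by
        funext i
        by_cases hi : i = k
        · simp [hi, h4]
        · simp [hc i hi]
      rw [hv0, sum_ite] at h1
      have h5 : ((e + 2 : ℕ) : ℤ) ∣ (v b : ℤ) - (0 : ℕ) := by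
        obtain ⟨t, ht⟩ := h1
        exact ⟨v b - t, by push_cast at ht ⊢; linear_combination -ht⟩
      have := eq_of_dvd_sub h5 (by omega) (by omega)
      left; rw [hv0, this]; funext i; simp
    · have hv0 : v = fun i => (if i = k then m k else 0) + v b := by
        funext i
        by_cases hi : i = k
        · simp [hi, h4]
        · simp [hi, hc i hi]
      rw [hv0, sum_ite] at h1
      have h5 : ((e + 2 : ℕ) : ℤ) ∣ (v b : ℤ) - (1 : ℕ) := by
        obtain ⟨t, ht⟩ := h1
        obtain ⟨s, hs⟩ := hm1 k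
        exact ⟨v b - t + s, by push_cast at ht hs ⊢; linear_combination -ht + hs⟩
      have := eq_of_dvd_sub h5 (by omega) (by omega)
      right; intro i; rw [hv0, this]

end Pool.Agent.P.MP_824f38_ag
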