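import Pool.Agent.P.MP_824f38_ag.UModel
import Pool.Agent.P.MP_824f38_ag.Arith

/-! The models with one or two nonzero entries in the column `q = 1`. -/

set_option linter.style.haveILetI false
set_option linter.unusedTactic false
set_option linter.unusedSimpArgs false
set_option linter.unusedSectionVars false

namespace Pool.Agent.P.MP_824f38_ag

open MvPolynomial

/-- `M` has dimension at most `n` and first cohomology exactly in the degrees in `S` -/
def GModel.Good (M : GModel) (n : ℕ) (S : ℕ → Prop) : Prop :=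
  M.Integ ∧ (∃ K, M.SurjOrd K) ∧ (∀ v, Fintype.card (M.σ v) ≤ n) ∧ ∀ p, ¬ M.Surj p ↔ S p

theorem pair_atom (e : ℕ) : ∃ M : GModel, M.Good (e + 2) (fun p => p = e ∨ p = e + 1) := by
  classical
  obtain ⟨ω, hω⟩ : ∃ ω : ℂ, IsPrimitiveRoot ω (e + 1) :=
    ⟨_, Complex.isPrimitiveRoot_exp (e + 1) (Nat.succ_ne_zero e)⟩
  let U : UData e :=
    { K := Unit, k0 := (), a := fun _ => 0, b := fun _ => 0, ζ := fun _ => ω, N := e + 1,
      hN := Nat.succ_pos e, hζ := fun _ => hω.pow_eq_one, hb := fun _ _ => rfl,
      hni := fun _ _ _ _ => rfl,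
      hinv := fun _ => by simp [hω.pow_eq_one] }
  have hl : U.Low := by
    rintro p d τ - ⟨k, j, hk⟩ h
    change (∏ j, ω ^ d j) * ∏ _i : Fin p, ω = 1 at h
    rw [Finset.prod_pow_eq_pow_sum, Finset.prod_const, Finset.card_univ, Fintype.card_fin,
      ← pow_add, hω.pow_eq_one_iff_dvd] at h
    have h1 : ∑ i, d i ≤ 1 := by
      have : ∑ i, d i ≤ ∑ i, (Finsupp.single j 1 : Fin (e + 1) →₀ ℕ) i :=
        Finset.sum_le_sum fun i _ => by simpa [U] using hk i
      simpa [Finsupp.single_apply] using this
    by_cases h0 : ∑ i, d i + p = 0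
    · left
      refine ⟨by omega, Finsupp.ext fun i => ?_⟩
      have : ∑ i, d i = 0 := by omega
      exact Finset.sum_eq_zero_iff.mp this i (Finset.mem_univ i)
    · have := Nat.le_of_dvd (Nat.pos_of_ne_zero h0) h
      right; omega
  refine ⟨U.Z.model, U.Z.integ, U.exists_surjOrd, U.card_le, fun p => ⟨fun h => ?_, ?_⟩⟩
  · by_contra hn
    push Not at hn
    rcases lt_or_gt_of_ne hn.1 with h1 | h1
    · exact h (U.surj_of_lt hl h1)
    · exact h (U.surj_of_gt (by omega))
  · rintro (rfl | rfl)
    · exact U.not_surj_mid (fun _ => 1) (fun j => by simp [U]) () one_ne_zero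
    · exact U.not_surj_top rfl fun _ => rfl

theorem single_atom (e : ℕ) (he : 1 ≤ e) : ∃ M : GModel, M.Good (e + 2) (fun p => p = e) := by
  classical
  obtain ⟨m, ζ, N, hN, hζ, hm, h0, h1, u0, u1⟩ := exists_single_data e he
  have hm' : ∀ i, e + 3 < m i := fun i => by have := hm i; nlinarith
  let a : Option (Fin (e + 1)) → (Fin (e + 1) →₀ ℕ) := fun o =>
    o.elim (Finsupp.equivFunOnFinite.symm fun _ => e + 1) fun k => Finsupp.single k (m k)
  have a0 : ∀ i, a none i = e + 1 := fun i => rfl
  have a1 : ∀ k i, a (some k) i = if i = k then m k else 0 := fun k i => by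
    change Finsupp.single k (m k) i = _
    rw [Finsupp.single_apply]; simp [eq_comm]
  have sle : ∀ j i : Fin (e + 1), (Finsupp.single j 1 : Fin (e + 1) →₀ ℕ) i ≤ 1 := by
    intro j i; rw [Finsupp.single_apply]; split_ifs <;> omega
  let U : UData e :=
    { K := Option (Fin (e + 1)), k0 := none, a := a, b := fun _ => 1, ζ := ζ, N := N,
      hN := hN, hζ := hζ,
      hb := by
        rintro (_ | k) h
        · have := a0 0; rw [h] at this; simp at this
        · have := a1 k k; have h2 := hm' k; rw [h] at this; simp at this; omega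
      hni := by
        rintro (_ | k) (_ | l) j h
        · rfl
        · have h2 := h l
          have h3 := sle j l
          have h4 := hm' l
          rw [Finsupp.add_apply, a0, a1, if_pos rfl] at h2
          omega
        · have : Nontrivial (Fin (e + 1)) := Fin.nontrivial_iff_two_le.mpr (by omega)
          obtain ⟨b, hb⟩ := exists_ne k
          have h2 := h b
          have h3 := sle j b
          rw [Finsupp.add_apply, a0, a1, if_neg hb] at h2
          omega
        · by_contra hn
          have h2 := h l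
          have h3 := sle j l
          have h4 := hm' l
          rw [Finsupp.add_apply, a1, a1, if_pos rfl, if_neg fun h => hn (by rw [h])] at h2
          omega
      hinv := by
        rintro (_ | k)
        · exact h0
        · simp only [a1]; exact h1 k }
  have hu : U.Uniq := by
    rintro v (_ | k) j hv h
    · rcases u0 v (fun i => by
        have h2 := hv i
        have h3 := sle j i
        change v i ≤ (a none + Finsupp.single j 1 : Fin (e + 1) →₀ ℕ) i + 1 at h2
        rw [Finsupp.add_apply, a0] at h2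
        omega) h with h' | h'
      · exact Or.inl h'
      · exact Or.inr ⟨none, h'⟩
    · rcases u1 v k (fun i => by
        have h2 := hv i
        have h3 := sle j i
        change v i ≤ (a (some k) + Finsupp.single j 1 : Fin (e + 1) →₀ ℕ) i + 1 at h2
        rw [Finsupp.add_apply, a1] at h2
        omega) h with h' | h'
      · exact Or.inl h'
      · exact Or.inr ⟨some k, fun i => (h' i).trans (by rw [← a1])⟩
  have mne : ∀ i, (m i : ℂ) ≠ 0 := fun i => Nat.cast_ne_zero.mpr (by have := hm' i; omega)
  have ene : ((e : ℂ) + 2) ≠ 0 := by exact_mod_cast Nat.succ_ne_zero (e + 1)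
  have hD : (1 : ℂ) - (e + 1) * ∑ i, (m i : ℂ)⁻¹ ≠ 0 := by
    have : ((e : ℝ) + 1) * ∑ i, (m i : ℝ)⁻¹ < 1 := by
      have h2 : ∑ i, (m i : ℝ)⁻¹ ≤ ∑ _i : Fin (e + 1), (((e : ℝ) + 1) * (e + 1) + 2)⁻¹ :=
        Finset.sum_le_sum fun i _ => inv_anti₀ (by positivity) (by exact_mod_cast (hm i).le)
      rw [Finset.sum_const, Finset.card_univ, Fintype.card_fin, nsmul_eq_mul] at h2
      refine lt_of_le_of_lt (mul_le_mul_of_nonneg_left h2 (by positivity)) ?_
      rw [← mul_assoc, ← div_eq_mul_inv, div_lt_one (by positivity)]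
      push_cast; linarith
    intro h
    have h3 : (((1 : ℝ) - (e + 1) * ∑ i, (m i : ℝ)⁻¹ : ℝ) : ℂ) = 0 := by push_cast; exact h
    have := Complex.ofReal_eq_zero.mp h3
    linarith
  refine ⟨U.Z.model, U.Z.integ, U.exists_surjOrd, U.card_le, fun p => ⟨fun h => ?_, ?_⟩⟩
  · by_contra hn
    rcases lt_or_gt_of_ne hn with h1 | h1
    · exact h (U.surj_of_lt (U.low_of_uniq hu) h1)
    rcases (Nat.succ_le_of_lt h1).eq_or_lt with h2 | h2
    · refine h (h2 ▸ U.surj_top hu ?_)
      set D := (1 : ℂ) - (e + 1) * ∑ i, (m i : ℂ)⁻¹ with hDdef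
      have main : ∀ (α : ℂ) (δ : Fin (e + 1) → ℂ) (k : Option (Fin (e + 1))),
          α + ∑ i, ((δ i - α) * (m i : ℂ)⁻¹) * a k i =
            k.elim (α * D + (e + 1) * ∑ i, δ i * (m i : ℂ)⁻¹) δ := by
        rintro α δ (_ | k)
        · simp only [a0, hDdef, Option.elim, sub_mul, Finset.sum_sub_distrib, ← Finset.sum_mul,
            ← Finset.mul_sum]
          push_cast; ring
        · simp only [a1, Nat.cast_ite, Nat.cast_zero, mul_ite, mul_zero, Finset.sum_ite_eq',
            Finset.mem_univ, if_true, Option.elim]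
          field_simp [mne k]; ring
      rintro (_ | l)
      · refine ⟨D⁻¹, fun i => (0 - D⁻¹) * (m i : ℂ)⁻¹, fun k => ?_⟩
        change 1 * (_ + ∑ i, _ * (a k i : ℂ)) = _
        rw [one_mul, main D⁻¹ (fun _ => 0)]
        cases k with
        | none => simp [inv_mul_cancel₀ hD]
        | some k => simp
      · refine ⟨-((e + 1) * (m l : ℂ)⁻¹) * D⁻¹, fun i => ((if i = l then 1 else 0) -
          -((e + 1) * (m l : ℂ)⁻¹) * D⁻¹) * (m i : ℂ)⁻¹, fun k => ?_⟩
        change 1 * (_ + ∑ i, _ * (a k i : ℂ)) = _
        rw [one_mul, main _ (fun i => if i = l then 1 else 0)]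
        cases k with
        | none => simp [mul_assoc, inv_mul_cancel₀ hD]
        | some k =>
          change (if k = l then 1 else 0) = _
          by_cases hk : k = l
          · rw [if_pos hk, if_pos (congrArg some hk)]
          · rw [if_neg hk, if_neg fun h => hk (Option.some_injective _ h)]
    · exact h (U.surj_of_gt h2)
  · rintro rfl
    refine U.not_surj_mid (fun o => o.elim (-(1 + ∑ i, (m i : ℂ)⁻¹) / (p + 2)) fun i => (m i : ℂ)⁻¹)
      (fun j => ?_) (some 0) (inv_ne_zero (mne 0))
    change ∑ k : Option (Fin (p + 1)), _ * 1 * ((a k j : ℂ) + 1) = 0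
    rw [Fintype.sum_option]
    simp only [a0, a1, Option.elim, mul_one, mul_add, Finset.sum_add_distrib, Nat.cast_ite,
      Nat.cast_zero, mul_ite, mul_zero, Finset.sum_ite_eq, Finset.mem_univ, if_true,
      inv_mul_cancel₀ (mne j)]
    push_cast
    field_simp
    ring

end Pool.Agent.P.MP_824f38_ag
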