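import Pool.Agent.P.MP_824f38_ag.Descent

/-! Cohomology of forms and dimension for graph models. -/

set_option linter.style.haveILetI false
set_option linter.unusedTactic false
set_option linter.unusedSimpArgs false
set_option linter.unusedSectionVars false

namespace Pool.Agent.P.MP_824f38_ag

theorem algebraMap_dr_inj {A : Type} [CommRing A] [Algebra ℂ A] {a b : A}
    (h : algebraMap A (DR A) a = algebraMap A (DR A) b) : a = b :=
  (ExteriorAlgebra.algebraMap_inj _ a b).mp h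

namespace GModel

variable {M : GModel}

theorem delta0 (hI : M.Integ) (ω : DR M.B0) :
    (res hI).delta 0 ω = (pull M.d00 ω - pull M.d01 ω : DR M.B1) := by
  change (∑ i : Fin 2, (-1) ^ (i : ℕ) * pull (![M.d00, M.d01] i) ω : DR M.B1) = _
  simp [Fin.sum_univ_two, sub_eq_add_neg]

theorem delta1 (hI : M.Integ) (ω : DR M.B1) :
    (res hI).delta 1 ω = (pull (M.d1 (M.tri 0)) ω - pull (M.d1 (M.tri 1)) ω
      + pull (M.d1 (M.tri 2)) ω : DR M.B2) := by
  change (∑ i : Fin 3, (-1) ^ (i : ℕ) * pull (M.d1 (M.tri i)) ω : DR M.B2) = _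
  simp [Fin.sum_univ_three, sub_eq_add_neg]

theorem hn0 (hI : M.Integ) (p : ℕ) : (res hI).HNonzero p 0 ↔
    ∃ ω ∈ Forms M.B0 p, pull M.d00 ω - pull M.d01 ω = 0 ∧ ω ≠ 0 :=
  ⟨fun ⟨ω, a, b, c⟩ => ⟨ω, a, (delta0 hI ω).symm.trans b, c⟩,
    fun ⟨ω, a, b, c⟩ => ⟨ω, a, (delta0 hI ω).trans b, c⟩⟩

theorem hn1 (hI : M.Integ) (p : ℕ) : (res hI).HNonzero p 1 ↔
    ∃ ω ∈ Forms M.B1 p, pull (M.d1 (M.tri 0)) ω - pull (M.d1 (M.tri 1)) ω
      + pull (M.d1 (M.tri 2)) ω = 0 ∧ ∀ η ∈ Forms M.B0 p, pull M.d00 η - pull M.d01 η ≠ ω :=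
  ⟨fun ⟨ω, a, b, c⟩ => ⟨ω, a, (delta1 hI ω).symm.trans b,
      fun η hη he => c η hη ((delta0 hI η).trans he)⟩,
    fun ⟨ω, a, b, c⟩ => ⟨ω, a, (delta1 hI ω).trans b,
      fun η hη he => c η hη ((delta0 hI η).symm.trans he)⟩⟩

theorem hn2 (hI : M.Integ) (p : ℕ) (h : (res hI).HNonzero p 2) :
    ∃ ω ∈ Forms M.B2 p, ∀ η ∈ Forms M.B1 p, pull (M.d1 (M.tri 0)) η - pull (M.d1 (M.tri 1)) η
      + pull (M.d1 (M.tri 2)) η ≠ ω :=
  let ⟨ω, a, _, c⟩ := h
  ⟨ω, a, fun η hη he => c η hη ((delta1 hI η).trans he)⟩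

theorem forms_B2 {p : ℕ} {ω : DR M.B2} (hω : ω ∈ Forms M.B2 (p + 1)) : ω = 0 :=
  Lv.forms_ext hω fun i => i.elim

theorem dr_B3 (ω : DR B3) : ω = 0 := by
  rw [← one_smul B3 ω, Subsingleton.elim (1 : B3) 0, zero_smul]

theorem pr_delta0 (ω : DR M.B0) (e : M.E) :
    pull (Lv.pr M.V e) (pull M.d00 ω - pull M.d01 ω) =
      pull (M.t e) (pull (Lv.pr Unit (M.tgt e)) ω) - pull (M.s e) (pull (Lv.pr Unit (M.src e)) ω) := by
  rw [map_sub, pull_pull, pull_pull, pull_pull, pull_pull]; rfl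

theorem h_one_succ (hI : M.Integ) (p : ℕ) : (res hI).HNonzero (p + 1) 1 ↔ ¬ M.SurjF (p + 1) := by
  rw [hn1]
  constructor
  · rintro ⟨ω, hω, -, hn⟩ hs
    obtain ⟨η, hη, hη'⟩ := hs (fun e => pull (Lv.pr M.V e) ω) (fun e => pull_mem _ hω)
    obtain ⟨w, hw, hw'⟩ := Lv.forms_lift (J := Unit) η hη
    refine hn w hw ?_
    rw [← sub_eq_zero]
    refine Lv.forms_ext (sub_mem (sub_mem (pull_mem _ hw) (pull_mem _ hw)) hω) fun e => ?_
    rw [map_sub, pr_delta0, hw', hw', hη', sub_self]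
  · intro hs
    unfold SurjF at hs
    push Not at hs
    obtain ⟨θ, hθ, hn⟩ := hs
    obtain ⟨w, hw, hw'⟩ := Lv.forms_lift (J := M.V) θ hθ
    refine ⟨w, hw, ?_, fun η hη he => ?_⟩
    · exact forms_B2 (add_mem (sub_mem (pull_mem _ hw) (pull_mem _ hw)) (pull_mem _ hw))
    · obtain ⟨e, he'⟩ := hn (fun v => pull (Lv.pr Unit v) η) (fun v => pull_mem _ hη)
      refine he' ?_
      rw [← pr_delta0, he, hw']

theorem h_one_zero (hI : M.Integ) : (res hI).HNonzero 0 1 ↔ ¬ M.SurjOrd 1 := by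
  rw [hn1]
  constructor
  · rintro ⟨ω, hω, hc, hn⟩ hs
    obtain ⟨c, rfl⟩ := mem_forms_zero.mp hω
    rw [pull_algebraMap, pull_algebraMap, pull_algebraMap, ← map_sub, ← map_add] at hc
    have hc' := algebraMap_dr_inj (hc.trans (map_zero _).symm)
    have hc2 : ∀ e, org _ (c.1 e) = c.2 (M.tgt e) - c.2 (M.src e) := by
      intro e
      have : org _ (c.1 e) - c.2 (M.tgt e) + c.2 (M.src e) = 0 :=
        congrFun (congrArg Prod.snd hc') e
      linear_combination this
    obtain ⟨η, hη0, hη⟩ := hs (fun e => c.1 e - algebraMap ℂ _ (org _ (c.1 e))) (fun e => by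
      rw [pow_one]; exact sub_mem_ker _ _)
    let b : M.B0 := (fun v => η v + algebraMap ℂ _ (c.2 v), 0)
    have hb : M.d00 b - M.d01 b = c := by
      refine Prod.ext (funext fun e => ?_) (funext fun v => ?_)
      · have e1 := hη e
        simp only [Prod.fst_sub, Pi.sub_apply, d00_1, d01_1, b, map_add, AlgHom.commutes]
        rw [hc2, map_sub] at e1
        linear_combination e1
      · simp [b, hη0]
    refine hn (algebraMap _ _ b) (mem_forms_zero.mpr ⟨b, rfl⟩) ?_
    rw [pull_algebraMap, pull_algebraMap, ← map_sub, hb]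
  · intro hs
    unfold SurjOrd at hs
    push Not at hs
    obtain ⟨θ, hθ, hn⟩ := hs
    have hθ0 : ∀ e, org _ (θ e) = 0 := fun e => by simpa [RingHom.mem_ker] using hθ e
    refine ⟨algebraMap M.B1 _ (θ, 0), mem_forms_zero.mpr ⟨_, rfl⟩, ?_, fun η hη he => ?_⟩
    · rw [pull_algebraMap, pull_algebraMap, pull_algebraMap, ← map_sub, ← map_add]
      refine (congrArg _ (M.B2_ext (b := 0) fun e => ?_)).trans (map_zero _)
      change org _ (θ e) - 0 + 0 = 0
      simp [hθ0]
    · obtain ⟨b, rfl⟩ := mem_forms_zero.mp hη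
      rw [pull_algebraMap, pull_algebraMap, ← map_sub] at he
      have hb := algebraMap_dr_inj he
      obtain ⟨e, he'⟩ := hn (fun v => b.1 v - algebraMap ℂ _ (b.2 ())) (fun v => by
        have : org _ (b.1 v) - b.2 () = 0 := congrFun (congrArg Prod.snd hb) v
        simpa using this)
      refine he' ?_
      have : M.t e (b.1 (M.tgt e)) - M.s e (b.1 (M.src e)) = θ e :=
        congrFun (congrArg Prod.fst hb) e
      simp only [map_sub, AlgHom.commutes]
      linear_combination this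

theorem h_one (hI : M.Integ) (p : ℕ) : (res hI).HNonzero p 1 ↔ ¬ M.Surj p := by
  cases p with
  | zero => exact h_one_zero hI
  | succ p => exact h_one_succ hI p

theorem h_two (hI : M.Integ) (p q : ℕ) : ¬ (res hI).HNonzero p (q + 2) := by
  intro h
  cases q with
  | succ q =>
    obtain ⟨ω, hω, -, hn⟩ := h
    exact hn 0 (zero_mem _) ((dr_B3 _).trans (dr_B3 _).symm)
  | zero =>
    obtain ⟨ω, hω, hn⟩ := hn2 hI p h
    cases p with
    | succ p =>
      refine hn 0 (zero_mem _) ?_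
      rw [forms_B2 hω]; simp
    | zero =>
      obtain ⟨c, rfl⟩ := mem_forms_zero.mp hω
      let b : M.B1 := (fun e => algebraMap ℂ _ (c.2 e), 0)
      refine hn (algebraMap M.B1 _ b) (mem_forms_zero.mpr ⟨b, rfl⟩) ?_
      rw [pull_algebraMap, pull_algebraMap, pull_algebraMap, ← map_sub, ← map_add]
      refine congrArg _ (M.B2_ext fun e => ?_)
      change org _ (algebraMap ℂ _ (c.2 e)) - 0 + 0 = c.2 e
      simp

theorem h_zero (hI : M.Integ) (v : M.V) (hv : ∀ e, M.src e ≠ v ∧ M.tgt e ≠ v) (p : ℕ)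
    (θ : DR (Pol (M.σ v))) (hθ : θ ∈ Forms _ p) (hθ0 : θ ≠ 0) : (res hI).HNonzero p 0 := by
  classical
  rw [hn0]
  cases p with
  | zero =>
    refine ⟨1, mem_forms_zero.mpr ⟨1, by simp⟩, by simp, fun h => ?_⟩
    have : (1 : M.B0) = 0 := algebraMap_dr_inj (by rw [map_one, map_zero]; exact h)
    exact one_ne_zero (congrFun (congrArg Prod.snd this) ())
  | succ p =>
    obtain ⟨w, hw, hw'⟩ := Lv.forms_lift (J := Unit) (Pi.single v θ : ∀ v, DR (Pol (M.σ v)))
      (p := p + 1) (fun u => by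
        by_cases h : u = v
        · subst h; simpa using hθ
        · simp [h])
    refine ⟨w, hw, ?_, fun h => hθ0 ?_⟩
    · refine Lv.forms_ext (sub_mem (pull_mem _ hw) (pull_mem _ hw)) fun e => ?_
      rw [pr_delta0, hw', hw', Pi.single_eq_of_ne (hv e).1, Pi.single_eq_of_ne (hv e).2]
      simp
    · have := hw' v
      rw [h, map_zero, Pi.single_eq_same] at this
      exact this.symm

theorem finiteType_R (hI : M.Integ) : Algebra.FiniteType ℂ M.R :=
  ⟨fg_of_fg_of_fg ℂ M.R M.B0 Algebra.FiniteType.out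
    (Module.Finite.fg_top (R := M.R) (M := M.B0) (self := aug_finite hI)) Subtype.val_injective⟩

theorem isReduced_R : IsReduced M.R :=
  isReduced_of_injective M.R.val Subtype.val_injective

theorem dim_le (hI : M.Integ) (n : ℕ) (hn : ∀ v, Fintype.card (M.σ v) ≤ n) :
    ringKrullDim M.R ≤ n := by
  classical
  haveI := finiteType_R hI
  haveI : Nontrivial M.R := ⟨⟨0, 1, fun h => zero_ne_one (congrArg M.x0 h |>.trans (map_one _) |>
    (map_zero M.x0).symm.trans)⟩⟩
  obtain ⟨s, g, hg, hint⟩ := exists_integral_inj_algHom_of_fg ℂ M.R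
  have h1 : ringKrullDim M.R ≤ ringKrullDim (MvPolynomial (Fin s) ℂ) := by
    letI : Algebra (MvPolynomial (Fin s) ℂ) M.R := g.toRingHom.toAlgebra
    haveI : Algebra.IsIntegral (MvPolynomial (Fin s) ℂ) M.R := ⟨hint⟩
    refine Order.krullDim_le_of_strictMono
      (fun I : PrimeSpectrum M.R => PrimeSpectrum.comap (algebraMap _ M.R) I) ?_
    intro I J hIJ
    exact Ideal.IsIntegral.comap_lt_comap (R := MvPolynomial (Fin s) ℂ) (I := I.asIdeal)
      (J := J.asIdeal) hIJ
  refine h1.trans ?_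
  rw [MvPolynomial.ringKrullDim_of_isNoetherianRing, ringKrullDim_eq_zero_of_field, zero_add]
  suffices s ≤ n by simpa using this
  by_contra hs
  have hker : ∀ (τ : Type) [Fintype τ] (φ : MvPolynomial (Fin s) ℂ →ₐ[ℂ] Pol τ),
      Fintype.card τ ≤ n → ∃ f, f ≠ 0 ∧ φ f = 0 := by
    intro τ _ φ hτ
    by_contra hh
    push Not at hh
    have hi : Function.Injective φ := (injective_iff_map_eq_zero φ).mpr fun f hf => by
      by_contra h0; exact hh f h0 hf
    have := trdeg_le_of_injective φ hi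
    rw [MvPolynomial.trdeg_of_isDomain, MvPolynomial.trdeg_of_isDomain] at this
    simp at this
    omega
  choose f hf hf' using fun v => hker (M.σ v) ((Lv.pr Unit v).comp (M.R.val.comp g)) (hn v)
  obtain ⟨f0, hf0, hf0'⟩ := hker Empty ((Algebra.ofId ℂ _).comp (M.x0.comp g)) (by simp)
  have hz : g (f0 * ∏ v, f v) = 0 := by
    refine Subtype.ext (Prod.ext (funext fun v => ?_) (funext fun u => ?_))
    · change ((Lv.pr Unit v).comp (M.R.val.comp g)) (f0 * ∏ v, f v) = 0
      rw [map_mul, map_prod, Finset.prod_eq_zero (Finset.mem_univ v) (hf' v), mul_zero]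
    · change (M.x0.comp g) (f0 * ∏ v, f v) = 0
      have : (M.x0.comp g) f0 = 0 := (algebraMap ℂ (Pol Empty)).injective (hf0'.trans (map_zero _).symm)
      rw [map_mul, this, zero_mul]
  exact mul_ne_zero hf0 (Finset.prod_ne_zero_iff.mpr fun v _ => hf v)
    (hg (hz.trans (map_zero g).symm))

theorem le_dim (v : M.V) (hv : ∀ e, M.src e ≠ v ∧ M.tgt e ≠ v) :
    (Fintype.card (M.σ v) : WithBot ℕ∞) ≤ ringKrullDim M.R := by
  classical
  have := ringKrullDim_le_of_surjective ((Lv.pr Unit v).comp M.R.val).toRingHom (fun f => by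
    have hc : M.Coc (Pi.single v (f - algebraMap ℂ _ (org _ f))) := by
      refine ⟨fun e => ?_, fun u => ?_⟩
      · rw [Pi.single_eq_of_ne (hv e).1, Pi.single_eq_of_ne (hv e).2]; simp
      · by_cases h : u = v
        · subst h; simp
        · simp [h]
    refine ⟨M.ofCoc hc + algebraMap ℂ _ (org _ f), ?_⟩
    change ((Lv.pr Unit v).comp M.R.val) _ = f
    rw [map_add, AlgHom.commutes]
    change (Pi.single v (f - algebraMap ℂ _ (org _ f)) : ∀ v, Pol (M.σ v)) v + _ = f
    simp)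
  rw [MvPolynomial.ringKrullDim_of_isNoetherianRing, ringKrullDim_eq_zero_of_field, zero_add] at this
  simpa using this

end GModel

end Pool.Agent.P.MP_824f38_ag
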