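import Pool.Agent.P.MP_824f38_ag.Defs

/-! Basic calculus of `pull` and of wedges of exact differentials. -/

set_option linter.style.haveILetI false
set_option linter.unusedTactic false
set_option linter.unusedSimpArgs false

namespace Pool.Agent.P.MP_824f38_ag

open ExteriorAlgebra

variable {A B C : Type} [CommRing A] [Algebra ℂ A] [CommRing B] [Algebra ℂ B]
  [CommRing C] [Algebra ℂ C]

/-- the form `d v_1 ∧ ⋯ ∧ d v_p` -/
noncomputable def wd {p : ℕ} (v : Fin p → A) : DR A :=
  ιMulti A p (fun i => KaehlerDifferential.D ℂ A (v i))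

@[simp] theorem pull_algebraMap (φ : A →ₐ[ℂ] B) (a : A) :
    pull φ (algebraMap A (DR A) a) = algebraMap B (DR B) (φ a) := (exists_pull φ).choose_spec.1 a

@[simp] theorem pull_dd (φ : A →ₐ[ℂ] B) (a : A) : pull φ (dd a) = dd (φ a) :=
  (exists_pull φ).choose_spec.2 a

theorem pull_smul (φ : A →ₐ[ℂ] B) (a : A) (ω : DR A) : pull φ (a • ω) = φ a • pull φ ω := by
  rw [Algebra.smul_def, Algebra.smul_def, map_mul, pull_algebraMap]

theorem csmul_eq (c : ℂ) (ω : DR A) : c • ω = (algebraMap ℂ A c) • ω := by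
  rw [algebraMap_smul]

theorem pull_csmul (φ : A →ₐ[ℂ] B) (c : ℂ) (ω : DR A) : pull φ (c • ω) = c • pull φ ω := by
  rw [csmul_eq, pull_smul, AlgHom.commutes, ← csmul_eq]

theorem dr_induction {P : DR A → Prop} (h0 : ∀ a, P (algebraMap A (DR A) a))
    (h1 : ∀ a, P (dd a)) (hadd : ∀ x y, P x → P y → P (x + y))
    (hmul : ∀ x y, P x → P y → P (x * y)) (ω : DR A) : P ω := by
  induction ω using ExteriorAlgebra.induction with
  | algebraMap a => exact h0 a
  | ι m =>
    have hm : m ∈ Submodule.span A (Set.range (KaehlerDifferential.D ℂ A)) := by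
      rw [KaehlerDifferential.span_range_derivation]; trivial
    induction hm using Submodule.span_induction with
    | mem x hx => obtain ⟨a, rfl⟩ := hx; exact h1 a
    | zero => simpa using h0 0
    | add x y _ _ hx hy => rw [map_add]; exact hadd _ _ hx hy
    | smul a x _ hx => rw [map_smul, Algebra.smul_def]; exact hmul _ _ (h0 a) hx
  | mul x y hx hy => exact hmul _ _ hx hy
  | add x y hx hy => exact hadd _ _ hx hy

theorem pull_pull (φ : A →ₐ[ℂ] B) (ψ : B →ₐ[ℂ] C) (ω : DR A) :
    pull ψ (pull φ ω) = pull (ψ.comp φ) ω := by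
  induction ω using dr_induction with
  | h0 a => simp
  | h1 a => simp
  | hadd x y hx hy => simp only [map_add, hx, hy]
  | hmul x y hx hy => simp only [map_mul, hx, hy]

theorem pull_id (ω : DR A) : pull (AlgHom.id ℂ A) ω = ω := by
  induction ω using dr_induction with
  | h0 a => simp
  | h1 a => simp
  | hadd x y hx hy => simp only [map_add, hx, hy]
  | hmul x y hx hy => simp only [map_mul, hx, hy]

theorem wd_zero (v : Fin 0 → A) : wd v = 1 := by simp [wd]

theorem wd_succ {p : ℕ} (v : Fin (p + 1) → A) : wd v = dd (v 0) * wd (fun i => v i.succ) := by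
  unfold wd dd
  rw [ιMulti_succ_apply]
  rfl

theorem wd_cons {p : ℕ} (a : A) (v : Fin p → A) : wd (Fin.cons a v : Fin (p + 1) → A) = dd a * wd v := by
  rw [wd_succ]; simp

theorem pull_wd (φ : A →ₐ[ℂ] B) {p : ℕ} (v : Fin p → A) :
    pull φ (wd v) = wd (fun i => φ (v i)) := by
  induction p with
  | zero => simp [wd_zero]
  | succ p ih => rw [wd_succ, wd_succ, map_mul, pull_dd, ih]

theorem wd_mem {p : ℕ} (v : Fin p → A) : wd v ∈ Forms A p :=
  ιMulti_range A p ⟨_, rfl⟩

theorem forms_induction {p : ℕ} {P : DR A → Prop} (h0 : P 0)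
    (h1 : ∀ (a : A) (v : Fin p → A), P (a • wd v)) (hadd : ∀ x y, P x → P y → P (x + y))
    {ω : DR A} (hω : ω ∈ Forms A p) : P ω := by
  have h := exteriorPower.ιMulti_span_fixedDegree_of_span_eq_top A p (KaehlerDifferential ℂ A)
    (KaehlerDifferential.span_range_derivation ℂ A)
  have hω' : ω ∈ Submodule.span A (ιMulti A p '' {a | Set.range a ⊆
      Set.range (KaehlerDifferential.D ℂ A)}) := by rw [h]; exact hω
  suffices ∀ a : A, P (a • ω) by simpa using this 1
  clear hω
  induction hω' using Submodule.span_induction with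
  | mem x hx =>
    obtain ⟨w, hw, rfl⟩ := hx
    intro a
    choose v hv using fun i => hw ⟨i, rfl⟩
    have : w = fun i => KaehlerDifferential.D ℂ A (v i) := funext fun i => (hv i).symm
    rw [this]; exact h1 a v
  | zero => intro a; simpa using h0
  | add x y hx' hy' hx hy =>
    intro a; rw [smul_add]
    exact hadd _ _ (hx a) (hy a)
  | smul b x hx' hx => intro a; rw [smul_smul]; exact hx _

theorem pull_mem (φ : A →ₐ[ℂ] B) {p : ℕ} {ω : DR A} (hω : ω ∈ Forms A p) :
    pull φ ω ∈ Forms B p := by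
  refine forms_induction (P := fun ω => pull φ ω ∈ Forms B p) (by simp) ?_ ?_ hω
  · intro a v; rw [pull_smul, pull_wd]; exact Submodule.smul_mem _ _ (wd_mem _)
  · intro x y hx hy; rw [map_add]; exact add_mem hx hy

theorem mem_forms_zero {ω : DR A} : ω ∈ Forms A 0 ↔ ∃ a : A, algebraMap A (DR A) a = ω := by
  constructor
  · intro h
    refine forms_induction (P := fun ω => ∃ a : A, algebraMap A (DR A) a = ω) ⟨0, by simp⟩ ?_ ?_ h
    · intro a v; exact ⟨a, by rw [wd_zero, Algebra.algebraMap_eq_smul_one]⟩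
    · rintro x y ⟨a, rfl⟩ ⟨b, rfl⟩; exact ⟨a + b, by simp⟩
  · rintro ⟨a, rfl⟩
    rw [Algebra.algebraMap_eq_smul_one, ← wd_zero (A := A) Fin.elim0]
    exact Submodule.smul_mem _ _ (wd_mem _)

theorem dd_add (a b : A) : dd (a + b) = dd a + dd b := by simp [dd]
theorem dd_sub (a b : A) : dd (a - b) = dd a - dd b := by simp [dd]
theorem dd_zero : dd (0 : A) = 0 := by simp [dd]
theorem dd_mul (a b : A) : dd (a * b) = a • dd b + b • dd a := by simp [dd]
theorem dd_csmul (c : ℂ) (a : A) : dd (c • a) = c • dd a := by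
  unfold dd
  rw [Derivation.map_smul, csmul_eq, ← LinearMap.map_smul, algebraMap_smul]
theorem dd_algebraMap (c : ℂ) : dd (algebraMap ℂ A c) = 0 := by simp [dd]
theorem dd_sq (a : A) : dd a * dd a = 0 := ι_sq_zero _
theorem dd_swap (a b : A) : dd a * dd b = - (dd b * dd a) :=
  eq_neg_of_add_eq_zero_left (ι_add_mul_swap _ _)

theorem forms_complex {p : ℕ} {ω : DR ℂ} (hω : ω ∈ Forms ℂ (p + 1)) : ω = 0 := by
  refine forms_induction (P := fun ω => ω = 0) rfl ?_ ?_ hω
  · intro a v
    have : dd (v 0) = 0 := dd_algebraMap (A := ℂ) (v 0)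
    rw [wd_succ, this, zero_mul, smul_zero]
  · intro x y hx hy; rw [hx, hy, add_zero]

/-- A direct factor `A` of `B`, with its non-unital section. -/
structure Piece (B A : Type) [CommRing A] [Algebra ℂ A] [CommRing B] [Algebra ℂ B] where
  /-- projection -/
  π : B →ₐ[ℂ] A
  /-- section -/
  sec : A →ₗ[ℂ] B
  π_sec : ∀ a, π (sec a) = a
  sec_π : ∀ b, sec (π b) = sec 1 * b

namespace Piece

variable (P : Piece B A)

theorem one_mul_sec (a : A) : P.sec 1 * P.sec a = P.sec a := by
  rw [← P.sec_π, P.π_sec]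

theorem sec_mul (a b : A) : P.sec (a * b) = P.sec a * P.sec b := by
  have := P.sec_π (P.sec a * P.sec b)
  rw [map_mul, P.π_sec, P.π_sec, ← mul_assoc, P.one_mul_sec] at this
  exact this

theorem exists_lift {p : ℕ} {θ : DR A} (hθ : θ ∈ Forms A p) :
    ∃ ω ∈ Forms B p, pull P.π ω = θ := by
  refine forms_induction (P := fun θ => ∃ ω ∈ Forms B p, pull P.π ω = θ)
    ⟨0, zero_mem _, by simp⟩ ?_ ?_ hθ
  · intro a v
    refine ⟨P.sec a • wd (fun i => P.sec (v i)), Submodule.smul_mem _ _ (wd_mem _), ?_⟩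
    rw [pull_smul, pull_wd]; simp only [P.π_sec]
  · rintro x y ⟨a, ha, rfl⟩ ⟨b, hb, rfl⟩; exact ⟨a + b, add_mem ha hb, by simp⟩

/-- congruence modulo the complementary factor -/
def con : RingCon (DR B) where
  r x y := P.sec 1 • x = P.sec 1 • y
  iseqv := ⟨fun _ => rfl, fun h => h.symm, fun h h' => h.trans h'⟩
  add' := by
    intro w x y z h h'
    change P.sec 1 • (w + y) = P.sec 1 • (x + z)
    rw [smul_add, smul_add, h, h']
  mul' := by
    intro w x y z h h'
    change P.sec 1 • (w * y) = P.sec 1 • (x * z)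
    have e : ∀ a b : DR B, P.sec 1 • (a * b) = (P.sec 1 • a) * (P.sec 1 • b) := by
      intro a b
      rw [smul_mul_smul_comm, P.one_mul_sec]
    rw [e, e, h, h']

theorem con_iff (x y : DR B) : P.con.mk' x = P.con.mk' y ↔ P.sec 1 • x = P.sec 1 • y :=
  RingCon.eq P.con

/-- scalars of the factor acting on the quotient -/
noncomputable def scal : A →+* P.con.Quotient where
  toFun a := P.con.mk' (algebraMap B (DR B) (P.sec a))
  map_one' := by
    rw [← map_one P.con.mk', P.con_iff, Algebra.algebraMap_eq_smul_one, smul_smul, P.one_mul_sec]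
  map_mul' a b := by rw [P.sec_mul, map_mul, map_mul]
  map_zero' := by simp
  map_add' a b := by simp

theorem sec_one_smul_dd : P.sec 1 • dd (P.sec 1) = 0 := by
  have h := dd_mul (P.sec 1) (P.sec 1)
  rw [P.one_mul_sec] at h
  have h2 := congrArg (fun x => P.sec 1 • x) h
  simp only [smul_add, smul_smul, P.one_mul_sec] at h2
  exact left_eq_add.mp h2

theorem smul_eq_zero_of_pull {ω : DR B} (h : pull P.π ω = 0) : P.sec 1 • ω = 0 := by
  letI : Algebra A P.con.Quotient := P.scal.toAlgebra' (by
    intro a x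
    obtain ⟨y, rfl⟩ := P.con.mk'_surjective x
    change P.con.mk' _ * P.con.mk' y = P.con.mk' y * P.con.mk' _
    rw [← map_mul, ← map_mul, Algebra.commutes])
  have hs : ∀ (a : A) (y : DR B), a • P.con.mk' y = P.con.mk' (P.sec a • y) := by
    intro a y
    rw [Algebra.smul_def, Algebra.smul_def, map_mul]; rfl
  have hc : ∀ (c : ℂ) (y : DR B), c • P.con.mk' y = P.con.mk' (c • y) := fun _ _ => rfl
  haveI : IsScalarTower ℂ A P.con.Quotient := ⟨fun c a x => by
    obtain ⟨y, rfl⟩ := P.con.mk'_surjective x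
    rw [hs, hs, hc, LinearMap.map_smul, smul_assoc]⟩
  let δ0 : A →ₗ[ℂ] P.con.Quotient :=
    { toFun := fun a => P.con.mk' (dd (P.sec a))
      map_add' := by intro a b; rw [map_add, dd_add, map_add]
      map_smul' := by
        intro c a
        change _ = c • P.con.mk' (dd (P.sec a))
        rw [hc, map_smul, dd_csmul] }
  let δ : Derivation ℂ A P.con.Quotient := Derivation.mk' δ0 (by
    intro a b
    change P.con.mk' (dd (P.sec (a * b))) = a • P.con.mk' (dd (P.sec b)) + b • P.con.mk' (dd (P.sec a))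
    rw [hs, hs, P.sec_mul, dd_mul, map_add])
  have hsq : ∀ m, δ.liftKaehlerDifferential m * δ.liftKaehlerDifferential m = 0 := by
    have : ∀ m, ∃ m', δ.liftKaehlerDifferential m = P.con.mk' (ι B m') := by
      intro m
      have hm : m ∈ Submodule.span A (Set.range (KaehlerDifferential.D ℂ A)) := by
        rw [KaehlerDifferential.span_range_derivation]; trivial
      induction hm using Submodule.span_induction with
      | mem x hx =>
        obtain ⟨a, rfl⟩ := hx
        exact ⟨_, by rw [Derivation.liftKaehlerDifferential_comp_D]; rfl⟩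
      | zero => exact ⟨0, by simp⟩
      | add x y _ _ hx hy =>
        obtain ⟨a, ha⟩ := hx; obtain ⟨b, hb⟩ := hy
        exact ⟨a + b, by rw [map_add, ha, hb, map_add, map_add]⟩
      | smul a x _ hx =>
        obtain ⟨b, hb⟩ := hx
        exact ⟨P.sec a • b, by rw [LinearMap.map_smul, hb, hs, LinearMap.map_smul]⟩
    intro m
    obtain ⟨m', hm⟩ := this m
    rw [hm, ← map_mul, ι_sq_zero, map_zero]
  let s : DR A →ₐ[A] P.con.Quotient := ExteriorAlgebra.lift A ⟨δ.liftKaehlerDifferential, hsq⟩
  have key : ∀ x : DR B, s (pull P.π x) = P.con.mk' x := by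
    intro x
    induction x using dr_induction with
    | h0 b =>
      rw [pull_algebraMap, AlgHom.commutes]
      change P.con.mk' (algebraMap B (DR B) (P.sec (P.π b))) = _
      rw [P.con_iff, P.sec_π, Algebra.algebraMap_eq_smul_one, Algebra.algebraMap_eq_smul_one,
        smul_smul, smul_smul, ← mul_assoc, P.one_mul_sec]
    | h1 b =>
      rw [pull_dd]
      change s (ι A _) = _
      rw [ExteriorAlgebra.lift_ι_apply, Derivation.liftKaehlerDifferential_comp_D]
      change P.con.mk' (dd (P.sec (P.π b))) = _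
      rw [P.con_iff, P.sec_π, dd_mul, smul_add, smul_smul, P.one_mul_sec, smul_comm,
        P.sec_one_smul_dd, smul_zero, add_zero]
    | hadd x y hx hy => simp only [map_add, hx, hy]
    | hmul x y hx hy => simp only [map_mul, hx, hy]
  have := key ω
  rw [h, map_zero, ← map_zero P.con.mk', P.con_iff, smul_zero] at this
  exact this.symm

end Piece

end Pool.Agent.P.MP_824f38_ag
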