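import Mathlib

/-!
Finite semi-simplicial resolutions of affine complex varieties and the complexes of
differential forms that they carry.
-/

set_option linter.style.haveILetI false

namespace Pool.Agent.P.MP_824f38_ag

/-- The algebra of algebraic differential forms of a complex algebra `A`: the exterior algebra
over `A` of the module of Kaehler differentials of `A` over the complex numbers. -/
abbrev DR (A : Type) [CommRing A] [Algebra ℂ A] : Type :=
  ExteriorAlgebra A (KaehlerDifferential ℂ A)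

/-- The `p`-forms: the `p`-th exterior power inside `DR A`. -/
noncomputable abbrev Forms (A : Type) [CommRing A] [Algebra ℂ A] (p : ℕ) : Submodule A (DR A) :=
  ExteriorAlgebra.exteriorPower A p (KaehlerDifferential ℂ A)

section

variable {A B C : Type} [CommRing A] [Algebra ℂ A] [CommRing B] [Algebra ℂ B]
  [CommRing C] [Algebra ℂ C]

/-- the one-form `d a` -/
noncomputable def dd (a : A) : DR A := ExteriorAlgebra.ι A (KaehlerDifferential.D ℂ A a)

/-- `F` is the pull-back of forms along the morphism `Spec B → Spec A` given by `φ`: the ring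
map with `a ↦ φ a` and `d a ↦ d (φ a)`. These elements generate `DR A`, so `F` is unique. -/
def IsPull (φ : A →ₐ[ℂ] B) (F : DR A →+* DR B) : Prop :=
  (∀ a, F (algebraMap A (DR A) a) = algebraMap B (DR B) (φ a)) ∧ ∀ a, F (dd a) = dd (φ a)

theorem exists_pull (φ : A →ₐ[ℂ] B) : ∃ F, IsPull φ F := by
  letI : Algebra A B := φ.toRingHom.toAlgebra
  haveI : IsScalarTower ℂ A B := IsScalarTower.of_algHom φ
  refine ⟨(ExteriorAlgebra.lift A
    ⟨((ExteriorAlgebra.ι B).restrictScalars A).comp (KaehlerDifferential.map ℂ ℂ A B),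
      fun _ => ExteriorAlgebra.ι_sq_zero _⟩).toRingHom, fun a => ?_, fun a => ?_⟩
  · simp only [AlgHom.toRingHom_eq_coe, RingHom.coe_coe, AlgHom.commutes]
    rw [IsScalarTower.algebraMap_apply A B (DR B)]
    rfl
  · unfold dd
    simp only [AlgHom.toRingHom_eq_coe, RingHom.coe_coe, ExteriorAlgebra.lift_ι_apply,
      LinearMap.comp_apply, LinearMap.restrictScalars_apply]
    exact congrArg _ (KaehlerDifferential.map_D ℂ ℂ A B a)

/-- Pull-back of differential forms. -/
noncomputable def pull (φ : A →ₐ[ℂ] B) : DR A →+* DR B := (exists_pull φ).choose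

/-- The alternating sum of the pull-backs along a finite family of maps. -/
noncomputable def altSum {n : ℕ} (d : Fin n → (A →ₐ[ℂ] B)) (ω : DR A) : DR B :=
  ∑ i : Fin n, (-1) ^ (i : ℕ) * pull (d i) ω

/-- `g` kills a nonzero `p`-form. -/
def KerNonzero (g : DR B → DR C) (p : ℕ) : Prop := ∃ ω ∈ Forms B p, g ω = 0 ∧ ω ≠ 0

/-- `g` kills a `p`-form that is not the image under `f` of a `p`-form. -/
def NotExact (f : DR A → DR B) (g : DR B → DR C) (p : ℕ) : Prop :=
  ∃ ω ∈ Forms B p, g ω = 0 ∧ ∀ η ∈ Forms A p, f η ≠ ω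

end

/-- An augmented semi-simplicial affine scheme `X_k = Spec (B k)` over `Spec R`, all `X_k` smooth
over the complex numbers and all structure maps finite (hence proper). -/
structure SemiSimplicial (R : Type) [CommRing R] [Algebra ℂ R] where
  /-- the coordinate ring of the `k`-th term -/
  B : ℕ → Type
  [ring : ∀ k, CommRing (B k)]
  [alg : ∀ k, Algebra ℂ (B k)]
  smooth : ∀ k, Algebra.Smooth ℂ (B k)
  /-- the augmentation `X_0 → Spec R` -/
  aug : R →ₐ[ℂ] B 0
  /-- the face maps `X_(k+1) → X_k` -/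
  d : ∀ k, Fin (k + 2) → (B k →ₐ[ℂ] B (k + 1))
  aug_finite : aug.Finite
  d_finite : ∀ k i, (d k i).Finite
  d_aug : (d 0 0).comp aug = (d 0 1).comp aug
  d_d : ∀ (k : ℕ) (i j : Fin (k + 2)), i ≤ j →
    (d (k + 1) j.succ).comp (d k i) = (d (k + 1) i.castSucc).comp (d k j)

attribute [instance] SemiSimplicial.ring SemiSimplicial.alg

namespace SemiSimplicial

variable {R : Type} [CommRing R] [Algebra ℂ R] (X : SemiSimplicial R)

/-- The structure map `X_k → Spec R`. -/
def str : ∀ k, R →ₐ[ℂ] X.B k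
  | 0 => X.aug
  | k + 1 => (X.d k 0).comp (str k)

/-- The simplicial coboundary of a rational function on the complex points of `X_k`. -/
def cob (k : ℕ) (h : (X.B k →ₐ[ℂ] ℂ) → ℚ) (y : X.B (k + 1) →ₐ[ℂ] ℂ) : ℚ :=
  ∑ i : Fin (k + 2), (-1) ^ (i : ℕ) * h (y.comp (X.d k i))

/-- Cohomological descent, read on stalks: over every complex point `x` of `Spec R` the fibre,
a semi-simplicial finite set, has the rational cohomology of a point. -/
def Descent : Prop :=
  ∀ x : R →ₐ[ℂ] ℂ,
    (∃ y : X.B 0 →ₐ[ℂ] ℂ, y.comp (X.str 0) = x) ∧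
    (∀ h : (X.B 0 →ₐ[ℂ] ℂ) → ℚ, (∀ y, y.comp (X.str 1) = x → X.cob 0 h y = 0) →
      ∃ c : ℚ, ∀ y, y.comp (X.str 0) = x → h y = c) ∧
    ∀ (k : ℕ) (h : (X.B (k + 1) →ₐ[ℂ] ℂ) → ℚ),
      (∀ y, y.comp (X.str (k + 2)) = x → X.cob (k + 1) h y = 0) →
      ∃ g : (X.B k →ₐ[ℂ] ℂ) → ℚ, ∀ y, y.comp (X.str (k + 1)) = x → h y = X.cob k g y

/-- The differential of the complex of forms: the alternating sum of the pull-backs. -/
noncomputable def delta (k : ℕ) : DR (X.B k) → DR (X.B (k + 1)) := altSum (X.d k)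

/-- The `q`-th cohomology of the complex `Ω^p(X_0) → Ω^p(X_1) → ⋯` is not zero. -/
def HNonzero (p : ℕ) : ℕ → Prop
  | 0 => KerNonzero (X.delta 0) p
  | q + 1 => NotExact (X.delta q) (X.delta (q + 1)) p

end SemiSimplicial

end Pool.Agent.P.MP_824f38_ag
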