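import Pool.Agent.P.MP_824f38_ag.Model

/-! Cohomological descent for graph models. -/

set_option linter.style.haveILetI false
set_option linter.unusedTactic false
set_option linter.unusedSimpArgs false
set_option linter.unusedSectionVars false

namespace Pool.Agent.P.MP_824f38_ag

theorem exists_retr : ∃ ρ : ℂ →ₗ[ℚ] ℚ, ∀ q : ℚ, ρ (q : ℂ) = q := by
  obtain ⟨ρ, hρ⟩ := LinearMap.exists_leftInverse_of_injective (Algebra.linearMap ℚ ℂ)
    (LinearMap.ker_eq_bot.mpr (algebraMap ℚ ℂ).injective)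
  exact ⟨ρ, fun q => by simpa using LinearMap.congr_fun hρ q⟩

namespace GModel

variable (M : GModel)

/-- the base point -/
noncomputable def x0 : M.R →ₐ[ℂ] ℂ := (Lv.ev M.σ ()).comp M.R.val

/-- the structure map of level one -/
noncomputable def s1 : M.R →ₐ[ℂ] M.B1 := M.d00.comp M.R.val

theorem s1_eq (r : M.R) : M.s1 r = M.d01 r := r.2

theorem oE_over (e : M.E) : (M.oE e).comp M.s1 = M.x0 :=
  AlgHom.ext fun r => (M.t_org e _).trans ((M.mem_R.mp r.2).2 _)

theorem evV_over (v : M.V) : (Lv.ev M.τ v).comp M.s1 = M.x0 :=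
  AlgHom.ext fun r => (M.mem_R.mp r.2).2 v

variable {M}

theorem s1_finite (h : M.Integ) : M.s1.Finite := AlgHom.Finite.comp d00_finite (aug_finite h)

theorem SurjOrd.succ {K : ℕ} (h : M.SurjOrd K) : M.SurjOrd (K + 1) :=
  fun θ hθ => h θ fun e => Ideal.pow_le_pow_right (Nat.le_succ K) (hθ e)

theorem exact_one (hI : M.Integ) {K : ℕ} (hK : M.SurjOrd K) (x : M.R →ₐ[ℂ] ℂ)
    (h : (M.B1 →ₐ[ℂ] ℂ) → ℂ)
    (hc : x = M.x0 → ∀ e, h (M.oE e) - h (Lv.ev M.τ (M.tgt e)) + h (Lv.ev M.τ (M.src e)) = 0) :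
    ∃ b : M.B0, ∀ y : M.B1 →ₐ[ℂ] ℂ, y.comp M.s1 = x → h y = y (M.d00 b) - y (M.d01 b) := by
  classical
  let h' : (M.B1 →ₐ[ℂ] ℂ) → ℂ := fun y => if y.comp M.s1 = x then h y else 0
  have hc' : ∀ e, h' (M.oE e) - h' (Lv.ev M.τ (M.tgt e)) + h' (Lv.ev M.τ (M.src e)) = 0 := by
    intro e
    simp only [h', oE_over, evV_over]
    by_cases hx : M.x0 = x
    · simp only [hx, if_true]; exact hc hx.symm e
    · simp [hx]
  have hF : ({y : M.B1 →ₐ[ℂ] ℂ | y.comp M.s1 = x} ∪ {y | y.comp M.s1 = M.x0}).Finite :=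
    (finite_over _ (s1_finite hI) x).union (finite_over _ (s1_finite hI) M.x0)
  obtain ⟨c, hcc⟩ := interp hF h' (K + 1)
  have hker : ∀ (y : M.B1 →ₐ[ℂ] ℂ), y.comp M.s1 = x ∨ y.comp M.s1 = M.x0 → y c = h' y := by
    intro y hy
    have := Ideal.pow_le_self (Nat.succ_ne_zero K) (hcc y hy)
    rwa [RingHom.mem_ker, map_sub, AlgHom.commutes, sub_eq_zero] at this
  obtain ⟨η, hη0, hη⟩ := hK.succ (fun e => c.1 e - algebraMap ℂ _ (h' (M.oE e))) (fun e => by
    have := map_mem_ker_pow (Lv.pr M.V e) (org _) (hcc (M.oE e) (Or.inr (M.oE_over e)))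
    simpa using this)
  let b : M.B0 := (fun v => η v + algebraMap ℂ _ (h' (Lv.ev M.τ v)), 0)
  have hb : M.d00 b - M.d01 b = c := by
    refine Prod.ext (funext fun e => ?_) (funext fun v => ?_)
    · have e1 := hη e
      have e2 : h' (M.oE e) = h' (Lv.ev M.τ (M.tgt e)) - h' (Lv.ev M.τ (M.src e)) := by
        linear_combination hc' e
      simp only [Prod.fst_sub, Pi.sub_apply, d00_1, d01_1, b, map_add, AlgHom.commutes]
      rw [e2, map_sub] at e1
      linear_combination e1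
    · have := hker (Lv.ev M.τ v) (Or.inr (M.evV_over v))
      simp only [Lv.ev_apply] at this
      simp [b, hη0, this]
  refine ⟨b, fun y hy => ?_⟩
  rw [← map_sub, hb, hker y (Or.inl hy)]
  simp [h', hy]

theorem origin_of_over (hI : M.Integ) (v : M.V) (y : Pol (M.σ v) →ₐ[ℂ] ℂ)
    (hy : (y.comp (Lv.pr Unit v)).comp M.R.val = M.x0) : y = org _ := by
  refine MvPolynomial.algHom_ext fun i => ?_
  obtain ⟨N, η, hη, e⟩ := hI v i
  have h0 : ∀ j, y (η j v) = 0 := fun j => DFunLike.congr_fun hy (M.ofCoc (hη j))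
  have := congrArg y e
  simp only [map_pow, map_sum, map_mul, h0, zero_mul, Finset.sum_const_zero] at this
  rw [org_X]; exact pow_eq_zero_iff (by rintro rfl; simp at this) |>.mp this

theorem exact_zero (hI : M.Integ) {K : ℕ} (hK : M.SurjOrd K) (x : M.R →ₐ[ℂ] ℂ)
    (h : (M.B0 →ₐ[ℂ] ℂ) → ℂ)
    (hc : ∀ y : M.B1 →ₐ[ℂ] ℂ, y.comp M.s1 = x → h (y.comp M.d00) = h (y.comp M.d01)) :
    ∃ c : ℂ, ∀ y : M.B0 →ₐ[ℂ] ℂ, y.comp M.R.val = x → h y = c := by
  classical
  by_cases hx : x = M.x0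
  · subst hx
    refine ⟨h (Lv.ev M.σ ()), fun y hy => ?_⟩
    rcases Lv.point_cases y with ⟨v, y', rfl⟩ | ⟨j, rfl⟩
    · rw [origin_of_over hI v y' hy]
      exact hc (Lv.ev M.τ v) (M.evV_over v)
    · rfl
  obtain ⟨r0, hr0⟩ : ∃ r, x r ≠ M.x0 r := by
    by_contra hh; push Not at hh; exact hx (AlgHom.ext hh)
  let ρ : M.R := (x r0 - M.x0 r0)⁻¹ • (r0 - algebraMap ℂ _ (M.x0 r0))
  have hρx : x ρ = 1 := by
    simp only [ρ, map_smul, map_sub, AlgHom.commutes, Algebra.algebraMap_self, RingHom.id_apply,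
      smul_eq_mul]
    exact inv_mul_cancel₀ (sub_ne_zero.mpr hr0)
  have hρ0 : M.x0 ρ = 0 := by simp [ρ]
  have hsur : ∀ θ : M.B1, ∃ b : M.B0, M.d00 b - M.d01 b = M.s1 ρ ^ (K + 1) * θ := by
    intro θ
    obtain ⟨η, hη0, hη⟩ := hK.succ (fun e => (M.s1 ρ).1 e ^ (K + 1) * θ.1 e) (fun e =>
      Ideal.mul_mem_right _ _ (Ideal.pow_mem_pow (by
        have := DFunLike.congr_fun (M.oE_over e) ρ
        rw [hρ0] at this; exact this) _))
    refine ⟨(η, 0), Prod.ext (funext fun e => ?_) (funext fun v => ?_)⟩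
    · simpa using hη e
    · have := DFunLike.congr_fun (M.evV_over v) ρ
      rw [hρ0] at this
      have e2 : (M.s1 ρ).2 v = 0 := this
      simp [hη0, e2]
  obtain ⟨N, hN⟩ := exists_pow_le M.s1 (s1_finite hI) x
  obtain ⟨c, hcc⟩ := interp (finite_over _ (aug_finite hI) x) h (N + 1)
  have hδ : M.d00 c - M.d01 c ∈ Ideal.map M.s1 (RingHom.ker x) := by
    refine hN _ fun y hy => Ideal.pow_le_pow_right (Nat.le_succ N) ?_
    have h0 := map_mem_ker_pow M.d00 y (hcc (y.comp M.d00) hy)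
    have h1 := map_mem_ker_pow M.d01 y (hcc (y.comp M.d01) (by
      rw [← hy]; exact AlgHom.ext fun r => congrArg y (M.s1_eq r).symm))
    have := sub_mem h0 h1
    rw [hc y hy, map_sub, map_sub, AlgHom.commutes, AlgHom.commutes, sub_sub_sub_cancel_right] at this
    exact this
  have key : ∀ z ∈ Ideal.map M.s1 (RingHom.ker x), ∀ θ : M.B1, ∃ b : M.B0,
      (∀ y : M.B0 →ₐ[ℂ] ℂ, y.comp M.R.val = x → y b = 0) ∧
      M.d00 b - M.d01 b = M.s1 ρ ^ (K + 1) * (θ * z) := by
    intro z hz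
    induction hz using Submodule.span_induction with
    | mem z hz =>
      obtain ⟨r, hr, rfl⟩ := hz
      intro θ
      obtain ⟨b, hb⟩ := hsur θ
      refine ⟨r * b, fun y hy => ?_, ?_⟩
      · have : y r = 0 := by
          have := DFunLike.congr_fun hy r
          exact this.trans hr
        simp [this]
      · rw [map_mul, map_mul, ← M.s1_eq r]
        change M.s1 r * _ - _ = _
        rw [← mul_sub, hb]; ring
    | zero => intro θ; exact ⟨0, by simp, by simp⟩
    | add z w _ _ hz hw =>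
      intro θ
      obtain ⟨a, ha, ha'⟩ := hz θ
      obtain ⟨b, hb, hb'⟩ := hw θ
      refine ⟨a + b, fun y hy => by simp [ha y hy, hb y hy], ?_⟩
      rw [map_add, map_add]; linear_combination ha' + hb'
    | smul a z _ hz =>
      intro θ
      obtain ⟨b, hb, hb'⟩ := hz (θ * a)
      exact ⟨b, hb, by rw [hb', smul_eq_mul]; ring⟩
  obtain ⟨b, hb, hb'⟩ := key _ hδ 1
  have hr : (ρ : M.B0) ^ (K + 1) * c - b ∈ M.R := by
    change M.d00 _ = M.d01 _
    rw [map_sub, map_sub, map_mul, map_mul, map_pow, map_pow, ← M.s1_eq ρ]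
    change M.s1 ρ ^ (K + 1) * _ - _ = _
    linear_combination -hb'
  refine ⟨x ⟨_, hr⟩, fun y hy => ?_⟩
  have e1 : y ρ = 1 := (DFunLike.congr_fun hy ρ).trans hρx
  have e2 : y c = h y := by
    have := Ideal.pow_le_self (Nat.succ_ne_zero N) (hcc y hy)
    rwa [RingHom.mem_ker, map_sub, AlgHom.commutes, sub_eq_zero] at this
  rw [← hy]
  change h y = y ((ρ : M.B0) ^ (K + 1) * c - b)
  rw [map_sub, map_mul, map_pow, e1, e2, hb y hy]; simp

theorem descent (hI : M.Integ) {K : ℕ} (hK : M.SurjOrd K) : (res hI).Descent := by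
  obtain ⟨ρ, hρ⟩ := exists_retr
  intro x
  refine ⟨exists_over M.R.val (aug_finite hI) Subtype.val_injective x, ?_, ?_⟩
  · intro h hc
    obtain ⟨c, hc'⟩ := exact_zero hI hK x (fun y => (h y : ℂ)) (fun y hy => by
      have := hc y hy
      simp only [SemiSimplicial.cob, Fin.sum_univ_two] at this
      have e : h (y.comp M.d00) - h (y.comp M.d01) = 0 := by
        rw [← this]; simp [sub_eq_add_neg]; rfl
      exact congrArg _ (sub_eq_zero.mp e))
    exact ⟨ρ c, fun y hy => by rw [← hc' y hy, hρ]⟩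
  · intro k
    match k with
    | 0 =>
      intro h hc
      obtain ⟨b, hb⟩ := exact_one hI hK x (fun y => (h y : ℂ)) (fun hx e => by
        have := hc (Lv.ev (fun _ => Empty) e) (by rw [hx]; exact M.oE_over e)
        change ∑ i : Fin 3, (-1) ^ (i : ℕ) * h (M.tri i e) = 0 at this
        rw [Fin.sum_univ_three] at this
        have e : h (M.oE e) - h (Lv.ev M.τ (M.tgt e)) + h (Lv.ev M.τ (M.src e)) = 0 := by
          rw [← this]; simp [sub_eq_add_neg, tri]
        exact_mod_cast e)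
      refine ⟨fun y => ρ (y b), fun y hy => ?_⟩
      have := congrArg ρ (hb y hy)
      rw [hρ, map_sub] at this
      simp only [SemiSimplicial.cob, Fin.sum_univ_two]
      rw [this]; simp [sub_eq_add_neg]; rfl
    | 1 =>
      intro h _
      let b : M.B1 := (fun e => algebraMap ℂ _ (h (Lv.ev (fun _ => Empty) e) : ℂ), 0)
      refine ⟨fun y => ρ (y b), fun y _ => ?_⟩
      rcases Lv.point_cases (I := Empty) y with ⟨v, _⟩ | ⟨e, rfl⟩
      · exact v.elim
      · change _ = ∑ i : Fin 3, (-1) ^ (i : ℕ) * ρ (M.tri i e b)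
        rw [Fin.sum_univ_three]
        simp [b, hρ, tri]
    | k + 2 =>
      intro h _
      refine ⟨fun _ => 0, fun y _ => ?_⟩
      have : (1 : ℂ) = 0 := by
        rw [← map_one y, ← map_zero y]
        exact congrArg y (Subsingleton.elim (α := B3) _ _)
      exact absurd this one_ne_zero

end GModel

end Pool.Agent.P.MP_824f38_ag
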