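import Pool.Agent.P.MP_824f38_ag.Sum

/-! Monomial differential forms on affine space. -/

set_option linter.style.haveILetI false
set_option linter.unusedTactic false
set_option linter.unusedSimpArgs false
set_option linter.unusedSectionVars false

namespace Pool.Agent.P.MP_824f38_ag

open ExteriorAlgebra MvPolynomial

theorem dr_forms_induction {A : Type} [CommRing A] [Algebra ℂ A] {P : DR A → Prop}
    (h1 : ∀ p ω, ω ∈ Forms A p → P ω) (hadd : ∀ x y, P x → P y → P (x + y)) (ω : DR A) : P ω := by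
  induction ω using DirectSum.Decomposition.inductionOn
    (fun i : ℕ => ExteriorAlgebra.exteriorPower A i (KaehlerDifferential ℂ A)) with
  | zero => exact h1 0 0 (zero_mem _)
  | homogeneous m => exact h1 _ _ m.2
  | add x y hx hy => exact hadd _ _ hx hy

theorem dd_mul_mem {A : Type} [CommRing A] [Algebra ℂ A] {p : ℕ} (a : A) {ω : DR A}
    (hω : ω ∈ Forms A p) : dd a * ω ∈ Forms A (p + 1) := by
  refine forms_induction (P := fun ω => dd a * ω ∈ Forms A (p + 1)) (by simp) ?_ ?_ hω
  · intro b v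
    rw [mul_smul_comm, ← wd_cons]; exact Submodule.smul_mem _ _ (wd_mem _)
  · intro x y hx hy; rw [mul_add]; exact add_mem hx hy

variable {σ : Type}

/-- the form `dx_τ` -/
noncomputable def wx {p : ℕ} (τ : Fin p → σ) : DR (Pol σ) := wd (fun i => X (τ i))

theorem wx_mem {p : ℕ} (τ : Fin p → σ) : wx τ ∈ Forms (Pol σ) p := wd_mem _

theorem wx_not_inj {p : ℕ} {τ : Fin p → σ} (h : ¬ Function.Injective τ) : wx τ = 0 := by
  refine ιMulti_eq_zero_of_not_inj fun hi => h fun a b hab => hi ?_
  simp only [hab]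

theorem wx_zero (τ : Fin 0 → σ) : wx τ = 1 := wd_zero _

theorem wx_succ {p : ℕ} (τ : Fin (p + 1) → σ) : wx τ = dd (X (τ 0)) * wx (fun i => τ i.succ) :=
  wd_succ _

theorem wx_cons {p : ℕ} (j : σ) (τ : Fin p → σ) :
    wx (Fin.cons j τ : Fin (p + 1) → σ) = dd (X j) * wx τ := by
  rw [wx_succ]; simp

theorem mono_induction {p : ℕ} {P : DR (Pol σ) → Prop} (h0 : P 0)
    (h1 : ∀ (d : σ →₀ ℕ) (c : ℂ) (τ : Fin p → σ), Function.Injective τ →
      P ((monomial d c : Pol σ) • wx τ))
    (hadd : ∀ x y, P x → P y → P (x + y)) {ω : DR (Pol σ)} (hω : ω ∈ Forms (Pol σ) p) : P ω := by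
  have h := exteriorPower.ιMulti_span_fixedDegree_of_span_eq_top (Pol σ) p
    (KaehlerDifferential ℂ (Pol σ)) (KaehlerDifferential.mvPolynomialBasis ℂ σ).span_eq
  have hω' : ω ∈ Submodule.span (Pol σ) (ιMulti (Pol σ) p '' {a | Set.range a ⊆
      Set.range (KaehlerDifferential.mvPolynomialBasis ℂ σ)}) := by rw [h]; exact hω
  suffices ∀ a : Pol σ, P (a • ω) by simpa using this 1
  clear hω
  induction hω' using Submodule.span_induction with
  | mem x hx =>
    obtain ⟨w, hw, rfl⟩ := hx
    intro a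
    choose v hv using fun i => hw ⟨i, rfl⟩
    have : w = fun i => KaehlerDifferential.D ℂ (Pol σ) (X (v i)) := funext fun i => by
      rw [← hv i, KaehlerDifferential.mvPolynomialBasis_apply]
    rw [this]
    change P (a • wx v)
    by_cases hi : Function.Injective v
    · induction a using MvPolynomial.induction_on' with
      | monomial d c => exact h1 d c v hi
      | add a b ha hb => rw [add_smul]; exact hadd _ _ ha hb
    · rw [wx_not_inj hi, smul_zero]; exact h0
  | zero => intro a; simpa using h0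
  | add x y hx' hy' hx hy =>
    intro a; rw [smul_add]
    exact hadd _ _ (hx a) (hy a)
  | smul b x hx' hx => intro a; rw [smul_smul]; exact hx _

theorem forms_eq_zero [Fintype σ] {p : ℕ} (hp : Fintype.card σ < p) {ω : DR (Pol σ)}
    (hω : ω ∈ Forms (Pol σ) p) : ω = 0 := by
  refine mono_induction (P := fun ω => ω = 0) rfl ?_ ?_ hω
  · intro d c τ hτ
    have := Fintype.card_le_of_injective τ hτ
    simp at this; omega
  · intro x y hx hy; rw [hx, hy, add_zero]

theorem D_eq_sum [Fintype σ] (g : Pol σ) : KaehlerDifferential.D ℂ (Pol σ) g =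
    ∑ i, pderiv i g • KaehlerDifferential.D ℂ (Pol σ) (X i) := by
  conv_lhs => rw [← (KaehlerDifferential.mvPolynomialBasis ℂ σ).sum_repr
    (KaehlerDifferential.D ℂ (Pol σ) g)]
  simp

theorem dd_eq_sum [Fintype σ] (g : Pol σ) : dd g = ∑ i, pderiv i g • dd (X i : Pol σ) := by
  unfold dd
  rw [D_eq_sum, map_sum]
  simp

theorem pderiv_pderiv (i j : σ) (f : Pol σ) : pderiv i (pderiv j f) = pderiv j (pderiv i f) := by
  classical
  by_cases h : i = j
  · rw [h]
  ext m
  simp only [coeff_pderiv, Finsupp.add_apply, Finsupp.single_apply, h, Ne.symm h, if_false, add_zero]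
  rw [add_right_comm]; ring

theorem org_eq (f : Pol σ) : org σ f = coeff 0 f := by
  have : (org σ).toRingHom = constantCoeff := by
    refine MvPolynomial.ringHom_ext (fun c => ?_) (fun i => ?_)
    · simp [org]
    · simp [org]
  exact congrArg (fun φ : Pol σ →+* ℂ => φ f) this

theorem ker_induction {P : Pol σ → Prop} (h0 : P 0)
    (h1 : ∀ (d : σ →₀ ℕ) (c : ℂ), d ≠ 0 → P (monomial d c))
    (hadd : ∀ x y, P x → P y → P (x + y)) {f : Pol σ} (hf : org σ f = 0) : P f := by
  rw [f.as_sum]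
  refine Finset.sum_induction _ P hadd h0 fun d hd => h1 d _ ?_
  rintro rfl
  rw [org_eq] at hf
  exact (mem_support_iff.mp hd) hf

/-- a diagonal automorphism -/
noncomputable def diag (ζ : σ → ℂ) : Pol σ →ₐ[ℂ] Pol σ := aeval (fun j => ζ j • X j)

@[simp] theorem diag_X (ζ : σ → ℂ) (j : σ) : diag ζ (X j) = ζ j • X j := by simp [diag]

theorem diag_monomial [Fintype σ] (ζ : σ → ℂ) (d : σ →₀ ℕ) (c : ℂ) :
    diag ζ (monomial d c) = (∏ j, ζ j ^ d j) • monomial d c := by
  rw [monomial_eq, Finsupp.prod_fintype _ _ (by simp), map_mul, map_prod]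
  simp only [map_pow, diag_X, _root_.smul_pow, Finset.prod_smul, algHom_C, algebraMap_eq,
    mul_smul_comm]

theorem pull_diag_wx (ζ : σ → ℂ) {p : ℕ} (τ : Fin p → σ) :
    pull (diag ζ) (wx τ) = (∏ i, ζ (τ i)) • wx τ := by
  induction p with
  | zero => simp [wx_zero]
  | succ p ih =>
    rw [wx_succ, map_mul, pull_dd, ih, diag_X, dd_csmul, Fin.prod_univ_succ, smul_mul_smul_comm]

theorem pull_diag_mono [Fintype σ] (ζ : σ → ℂ) (d : σ →₀ ℕ) (c : ℂ) {p : ℕ} (τ : Fin p → σ) :
    pull (diag ζ) ((monomial d c : Pol σ) • wx τ) =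
      ((∏ j, ζ j ^ d j) * ∏ i, ζ (τ i)) • ((monomial d c : Pol σ) • wx τ) := by
  rw [pull_smul, diag_monomial, pull_diag_wx, smul_assoc, smul_comm (monomial d c : Pol σ),
    smul_smul]

/-- the coefficient of the volume form -/
noncomputable def top (e : ℕ) : DR (Pol (Fin e)) →ₗ[Pol (Fin e)] Pol (Fin e) :=
  liftAlternating (Pi.single (M := fun i => KaehlerDifferential ℂ (Pol (Fin e))
    [⋀^Fin i]→ₗ[Pol (Fin e)] Pol (Fin e)) e (KaehlerDifferential.mvPolynomialBasis ℂ (Fin e)).det)

theorem top_wx_perm {e : ℕ} (π : Equiv.Perm (Fin e)) :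
    top e (wx π) = C ((Equiv.Perm.sign π : ℤ) : ℂ) := by
  unfold top wx wd
  rw [liftAlternating_apply_ιMulti, Pi.single_eq_same]
  have : (fun i => KaehlerDifferential.D ℂ (Pol (Fin e)) (X (π i))) =
      (KaehlerDifferential.mvPolynomialBasis ℂ (Fin e)) ∘ π := by
    funext i; simp
  rw [this, AlternatingMap.map_perm, Module.Basis.det_self]
  simp [Units.smul_def]

theorem top_wx_id (e : ℕ) : top e (wx (fun i : Fin e => i)) = 1 := by
  have := top_wx_perm (1 : Equiv.Perm (Fin e))
  rw [Equiv.Perm.sign_one] at this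
  exact this.trans (by simp)

theorem top_wx {e p : ℕ} (τ : Fin p → Fin e) :
    ∃ c : ℂ, top e (wx τ) = C c ∧ (c ≠ 0 ↔ Function.Bijective τ) := by
  by_cases hb : Function.Bijective τ
  · have hp : p = e := by simpa using Fintype.card_of_bijective hb
    subst hp
    refine ⟨_, top_wx_perm (Equiv.ofBijective τ hb), ⟨fun _ => hb, fun _ => ?_⟩⟩
    exact Int.cast_ne_zero.mpr (Units.ne_zero _)
  · refine ⟨0, ?_, ⟨fun h => absurd rfl h, fun h => absurd h hb⟩⟩
    by_cases hp : p = e
    · subst hp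
      rw [wx_not_inj (fun hi => hb (Finite.injective_iff_bijective.mp hi))]; simp
    · unfold top wx wd
      rw [liftAlternating_apply_ιMulti, Pi.single_eq_of_ne hp]; simp

theorem exists_wx_ne_zero {n p : ℕ} (hp : p ≤ n) :
    ∃ ω ∈ Forms (Pol (Fin n)) p, ω ≠ 0 := by
  obtain ⟨k, rfl⟩ := Nat.exists_eq_add_of_le hp
  refine ⟨wx (fun i : Fin p => Fin.castAdd k i), wx_mem _, fun h => ?_⟩
  have h1 : wx (fun i : Fin p => Fin.castAdd k i) * wx (fun i : Fin k => Fin.natAdd p i) =
      wx (fun i : Fin (p + k) => i) := by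
    unfold wx wd
    rw [ιMulti_mul_ιMulti]
    congr 1
    funext i
    refine Fin.addCases (fun i => ?_) (fun i => ?_) i <;> simp
  have := top_wx_id (p + k)
  rw [← h1, h, zero_mul, map_zero] at this
  exact zero_ne_one this

end Pool.Agent.P.MP_824f38_ag
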