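import Pool.Agent.P.MP_824f38_ag.Zmodel

/-! Linear functionals on forms detecting nonzero classes. -/

set_option linter.style.haveILetI false
set_option linter.unusedTactic false
set_option linter.unusedSimpArgs false
set_option linter.unusedSectionVars false

namespace Pool.Agent.P.MP_824f38_ag

open ExteriorAlgebra MvPolynomial

variable {e : ℕ}

theorem top_csmul (c : ℂ) (ω : DR (Pol (Fin e))) : top e (c • ω) = c • top e ω := by
  rw [csmul_eq, LinearMap.map_smul, algebraMap_smul]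

theorem eq_of_mono {φ ψ : DR (Pol (Fin e)) →+ ℂ}
    (h : ∀ (p : ℕ) (d : Fin e →₀ ℕ) (c : ℂ) (τ : Fin p → Fin e),
      φ ((monomial d c : Pol (Fin e)) • wx τ) = ψ ((monomial d c : Pol (Fin e)) • wx τ))
    (ω : DR (Pol (Fin e))) : φ ω = ψ ω := by
  induction ω using dr_forms_induction with
  | h1 p ω hω =>
    refine mono_induction (P := fun ω => φ ω = ψ ω) (by simp) (fun d c τ _ => h p d c τ) ?_ hω
    intro x y hx hy; rw [map_add, map_add, hx, hy]
  | hadd x y hx hy => rw [map_add, map_add, hx, hy]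

/-- the functional `ω ↦ L (top ω)` -/
noncomputable def psi (L : Pol (Fin e) →ₗ[ℂ] ℂ) : DR (Pol (Fin e)) →ₗ[ℂ] ℂ where
  toFun ω := L (top e ω)
  map_add' x y := by simp
  map_smul' c x := by simp [top_csmul]

/-- the functional `ω ↦ L (top (d ω))` -/
noncomputable def phi (L : Pol (Fin e) →ₗ[ℂ] ℂ) : DR (Pol (Fin e)) →ₗ[ℂ] ℂ where
  toFun ω := ∑ j, L (pderiv j (top e (dd (X j) * ω)))
  map_add' x y := by simp [mul_add, Finset.sum_add_distrib]
  map_smul' c x := by simp [top_csmul, Finset.mul_sum]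

theorem psi_apply (L : Pol (Fin e) →ₗ[ℂ] ℂ) (ω : DR (Pol (Fin e))) : psi L ω = L (top e ω) := rfl

theorem phi_apply (L : Pol (Fin e) →ₗ[ℂ] ℂ) (ω : DR (Pol (Fin e))) :
    phi L ω = ∑ j, L (pderiv j (top e (dd (X j) * ω))) := rfl

theorem invariant_of {φ : DR (Pol (Fin e)) →ₗ[ℂ] ℂ} (ζ : Fin e → ℂ)
    (h : ∀ (p : ℕ) (d : Fin e →₀ ℕ) (c : ℂ) (τ : Fin p → Fin e),
      φ ((monomial d c : Pol (Fin e)) • wx τ) ≠ 0 → (∏ j, ζ j ^ d j) * ∏ i, ζ (τ i) = 1)
    (ω : DR (Pol (Fin e))) : φ (pull (diag ζ) ω) = φ ω := by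
  refine eq_of_mono (φ := φ.toAddMonoidHom.comp (pull (diag ζ)).toAddMonoidHom)
    (ψ := φ.toAddMonoidHom) (fun p d c τ => ?_) ω
  change φ (pull (diag ζ) _) = φ _
  rw [pull_diag_mono, LinearMap.map_smul]
  by_cases h0 : φ ((monomial d c : Pol (Fin e)) • wx τ) = 0
  · rw [h0, smul_zero]
  · rw [h p d c τ h0, one_smul]

theorem psi_invariant (L : Pol (Fin e) →ₗ[ℂ] ℂ) (ζ : Fin e → ℂ)
    (hL : ∀ d c, L (monomial d c) ≠ 0 → ∏ j, ζ j ^ (d j + 1) = 1) (ω : DR (Pol (Fin e))) :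
    psi L (pull (diag ζ) ω) = psi L ω := by
  refine invariant_of ζ (fun p d c τ h => ?_) ω
  obtain ⟨ε, h1, h2⟩ := top_wx τ
  rw [psi_apply, LinearMap.map_smul, h1, smul_eq_mul, mul_comm, C_mul_monomial] at h
  have hε : ε ≠ 0 := fun h0 => h (by simp [h0])
  rw [(h2.mp hε).prod_comp ζ, ← Finset.prod_mul_distrib, ← hL _ _ h]
  simp [pow_succ]

theorem phi_invariant (L : Pol (Fin e) →ₗ[ℂ] ℂ) (ζ : Fin e → ℂ)
    (hL : ∀ d c, L (monomial d c) ≠ 0 → ∏ j, ζ j ^ (d j + 1) = 1) (ω : DR (Pol (Fin e))) :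
    phi L (pull (diag ζ) ω) = phi L ω := by
  classical
  refine invariant_of ζ (fun p d c τ h => ?_) ω
  rw [phi_apply] at h
  obtain ⟨j, -, h⟩ := Finset.exists_ne_zero_of_sum_ne_zero h
  obtain ⟨ε, h1, h2⟩ := top_wx (Fin.cons j τ : Fin (p + 1) → Fin e)
  rw [mul_smul_comm, ← wx_cons, LinearMap.map_smul, h1, smul_eq_mul, mul_comm, C_mul_monomial,
    pderiv_monomial] at h
  have hε : ε ≠ 0 := fun h0 => h (by simp [h0])
  have hd : d j ≠ 0 := fun h0 => h (by simp [h0])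
  have e1 := (h2.mp hε).prod_comp ζ
  rw [Fin.prod_univ_succ] at e1
  simp only [Fin.cons_zero, Fin.cons_succ] at e1
  have e2 := hL _ _ h
  have e3 : ∏ i, ζ i ^ d i = (∏ i, ζ i ^ (d - Finsupp.single j 1 : Fin e →₀ ℕ) i) * ζ j := by
    conv_lhs => rw [← Finsupp.sub_add_single_one_cancel hd]
    simp only [Finsupp.add_apply, pow_add, Finset.prod_mul_distrib]
    congr 1
    rw [Finset.prod_eq_single j]
    · simp
    · intro i _ hi; simp [hi]
    · simp
  rw [e3, mul_assoc, e1, ← Finset.prod_mul_distrib, ← e2]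
  simp [pow_succ]

theorem phi_smul (L : Pol (Fin e) →ₗ[ℂ] ℂ) (J : Ideal (Pol (Fin e)))
    (hL : ∀ g ∈ J, ∀ j, L (pderiv j g) = 0) (g : Pol (Fin e)) (hg : g ∈ J)
    (ω : DR (Pol (Fin e))) : phi L (g • ω) = 0 := by
  rw [phi_apply]
  refine Finset.sum_eq_zero fun j _ => hL _ ?_ j
  rw [mul_smul_comm, LinearMap.map_smul, smul_eq_mul]
  exact J.mul_mem_right _ hg

theorem phi_dd (L : Pol (Fin e) →ₗ[ℂ] ℂ) (J : Ideal (Pol (Fin e)))
    (hL : ∀ g ∈ J, ∀ j, L (pderiv j g) = 0) (g : Pol (Fin e)) (hg : g ∈ J)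
    (ω : DR (Pol (Fin e))) : phi L (dd g * ω) = 0 := by
  refine eq_of_mono (φ := (phi L).toAddMonoidHom.comp (AddMonoidHom.mulLeft (dd g)))
    (ψ := 0) (fun p d c τ => ?_) ω
  change phi L (dd g * _) = 0
  generalize (monomial d c : Pol (Fin e)) = h
  have hε : ∀ j i, ∃ ε : ℂ, top e (dd (X j) * (dd (X i) * wx τ)) = C ε := by
    intro j i
    obtain ⟨ε, h1, -⟩ := top_wx (Fin.cons j (Fin.cons i τ : Fin (p + 1) → Fin e) :
      Fin (p + 2) → Fin e)
    exact ⟨ε, by rw [← wx_cons, ← wx_cons, h1]⟩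
  choose ε hε using hε
  have anti : ∀ j i, ε j i = - ε i j := by
    intro j i
    apply C_injective (Fin e) ℂ
    rw [map_neg, ← hε, ← hε, ← mul_assoc, dd_swap, neg_mul, map_neg, mul_assoc]
  have e1 : phi L (dd g * (h • wx τ)) = ∑ j, ∑ i, ε j i * L (pderiv j (pderiv i (h * g))) := by
    rw [phi_apply]
    refine Finset.sum_congr rfl fun j _ => ?_
    rw [dd_eq_sum g, Finset.sum_mul, Finset.mul_sum, map_sum, map_sum, map_sum]
    refine Finset.sum_congr rfl fun i _ => ?_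
    rw [smul_mul_smul_comm, mul_smul_comm, LinearMap.map_smul, hε, smul_eq_mul, mul_comm _ (C _),
      pderiv_C_mul, C_mul', LinearMap.map_smul, smul_eq_mul, pderiv_mul (f := h), map_add, map_add,
      hL _ (J.mul_mem_left _ hg), zero_add, mul_comm h]
  have e2 : ∑ j, ∑ i, ε j i * L (pderiv j (pderiv i (h * g))) =
      - ∑ j, ∑ i, ε j i * L (pderiv j (pderiv i (h * g))) := by
    conv_lhs => rw [Finset.sum_comm]
    rw [← Finset.sum_neg_distrib]
    refine Finset.sum_congr rfl fun j _ => ?_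
    rw [← Finset.sum_neg_distrib]
    refine Finset.sum_congr rfl fun i _ => ?_
    rw [anti, pderiv_pderiv, neg_mul]
  rw [e1]
  linear_combination e2 / 2

theorem psi_dd (L : Pol (Fin e) →ₗ[ℂ] ℂ) (g : Pol (Fin e))
    (hL : ∀ j h, L (pderiv j g * h) = 0) (ω : DR (Pol (Fin e))) : psi L (dd g * ω) = 0 := by
  rw [psi_apply, dd_eq_sum g, Finset.sum_mul, map_sum, map_sum]
  refine Finset.sum_eq_zero fun j _ => ?_
  rw [smul_mul_assoc, LinearMap.map_smul, smul_eq_mul, hL]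

theorem phi_ne_zero {p : ℕ} (L : Pol (Fin (p + 1)) →ₗ[ℂ] ℂ) (d : Fin (p + 1) →₀ ℕ)
    (h : L (monomial d 1) ≠ 0) :
    phi L ((monomial (d + Finsupp.single 0 1) 1 : Pol (Fin (p + 1))) • wx Fin.succ) ≠ 0 := by
  rw [phi_apply, Finset.sum_eq_single 0]
  · have : (Fin.cons 0 Fin.succ : Fin (p + 1) → Fin (p + 1)) = fun i => i := by
      funext i; refine Fin.cases rfl (fun i => rfl) i
    rw [mul_smul_comm, ← wx_cons, this, LinearMap.map_smul, top_wx_id, smul_eq_mul, mul_one,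
      pderiv_monomial, add_tsub_cancel_right, one_mul]
    have e1 : (monomial d (((d + Finsupp.single 0 1 : Fin (p + 1) →₀ ℕ) 0 : ℕ) : ℂ) :
        Pol (Fin (p + 1))) = (((d + Finsupp.single 0 1 : Fin (p + 1) →₀ ℕ) 0 : ℕ) : ℂ) •
          monomial d 1 := by
      rw [smul_monomial, smul_eq_mul, mul_one]
    rw [e1, LinearMap.map_smul, smul_eq_mul]
    refine mul_ne_zero (Nat.cast_ne_zero.mpr (by simp)) h
  · intro j _ hj
    rw [mul_smul_comm, ← wx_cons, wx_not_inj]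
    · simp
    · intro hi
      obtain ⟨k, rfl⟩ := Fin.exists_succ_eq.mpr hj
      exact Fin.succ_ne_zero k (hi (a₁ := k.succ) (a₂ := 0) rfl)
  · simp

end Pool.Agent.P.MP_824f38_ag
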