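import Pool.Agent.P.MP_824f38_ag.Points

/-! Finite disjoint unions of affine spaces and points. -/

set_option linter.style.haveILetI false
set_option linter.unusedTactic false
set_option linter.unusedSimpArgs false
set_option linter.unusedSectionVars false

namespace Pool.Agent.P.MP_824f38_ag

/-- polynomial rings -/
abbrev Pol (σ : Type) : Type := MvPolynomial σ ℂ

/-- the origin -/
noncomputable def org (σ : Type) : Pol σ →ₐ[ℂ] ℂ := MvPolynomial.aeval (fun _ => 0)

@[simp] theorem org_X {σ : Type} (i : σ) : org σ (MvPolynomial.X i) = 0 := by simp [org]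

/-- functions on a disjoint union of affine spaces and points -/
abbrev Lv (I : Type) (σ : I → Type) (J : Type) : Type := (∀ i, Pol (σ i)) × (J → ℂ)

namespace Lv

variable {I : Type} {σ : I → Type} {J : Type}

/-- projection to an affine space -/
noncomputable def pr (J : Type) (i : I) : Lv I σ J →ₐ[ℂ] Pol (σ i) :=
  (Pi.evalAlgHom ℂ (fun i => Pol (σ i)) i).comp (AlgHom.fst ℂ _ _)

/-- projection to a point -/
noncomputable def ev (σ : I → Type) (j : J) : Lv I σ J →ₐ[ℂ] ℂ :=
  (Pi.evalAlgHom ℂ (fun _ => ℂ) j).comp (AlgHom.snd ℂ _ _)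

@[simp] theorem pr_apply (i : I) (b : Lv I σ J) : pr J i b = b.1 i := rfl
@[simp] theorem ev_apply (j : J) (b : Lv I σ J) : ev σ j b = b.2 j := rfl

open Classical in
/-- the piece of an affine space -/
noncomputable def pI (J : Type) (i : I) : Piece (Lv I σ J) (Pol (σ i)) where
  π := pr J i
  sec := (LinearMap.inl ℂ _ _).comp (LinearMap.single ℂ (fun i => Pol (σ i)) i)
  π_sec a := by simp
  sec_π b := by
    ext j : 2
    · by_cases h : j = i
      · subst h; simp
      · simp [h]
    · simp

open Classical in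
/-- the piece of a point -/
noncomputable def pJ (σ : I → Type) (j : J) : Piece (Lv I σ J) ℂ where
  π := ev σ j
  sec := (LinearMap.inr ℂ _ _).comp (LinearMap.single ℂ (fun _ => ℂ) j)
  π_sec a := by simp
  sec_π b := by
    ext k : 2
    · simp
    · by_cases h : k = j
      · subst h; simp
      · simp [h]

variable [Fintype I] [Fintype J]

theorem sum_sec (b : Lv I σ J) :
    ∑ i, (pI J i).sec (b.1 i) + ∑ j, (pJ σ j).sec (b.2 j) = b := by
  classical
  ext k : 2
  · simp [pI, pJ, Prod.fst_sum, Finset.sum_apply, Pi.single_apply]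
  · simp [pI, pJ, Prod.snd_sum, Finset.sum_apply, Pi.single_apply]

theorem sum_one : ∑ i, (pI (σ := σ) J i).sec 1 + ∑ j, (pJ σ j).sec 1 = 1 := sum_sec 1

theorem forms_ext {p : ℕ} {ω : DR (Lv I σ J)} (hω : ω ∈ Forms (Lv I σ J) (p + 1))
    (h : ∀ i, pull (pr J i) ω = 0) : ω = 0 := by
  rw [← one_smul (Lv I σ J) ω, ← sum_one, add_smul, Finset.sum_smul, Finset.sum_smul,
    Finset.sum_eq_zero, Finset.sum_eq_zero, add_zero]
  · intro j _
    exact (pJ σ j).smul_eq_zero_of_pull (forms_complex (pull_mem _ hω))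
  · intro i _
    exact (pI J i).smul_eq_zero_of_pull (h i)

theorem forms_lift {p : ℕ} (θ : ∀ i, DR (Pol (σ i))) (hθ : ∀ i, θ i ∈ Forms (Pol (σ i)) p) :
    ∃ ω ∈ Forms (Lv I σ J) p, ∀ i, pull (pr J i) ω = θ i := by
  classical
  choose w hw hw' using fun i => (pI J i).exists_lift (hθ i)
  refine ⟨∑ i, (pI J i).sec 1 • w i, Submodule.sum_mem _ fun i _ => Submodule.smul_mem _ _ (hw i),
    fun i => ?_⟩
  rw [map_sum, Finset.sum_eq_single i]
  · rw [pull_smul]
    have : pr J i ((pI (σ := σ) J i).sec 1) = 1 := (pI J i).π_sec 1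
    rw [this, one_smul]; exact hw' i
  · intro j _ hj
    rw [pull_smul]
    have : pr J i ((pI (σ := σ) J j).sec 1) = 0 := by simp [pI, hj.symm]
    rw [this, zero_smul]
  · simp

theorem point_cases (y : Lv I σ J →ₐ[ℂ] ℂ) :
    (∃ i, ∃ y' : Pol (σ i) →ₐ[ℂ] ℂ, y = y'.comp (pr J i)) ∨ ∃ j, y = ev σ j := by
  by_contra hc
  push Not at hc
  have h1 : ∀ i, y ((pI J i).sec 1) = 0 := by
    intro i; by_contra h
    obtain ⟨y', hy⟩ := (pI J i).point_factor y h
    exact hc.1 i y' hy
  have h2 : ∀ j, y ((pJ σ j).sec 1) = 0 := by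
    intro j; by_contra h
    obtain ⟨y', hy⟩ := (pJ σ j).point_factor y h
    refine hc.2 j ?_
    rw [hy, Subsingleton.elim y' (AlgHom.id ℂ ℂ)]; rfl
  have := congrArg y (sum_one (σ := σ) (J := J))
  simp [map_sum, h1, h2] at this

variable [∀ i, Fintype (σ i)]

instance finiteType : Algebra.FiniteType ℂ (Lv I σ J) := inferInstance

theorem smooth : Algebra.Smooth ℂ (Lv I σ J) := by
  classical
  have hf : Algebra.FormallySmooth ℂ (Lv I σ J) := by
    let τ : I ⊕ J → Type := fun c => match c with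
      | Sum.inl i => σ i
      | Sum.inr _ => Empty
    let g : ∀ c, Lv I σ J →ₐ[ℂ] Pol (τ c) := fun c => match c with
      | Sum.inl i => pr J i
      | Sum.inr j => (Algebra.ofId ℂ (Pol Empty)).comp (ev σ j)
    refine Algebra.FormallySmooth.of_equiv
      (AlgEquiv.ofBijective (AlgHom.pi g) ⟨?_, ?_⟩).symm
    · intro a b hab
      ext k : 2
      · exact congrFun hab (Sum.inl k)
      · exact (algebraMap ℂ (Pol Empty)).injective (congrFun hab (Sum.inr k))
    · intro f
      refine ⟨(fun i => f (Sum.inl i), fun j => org Empty (f (Sum.inr j))), ?_⟩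
      funext c
      rcases c with i | j
      · rfl
      · change algebraMap ℂ (Pol Empty) (org Empty (f (Sum.inr j))) = f (Sum.inr j)
        obtain ⟨c, hc⟩ := MvPolynomial.C_surjective Empty (f (Sum.inr j) : Pol Empty)
        rw [← hc]; simp [org]
  exact ⟨hf, Algebra.FinitePresentation.of_finiteType.mp inferInstance⟩

theorem finite_of {R : Type} [CommRing R] [Algebra ℂ R] (φ : R →ₐ[ℂ] Lv I σ J)
    (h : ∀ i, ((pr J i).comp φ).toRingHom.IsIntegral) : φ.Finite := by
  refine RingHom.Finite.of_isIntegral_of_finiteType ?_ ?_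
  · intro b
    letI : Algebra R (Lv I σ J) := φ.toRingHom.toAlgebra
    change IsIntegral R b
    rw [← sum_sec b]
    refine IsIntegral.add (IsIntegral.sum _ fun i _ => ?_) (IsIntegral.sum _ fun j _ => ?_)
    · exact (pI J i).isIntegral_sec φ _ (h i _)
    · refine (pJ σ j).isIntegral_sec φ _ ?_
      exact RingHom.isIntegral_of_surjective _ (fun c => ⟨algebraMap ℂ R c, by simp⟩) _
  · exact AlgHom.FiniteType.of_comp_finiteType (f := Algebra.ofId ℂ R) (by
      rw [Subsingleton.elim (φ.comp _) (Algebra.ofId ℂ _)]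
      exact RingHom.finiteType_algebraMap.mpr inferInstance)

end Lv

end Pool.Agent.P.MP_824f38_ag
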