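import Pool.Agent.P.MP_824f38_ag.Level

/-! Graphs of affine spaces and the semi-simplicial schemes they define. -/

set_option linter.style.haveILetI false
set_option linter.unusedTactic false
set_option linter.unusedSimpArgs false
set_option linter.unusedSectionVars false

namespace Pool.Agent.P.MP_824f38_ag

/-- A finite graph whose vertices and edges carry affine spaces, each edge space being embedded,
origin to origin, in the spaces of its two ends. -/
structure GModel where
  /-- vertices -/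
  V : Type
  /-- edges -/
  E : Type
  [fV : Fintype V]
  [fE : Fintype E]
  /-- variables at vertices -/
  σ : V → Type
  /-- variables at edges -/
  τ : E → Type
  [fσ : ∀ v, Fintype (σ v)]
  [fτ : ∀ e, Fintype (τ e)]
  /-- source -/
  src : E → V
  /-- target -/
  tgt : E → V
  /-- restriction from the source -/
  s : ∀ e, Pol (σ (src e)) →ₐ[ℂ] Pol (τ e)
  /-- restriction from the target -/
  t : ∀ e, Pol (σ (tgt e)) →ₐ[ℂ] Pol (τ e)
  s_surj : ∀ e, Function.Surjective (s e)
  t_surj : ∀ e, Function.Surjective (t e)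
  s_org : ∀ e f, org _ (s e f) = org _ f
  t_org : ∀ e f, org _ (t e f) = org _ f

attribute [instance] GModel.fV GModel.fE GModel.fσ GModel.fτ

namespace GModel

variable (M : GModel)

/-- compatible families vanishing at the origins -/
def Coc (η : ∀ v, Pol (M.σ v)) : Prop :=
  (∀ e, M.t e (η (M.tgt e)) = M.s e (η (M.src e))) ∧ ∀ v, org _ (η v) = 0

/-- the variables are integral, with coefficients vanishing at the origin -/
def Integ : Prop :=
  ∀ v (i : M.σ v), ∃ (N : ℕ) (η : Fin N → ∀ v, Pol (M.σ v)), (∀ j, M.Coc (η j)) ∧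
    MvPolynomial.X i ^ N = ∑ j : Fin N, η j v * MvPolynomial.X i ^ (j : ℕ)

/-- functions vanishing to order `K` are coboundaries -/
def SurjOrd (K : ℕ) : Prop :=
  ∀ θ : ∀ e, Pol (M.τ e), (∀ e, θ e ∈ RingHom.ker (org (M.τ e)) ^ K) →
    ∃ η : ∀ v, Pol (M.σ v), (∀ v, org _ (η v) = 0) ∧
      ∀ e, M.t e (η (M.tgt e)) - M.s e (η (M.src e)) = θ e

/-- `p`-forms are coboundaries -/
def SurjF (p : ℕ) : Prop :=
  ∀ θ : ∀ e, DR (Pol (M.τ e)), (∀ e, θ e ∈ Forms _ p) →
    ∃ η : ∀ v, DR (Pol (M.σ v)), (∀ v, η v ∈ Forms _ p) ∧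
      ∀ e, pull (M.t e) (η (M.tgt e)) - pull (M.s e) (η (M.src e)) = θ e

/-- vanishing of the first cohomology of `p`-forms -/
def Surj : ℕ → Prop
  | 0 => M.SurjOrd 1
  | p + 1 => M.SurjF (p + 1)

/-- level zero -/
abbrev B0 : Type := Lv M.V M.σ Unit
/-- level one -/
abbrev B1 : Type := Lv M.E M.τ M.V
/-- level two -/
abbrev B2 : Type := Lv Empty (fun _ => Empty) M.E
/-- higher levels -/
abbrev B3 : Type := Lv Empty (fun _ => Empty) Empty

/-- the target face -/
noncomputable def d00 : M.B0 →ₐ[ℂ] M.B1 :=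
  AlgHom.prod (AlgHom.pi fun e => (M.t e).comp (Lv.pr Unit (M.tgt e)))
    (AlgHom.pi fun v => (org _).comp (Lv.pr Unit v))

/-- the source face -/
noncomputable def d01 : M.B0 →ₐ[ℂ] M.B1 :=
  AlgHom.prod (AlgHom.pi fun e => (M.s e).comp (Lv.pr Unit (M.src e)))
    (AlgHom.pi fun _ => Lv.ev M.σ ())

/-- faces of the triangles -/
noncomputable def d1 (g : M.E → (M.B1 →ₐ[ℂ] ℂ)) : M.B1 →ₐ[ℂ] M.B2 :=
  AlgHom.prod (AlgHom.pi fun e => e.elim) (AlgHom.pi g)

/-- the origin of an edge -/
noncomputable def oE (e : M.E) : M.B1 →ₐ[ℂ] ℂ := (org _).comp (Lv.pr M.V e)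

/-- the three faces of a triangle -/
noncomputable def tri : Fin 3 → M.E → (M.B1 →ₐ[ℂ] ℂ) :=
  ![M.oE, fun e => Lv.ev M.τ (M.tgt e), fun e => Lv.ev M.τ (M.src e)]

/-- map to the zero ring -/
noncomputable def toZero (A : Type) [CommRing A] [Algebra ℂ A] : A →ₐ[ℂ] B3 :=
  AlgHom.prod (AlgHom.pi fun e => e.elim) (AlgHom.pi fun e => e.elim)

instance : Subsingleton B3 := ⟨fun _ _ => Prod.ext (funext fun e => e.elim) (funext fun e => e.elim)⟩

@[simp] theorem d00_1 (b : M.B0) (e : M.E) : (M.d00 b).1 e = M.t e (b.1 (M.tgt e)) := rfl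
@[simp] theorem d00_2 (b : M.B0) (v : M.V) : (M.d00 b).2 v = org _ (b.1 v) := rfl
@[simp] theorem d01_1 (b : M.B0) (e : M.E) : (M.d01 b).1 e = M.s e (b.1 (M.src e)) := rfl
@[simp] theorem d01_2 (b : M.B0) (v : M.V) : (M.d01 b).2 v = b.2 () := rfl
@[simp] theorem d1_2 (g : M.E → (M.B1 →ₐ[ℂ] ℂ)) (b : M.B1) (e : M.E) : (M.d1 g b).2 e = g e b := rfl
@[simp] theorem oE_apply (b : M.B1) (e : M.E) : M.oE e b = org _ (b.1 e) := rfl

theorem B2_ext {a b : M.B2} (h : ∀ e, a.2 e = b.2 e) : a = b :=
  Prod.ext (funext fun e => e.elim) (funext h)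

/-- the ring of the glued variety -/
noncomputable def R : Subalgebra ℂ M.B0 := AlgHom.equalizer M.d00 M.d01

theorem mem_R {b : M.B0} : b ∈ M.R ↔
    (∀ e, M.t e (b.1 (M.tgt e)) = M.s e (b.1 (M.src e))) ∧ ∀ v, org _ (b.1 v) = b.2 () := by
  change M.d00 b = M.d01 b ↔ _
  constructor
  · intro h
    exact ⟨fun e => congrFun (congrArg Prod.fst h) e, fun v => congrFun (congrArg Prod.snd h) v⟩
  · intro h
    exact Prod.ext (funext h.1) (funext h.2)

/-- a cocycle as an element of the ring -/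
def ofCoc {η : ∀ v, Pol (M.σ v)} (h : M.Coc η) : M.R := ⟨(η, 0), M.mem_R.mpr ⟨h.1, h.2⟩⟩

variable {M}

theorem aug_finite (h : M.Integ) : M.R.val.Finite := by
  refine Lv.finite_of _ fun v => ?_
  letI : Algebra M.R (Pol (M.σ v)) := ((Lv.pr Unit v).comp M.R.val).toRingHom.toAlgebra
  intro f
  change IsIntegral M.R f
  induction f using MvPolynomial.induction_on with
  | C a =>
    have e : algebraMap M.R (Pol (M.σ v)) (algebraMap ℂ M.R a) = MvPolynomial.C a :=
      ((Lv.pr Unit v).comp M.R.val).commutes a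
    rw [← e]; exact isIntegral_algebraMap
  | add p q hp hq => exact hp.add hq
  | mul_X p i hp =>
    refine hp.mul ?_
    obtain ⟨N, η, hη, e⟩ := h v i
    refine ⟨Polynomial.X ^ N - ∑ j : Fin N, Polynomial.C (M.ofCoc (hη j)) * Polynomial.X ^ (j : ℕ),
      ?_, ?_⟩
    · exact Polynomial.monic_X_pow_sub (Polynomial.degree_sum_fin_lt _)
    · simp only [Polynomial.eval₂_sub, Polynomial.eval₂_pow, Polynomial.eval₂_X,
        Polynomial.eval₂_finsetSum, Polynomial.eval₂_mul, Polynomial.eval₂_C]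
      rw [e]; exact sub_self _

theorem d00_finite : M.d00.Finite :=
  Lv.finite_of _ fun e => RingHom.isIntegral_of_surjective _ fun f => by
    obtain ⟨g, rfl⟩ := M.t_surj e f
    exact ⟨(Lv.pI Unit (M.tgt e)).sec g, congrArg (M.t e) ((Lv.pI Unit (M.tgt e)).π_sec g)⟩

theorem d01_finite : M.d01.Finite :=
  Lv.finite_of _ fun e => RingHom.isIntegral_of_surjective _ fun f => by
    obtain ⟨g, rfl⟩ := M.s_surj e f
    exact ⟨(Lv.pI Unit (M.src e)).sec g, congrArg (M.s e) ((Lv.pI Unit (M.src e)).π_sec g)⟩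

variable (M)

/-- the levels -/
def lev : ℕ → Type
  | 0 => M.B0
  | 1 => M.B1
  | 2 => M.B2
  | _ + 3 => B3

/-- ring structures -/
@[reducible] noncomputable def levRing : ∀ k, CommRing (M.lev k)
  | 0 => inferInstanceAs (CommRing M.B0)
  | 1 => inferInstanceAs (CommRing M.B1)
  | 2 => inferInstanceAs (CommRing M.B2)
  | _ + 3 => inferInstanceAs (CommRing B3)

attribute [local instance] levRing

/-- algebra structures -/
@[reducible] noncomputable def levAlg : ∀ k, Algebra ℂ (M.lev k)
  | 0 => inferInstanceAs (Algebra ℂ M.B0)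
  | 1 => inferInstanceAs (Algebra ℂ M.B1)
  | 2 => inferInstanceAs (Algebra ℂ M.B2)
  | _ + 3 => inferInstanceAs (Algebra ℂ B3)

attribute [local instance] levAlg

/-- face maps -/
noncomputable def levD : ∀ k, Fin (k + 2) → (M.lev k →ₐ[ℂ] M.lev (k + 1))
  | 0 => ![M.d00, M.d01]
  | 1 => fun i => M.d1 (M.tri i)
  | k + 2 => fun _ => toZero (M.lev (k + 2))

variable {M}

/-- the semi-simplicial scheme -/
noncomputable def res (h : M.Integ) : SemiSimplicial M.R where
  B := M.lev
  ring := M.levRing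
  alg := M.levAlg
  smooth := fun k => match k with
    | 0 => Lv.smooth
    | 1 => Lv.smooth
    | 2 => Lv.smooth
    | _ + 3 => Lv.smooth
  aug := M.R.val
  d := M.levD
  aug_finite := aug_finite h
  d_finite := fun k => match k with
    | 0 => fun i => by
        fin_cases i
        · exact d00_finite
        · exact d01_finite
    | 1 => fun i => Lv.finite_of (I := Empty) _ fun e => e.elim
    | k + 2 => fun i => Lv.finite_of (I := Empty) _ fun e => e.elim
  d_aug := AlgHom.ext fun r => r.2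
  d_d := fun k => match k with
    | 0 => fun i j hij => by
        refine AlgHom.ext fun b => M.B2_ext fun e => ?_
        fin_cases i <;> fin_cases j
        · exact (M.t_org e _).symm
        · exact (M.s_org e _).symm
        · exact absurd hij (by decide)
        · rfl
    | k + 1 => fun i j _ => AlgHom.ext fun b => Subsingleton.elim (α := B3) _ _

end GModel

end Pool.Agent.P.MP_824f38_ag
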