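import Pool.Agent.P.MP_824f38_ag.Surface

/-! Making all components of the same dimension, and assembling the models. -/

set_option linter.style.haveILetI false
set_option linter.unusedTactic false
set_option linter.unusedSimpArgs false
set_option linter.unusedSectionVars false

namespace Pool.Agent.P.MP_824f38_ag

open MvPolynomial

/-- restriction to a coordinate subspace -/
noncomputable def kill (σ κ : Type) : Pol (σ ⊕ κ) →ₐ[ℂ] Pol σ := aeval (Sum.elim X fun _ => 0)

/-- extension from a coordinate subspace -/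
noncomputable def ext (σ κ : Type) : Pol σ →ₐ[ℂ] Pol (σ ⊕ κ) := rename Sum.inl

variable {σ κ : Type}

@[simp] theorem kill_inl (j : σ) : kill σ κ (X (Sum.inl j)) = X j := by simp [kill]
@[simp] theorem kill_inr (j : κ) : kill σ κ (X (Sum.inr j)) = 0 := by simp [kill]
@[simp] theorem ext_X (j : σ) : ext σ κ (X j) = X (Sum.inl j) := by simp [ext]

theorem kill_comp_ext : (kill σ κ).comp (ext σ κ) = AlgHom.id ℂ _ :=
  MvPolynomial.algHom_ext fun j => by simp

@[simp] theorem kill_ext (f : Pol σ) : kill σ κ (ext σ κ f) = f :=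
  congrArg (fun φ : Pol σ →ₐ[ℂ] Pol σ => φ f) kill_comp_ext

@[simp] theorem pull_kill_ext (ω : DR (Pol σ)) : pull (kill σ κ) (pull (ext σ κ) ω) = ω := by
  rw [pull_pull, kill_comp_ext, pull_id]

theorem kill_org (f : Pol (σ ⊕ κ)) : org _ (kill σ κ f) = org _ f := by
  have : (org σ).comp (kill σ κ) = org _ := MvPolynomial.algHom_ext fun o => by
    cases o <;> simp
  exact congrArg (fun φ : Pol (σ ⊕ κ) →ₐ[ℂ] ℂ => φ f) this

theorem ext_org (f : Pol σ) : org _ (ext σ κ f) = org _ f := by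
  rw [← kill_org, kill_ext]

namespace GModel

/-- adding variables at the vertices -/
noncomputable def pad (M : GModel) (n : ℕ) : GModel where
  V := M.V
  E := M.E
  σ v := M.σ v ⊕ Fin (n - Fintype.card (M.σ v))
  τ := M.τ
  src := M.src
  tgt := M.tgt
  s e := (M.s e).comp (kill _ _)
  t e := (M.t e).comp (kill _ _)
  s_surj e := (M.s_surj e).comp fun f => ⟨_, kill_ext f⟩
  t_surj e := (M.t_surj e).comp fun f => ⟨_, kill_ext f⟩
  s_org e f := (M.s_org e _).trans (kill_org f)
  t_org e f := (M.t_org e _).trans (kill_org f)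

variable {M : GModel} {n : ℕ}

theorem pad_integ (h : M.Integ) : (M.pad n).Integ := by
  classical
  rintro v (i | i)
  · obtain ⟨N, η, hη, e⟩ := h v i
    refine ⟨N, fun j w => ext _ _ (η j w), fun j => ⟨fun e => ?_, fun w => ?_⟩, ?_⟩
    · change M.t e (kill _ _ (ext _ _ _)) = M.s e (kill _ _ (ext _ _ _))
      rw [kill_ext, kill_ext]; exact (hη j).1 e
    · exact (ext_org _).trans ((hη j).2 w)
    · have := congrArg (ext (M.σ v) (Fin (n - Fintype.card (M.σ v)))) e
      simp only [map_pow, map_sum, map_mul, ext_X] at this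
      exact this
  · have key : ∀ w : M.V, kill _ _ ((Pi.single v (X (Sum.inr i)) :
        ∀ w, Pol (M.σ w ⊕ Fin (n - Fintype.card (M.σ w)))) w) = 0 := by
      intro w
      by_cases hw : w = v
      · subst hw; simp
      · simp [hw]
    refine integ_of_pow (M := M.pad n) v (Sum.inr i) 1 one_pos (Pi.single v (X (Sum.inr i)) :
        ∀ w, Pol (M.σ w ⊕ Fin (n - Fintype.card (M.σ w)))) ⟨fun e => ?_, fun w => ?_⟩ ?_
    · exact ((congrArg (M.t e) (key (M.tgt e))).trans (map_zero _)).trans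
        ((congrArg (M.s e) (key (M.src e))).trans (map_zero _)).symm
    · exact (kill_org _).symm.trans ((congrArg (org _) (key w)).trans (map_zero _))
    · exact (Pi.single_eq_same _ _).trans (pow_one _).symm

theorem pad_surjOrd (K : ℕ) : (M.pad n).SurjOrd K ↔ M.SurjOrd K := by
  constructor
  · intro h θ hθ
    obtain ⟨η, h0, hη⟩ := h θ hθ
    exact ⟨fun v => kill _ _ (η v), fun v => (kill_org _).trans (h0 v), hη⟩
  · intro h θ hθ
    obtain ⟨η, h0, hη⟩ := h θ hθ
    refine ⟨fun v => ext _ _ (η v), fun v => (ext_org _).trans (h0 v), fun e => ?_⟩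
    change M.t e (kill _ _ (ext _ _ _)) - M.s e (kill _ _ (ext _ _ _)) = _
    rw [kill_ext, kill_ext]; exact hη e

theorem pad_surjF (p : ℕ) : (M.pad n).SurjF p ↔ M.SurjF p := by
  constructor
  · intro h θ hθ
    obtain ⟨η, h0, hη⟩ := h θ hθ
    refine ⟨fun v => pull (kill _ _) (η v), fun v => pull_mem _ (h0 v), fun e => ?_⟩
    rw [pull_pull, pull_pull]; exact hη e
  · intro h θ hθ
    obtain ⟨η, h0, hη⟩ := h θ hθ
    refine ⟨fun v => pull (ext _ _) (η v), fun v => pull_mem _ (h0 v), fun e => ?_⟩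
    change pull ((M.t e).comp (kill _ _)) (pull (ext _ _) _) -
      pull ((M.s e).comp (kill _ _)) (pull (ext _ _) _) = _
    rw [← pull_pull, ← pull_pull, pull_kill_ext, pull_kill_ext]; exact hη e

theorem pad_surj (p : ℕ) : (M.pad n).Surj p ↔ M.Surj p := by
  cases p with
  | zero => exact pad_surjOrd 1
  | succ p => exact pad_surjF (p + 1)

theorem pad_card (v : M.V) (h : Fintype.card (M.σ v) ≤ n) : Fintype.card ((M.pad n).σ v) = n := by
  change Fintype.card (M.σ v ⊕ Fin (n - Fintype.card (M.σ v))) = n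
  rw [Fintype.card_sum, Fintype.card_fin]; omega

theorem pure_dim (hI : M.Integ) (v0 : M.V) (hn : ∀ v, Fintype.card (M.σ v) = n)
    (P : Ideal M.R) (hP : P ∈ minimalPrimes M.R) : ringKrullDim (M.R ⧸ P) = n := by
  classical
  refine le_antisymm ((ringKrullDim_quotient_le P).trans (dim_le hI n fun v => (hn v).le)) ?_
  let π : ∀ v, M.R →ₐ[ℂ] Pol (M.σ v) := fun v => (Lv.pr Unit v).comp M.R.val
  haveI := hP.1.1
  have h1 : Finset.univ.inf (fun v => RingHom.ker (π v)) ≤ P := by
    intro r hr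
    have hr' : ∀ v, (r : M.B0).1 v = 0 := fun v =>
      (Finset.inf_le (f := fun v => RingHom.ker (π v)) (Finset.mem_univ v)) hr
    have : r = 0 := by
      refine Subtype.ext (Prod.ext (funext hr') (funext fun u => ?_))
      have := (M.mem_R.mp r.2).2 v0
      rw [hr', map_zero] at this
      exact this.symm
    rw [this]; exact zero_mem _
  obtain ⟨v, -, hv⟩ := (Ideal.IsPrime.inf_le' hP.1.1).mp h1
  have hk : P ≤ RingHom.ker (π v) := hP.2 ⟨RingHom.ker_isPrime _, bot_le⟩ hv
  let φ : (M.R ⧸ P) →+* Pol (M.σ v) := Ideal.Quotient.lift P (π v).toRingHom fun a ha => hk ha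
  have hint : RingHom.IsIntegral (R := M.R ⧸ P) (A := Pol (M.σ v)) φ := by
    refine RingHom.IsIntegral.tower_top (R := M.R) (S := M.R ⧸ P) (T := Pol (M.σ v))
      (Ideal.Quotient.mk P) φ ?_
    have e1 : φ.comp (Ideal.Quotient.mk P) =
        (Lv.pr Unit v).toRingHom.comp M.R.val.toRingHom := RingHom.ext fun _ => rfl
    rw [e1]
    exact RingHom.IsIntegral.trans _ _ (aug_finite hI).to_isIntegral
      (RingHom.isIntegral_of_surjective _ fun f => ⟨_, (Lv.pI Unit v).π_sec f⟩)
  have h2 : ringKrullDim (Pol (M.σ v)) ≤ ringKrullDim (M.R ⧸ P) := by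
    letI : Algebra (M.R ⧸ P) (Pol (M.σ v)) := φ.toAlgebra
    haveI : Algebra.IsIntegral (M.R ⧸ P) (Pol (M.σ v)) := ⟨hint⟩
    refine Order.krullDim_le_of_strictMono
      (fun I : PrimeSpectrum (Pol (M.σ v)) => PrimeSpectrum.comap (algebraMap (M.R ⧸ P) _) I) ?_
    intro I J hIJ
    exact Ideal.IsIntegral.comap_lt_comap (R := M.R ⧸ P) (I := I.asIdeal) (J := J.asIdeal) hIJ
  refine le_trans ?_ h2
  rw [MvPolynomial.ringKrullDim_of_isNoetherianRing, ringKrullDim_eq_zero_of_field, zero_add]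
  simp [hn v]

end GModel

theorem exists_piece (n : ℕ) (S : ℕ → Prop) (h1 : ∀ p, S p → p + 1 ≤ n)
    (h2 : ∀ p, S p → p + 1 = n → ∃ p', p' + 1 = p ∧ S p') (p : ℕ) :
    ∃ M : GModel, M.Integ ∧ (∃ K, M.SurjOrd K) ∧ (∀ v, Fintype.card (M.σ v) ≤ n) ∧
      (∀ q, ¬ M.Surj q → S q) ∧ (S p → ¬ M.Surj p) := by
  by_cases hp : S p
  · rcases (h1 p hp).eq_or_lt with h | h
    · obtain ⟨e, rfl, he⟩ := h2 p hp h
      obtain ⟨M, a, b, c, d⟩ := pair_atom e
      refine ⟨M, a, b, fun v => (c v).trans (by omega), fun q hq => ?_,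
        fun _ => (d _).mpr (Or.inr rfl)⟩
      rcases (d q).mp hq with rfl | rfl
      exacts [he, hp]
    · obtain ⟨M, a, b, c, d⟩ : ∃ M : GModel, M.Good (p + 2) (fun q => q = p) := by
        rcases Nat.eq_zero_or_pos p with rfl | h0
        · exact zero_atom
        · exact single_atom p h0
      exact ⟨M, a, b, fun v => (c v).trans (by omega), fun q hq => (d q).mp hq ▸ hp,
        fun _ => (d _).mpr rfl⟩
  · exact ⟨GModel.aff n, GModel.aff_integ n, ⟨0, GModel.aff_surjOrd n 0⟩,
      fun _ => (Fintype.card_fin n).le, fun q hq => absurd (GModel.aff_surj n q) hq,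
      fun h => absurd h hp⟩

theorem exists_model (n : ℕ) (S : ℕ → Prop) (h1 : ∀ p, S p → p + 1 ≤ n)
    (h2 : ∀ p, S p → p + 1 = n → ∃ p', p' + 1 = p ∧ S p') :
    ∃ (M : GModel) (hI : M.Integ), (∃ K, M.SurjOrd K) ∧ (∀ v, Fintype.card (M.σ v) = n) ∧
      (∃ v, ∀ e, M.src e ≠ v ∧ M.tgt e ≠ v) ∧ (∀ p ≤ n, (GModel.res hI).HNonzero p 0) ∧
      ∀ p, ¬ M.Surj p ↔ S p := by
  classical
  choose M a b c d e using exists_piece n S h1 h2
  let F : Option (Fin n) → GModel := fun o => o.elim (GModel.aff n) fun p => (M p).pad n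
  have hI : (GModel.sigma F).Integ := GModel.sigma_integ (by
    rintro (_ | p)
    exacts [GModel.aff_integ n, GModel.pad_integ (a p)])
  have hv : ∀ e, (GModel.sigma F).src e ≠ ⟨none, ()⟩ ∧ (GModel.sigma F).tgt e ≠ ⟨none, ()⟩ := by
    rintro ⟨_ | p, e⟩
    · exact e.elim
    · exact ⟨fun h => Option.some_ne_none p (congrArg Sigma.fst h),
        fun h => Option.some_ne_none p (congrArg Sigma.fst h)⟩
  refine ⟨GModel.sigma F, hI, GModel.sigma_exists_surjOrd ?_, ?_, ⟨_, hv⟩, fun p hp => ?_,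
    fun p => ?_⟩
  · rintro (_ | p)
    · exact ⟨0, GModel.aff_surjOrd n 0⟩
    · obtain ⟨K, hK⟩ := b p
      exact ⟨K, (GModel.pad_surjOrd K).mpr hK⟩
  · rintro ⟨_ | p, v⟩
    · exact Fintype.card_fin n
    · exact GModel.pad_card (M := M p) v (c p v)
  · obtain ⟨ω, hω, h0⟩ := exists_wx_ne_zero hp
    exact GModel.h_zero hI ⟨none, ()⟩ hv p ω hω h0
  · rw [GModel.sigma_surj, not_forall]
    constructor
    · rintro ⟨_ | q, h⟩
      · exact absurd (GModel.aff_surj n p) h
      · exact d q p fun h' => h ((GModel.pad_surj p).mpr h')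
    · intro h
      exact ⟨some ⟨p, h1 p h⟩, fun h' => e p h ((GModel.pad_surj p).mp h')⟩

end Pool.Agent.P.MP_824f38_ag
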