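import Pool.Agent.P.MP_824f38_ag.DRBasic

/-! Complex points of finite algebras. -/

set_option linter.style.haveILetI false
set_option linter.unusedTactic false
set_option linter.unusedSimpArgs false

namespace Pool.Agent.P.MP_824f38_ag

variable {R B : Type} [CommRing R] [Algebra ℂ R] [CommRing B] [Algebra ℂ B]

theorem sub_mem_ker (y : B →ₐ[ℂ] ℂ) (b : B) : b - algebraMap ℂ B (y b) ∈ RingHom.ker y := by
  simp [RingHom.mem_ker]

theorem point_ext {y y' : B →ₐ[ℂ] ℂ} (h : RingHom.ker y ≤ RingHom.ker y') : y = y' := by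
  ext b
  have := h (sub_mem_ker y b)
  simp only [RingHom.mem_ker, map_sub, AlgHom.commutes, Algebra.algebraMap_self,
    RingHom.id_apply] at this
  exact (sub_eq_zero.mp this).symm

theorem ker_isMaximal (y : B →ₐ[ℂ] ℂ) : (RingHom.ker y).IsMaximal :=
  RingHom.ker_isMaximal_of_surjective y (fun c => ⟨algebraMap ℂ B c, by simp⟩)

theorem exists_point [Algebra.FiniteType ℂ B] (m : Ideal B) [hm : m.IsMaximal] :
    ∃ y : B →ₐ[ℂ] ℂ, RingHom.ker y = m := by
  letI := Ideal.Quotient.field m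
  haveI : Module.Finite ℂ (B ⧸ m) := finite_of_finite_type_of_isJacobsonRing ℂ (B ⧸ m)
  have hb : Function.Bijective (algebraMap ℂ (B ⧸ m)) :=
    IsAlgClosed.algebraMap_bijective_of_isIntegral
  let e : ℂ ≃ₐ[ℂ] (B ⧸ m) := AlgEquiv.ofBijective (Algebra.ofId ℂ (B ⧸ m)) hb
  refine ⟨(e.symm : (B ⧸ m) →ₐ[ℂ] ℂ).comp (Ideal.Quotient.mkₐ ℂ m), ?_⟩
  ext b
  simp [RingHom.mem_ker, Ideal.Quotient.eq_zero_iff_mem]

theorem exists_over [Algebra.FiniteType ℂ B] (φ : R →ₐ[ℂ] B) (hφ : φ.Finite)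
    (hi : Function.Injective φ) (x : R →ₐ[ℂ] ℂ) : ∃ y : B →ₐ[ℂ] ℂ, y.comp φ = x := by
  letI : Algebra R B := φ.toRingHom.toAlgebra
  haveI : Module.Finite R B := hφ
  haveI := ker_isMaximal x
  obtain ⟨Q, hQ, e⟩ := Ideal.exists_ideal_over_maximal_of_isIntegral (S := B) (RingHom.ker x)
    (by
      intro r hr
      have : φ r = 0 := hr
      rw [(injective_iff_map_eq_zero φ).mp hi r this]; exact zero_mem _)
  obtain ⟨y, hy⟩ := exists_point Q
  refine ⟨y, (point_ext ?_).symm⟩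
  intro r hr
  rw [← e] at hr
  have : φ r ∈ RingHom.ker y := by rw [hy]; exact hr
  exact this

theorem finite_over (φ : R →ₐ[ℂ] B) (hφ : φ.Finite) (x : R →ₐ[ℂ] ℂ) :
    Set.Finite {y : B →ₐ[ℂ] ℂ | y.comp φ = x} := by
  classical
  letI : Algebra R B := φ.toRingHom.toAlgebra
  haveI : Module.Finite R B := hφ
  obtain ⟨s, hs⟩ := Module.Finite.fg_top (R := R) (M := B)
  have hint : ∀ b : B, ∃ p : Polynomial R, p.Monic ∧ Polynomial.eval₂ φ.toRingHom b p = 0 :=
    fun b => Algebra.IsIntegral.isIntegral (R := R) b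
  choose p hp hp' using hint
  let T : s → Set ℂ := fun b => ((p b).map x.toRingHom).rootSet ℂ
  have hT : Set.Finite (Set.univ.pi T) :=
    Set.Finite.pi (fun b => Polynomial.rootSet_finite _ _)
  refine Set.Finite.of_injOn (f := fun y (b : s) => y b) ?_ ?_ hT
  · intro y hy b _
    have hy' : y.comp φ = x := hy
    simp only [T]
    rw [Polynomial.mem_rootSet]
    refine ⟨((hp b).map _).ne_zero, ?_⟩
    have := congrArg y (hp' b)
    rw [map_zero] at this
    rw [← this, ← hy', Polynomial.coe_aeval_eq_eval, Polynomial.eval_map]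
    exact (Polynomial.hom_eval₂ (p b) φ.toRingHom y.toRingHom b).symm
  · intro y hy y' hy' h
    have hy1 : y.comp φ = x := hy
    have hy2 : y'.comp φ = x := hy'
    ext b
    have hb : b ∈ Submodule.span R (s : Set B) := by rw [hs]; trivial
    induction hb using Submodule.span_induction with
    | mem z hz => exact congrFun h ⟨z, hz⟩
    | zero => simp
    | add a b _ _ ha hb => simp [ha, hb]
    | smul r a _ ha =>
      have e : r • a = φ r * a := rfl
      have e1 : y (φ r) = x r := by rw [← hy1]; rfl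
      have e2 : y' (φ r) = x r := by rw [← hy2]; rfl
      rw [e, map_mul, map_mul, ha, e1, e2]

theorem coprime_ker_pow {y y' : B →ₐ[ℂ] ℂ} (h : y ≠ y') (N : ℕ) :
    IsCoprime (RingHom.ker y ^ N) (RingHom.ker y' ^ N) := by
  haveI := ker_isMaximal y
  haveI := ker_isMaximal y'
  exact (Ideal.isCoprime_of_isMaximal (fun e => h (point_ext e.le))).pow

theorem interp {F : Set (B →ₐ[ℂ] ℂ)} (hF : F.Finite) (h : (B →ₐ[ℂ] ℂ) → ℂ) (N : ℕ) :
    ∃ c : B, ∀ y ∈ F, c - algebraMap ℂ B (h y) ∈ RingHom.ker y ^ N := by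
  haveI := hF.to_subtype
  obtain ⟨c, hc⟩ := Ideal.exists_forall_sub_mem_ideal (I := fun y : F => RingHom.ker y.1 ^ N)
    (fun y y' hne => coprime_ker_pow (fun e => hne (Subtype.ext e)) N)
    (fun y => algebraMap ℂ B (h y))
  exact ⟨c, fun y hy => hc ⟨y, hy⟩⟩

theorem exists_pow_le [Algebra.FiniteType ℂ B] (φ : R →ₐ[ℂ] B) (hφ : φ.Finite)
    (x : R →ₐ[ℂ] ℂ) : ∃ N : ℕ, ∀ z : B, (∀ y : B →ₐ[ℂ] ℂ, y.comp φ = x → z ∈ RingHom.ker y ^ N) →
      z ∈ Ideal.map φ (RingHom.ker x) := by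
  classical
  haveI : IsNoetherianRing B := Algebra.FiniteType.isNoetherianRing ℂ B
  haveI : IsJacobsonRing B := isJacobsonRing_of_finiteType (A := ℂ)
  set I := Ideal.map φ (RingHom.ker x)
  obtain ⟨N, hN⟩ := I.exists_radical_pow_le_of_fg (IsNoetherian.noetherian _)
  refine ⟨N, fun z hz => hN ?_⟩
  set s := (finite_over φ hφ x).toFinset
  have hs : ∀ y, y ∈ s ↔ y.comp φ = x := fun y => by simp [s]
  have h1 : z ∈ ∏ y ∈ s, RingHom.ker y ^ N := by
    rw [Ideal.prod_eq_iInf_of_pairwise_isCoprime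
      (fun y _ y' _ hne => coprime_ker_pow hne N)]
    simp only [Submodule.mem_iInf]
    intro y hy; exact hz y ((hs y).mp hy)
  rw [Finset.prod_pow] at h1
  refine Ideal.pow_right_mono ?_ N h1
  rw [Ideal.radical_eq_jacobson, Ideal.jacobson]
  refine le_sInf ?_
  rintro J ⟨hJ, hJm⟩
  obtain ⟨y, rfl⟩ := exists_point J
  have hy : y.comp φ = x := by
    refine (point_ext ?_).symm
    intro r hr
    exact hJ (Ideal.mem_map_of_mem φ hr)
  exact Ideal.prod_le_inf.trans (Finset.inf_le ((hs y).mpr hy))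

theorem map_mem_ker_pow {C : Type} [CommRing C] [Algebra ℂ C] (ψ : B →ₐ[ℂ] C) (y : C →ₐ[ℂ] ℂ)
    {N : ℕ} {b : B} (hb : b ∈ RingHom.ker (y.comp ψ) ^ N) : ψ b ∈ RingHom.ker y ^ N := by
  have h1 : Ideal.map ψ (RingHom.ker (y.comp ψ) ^ N) ≤ RingHom.ker y ^ N := by
    rw [Ideal.map_pow]
    refine Ideal.pow_right_mono ?_ N
    rw [Ideal.map_le_iff_le_comap]
    intro a ha; exact ha
  exact h1 (Ideal.mem_map_of_mem ψ hb)

namespace Piece

variable {A : Type} [CommRing A] [Algebra ℂ A] (P : Piece B A)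

theorem point_factor (y : B →ₐ[ℂ] ℂ) (hy : y (P.sec 1) ≠ 0) :
    ∃ y' : A →ₐ[ℂ] ℂ, y = y'.comp P.π := by
  have h1 : y (P.sec 1) = 1 := by
    have := congrArg y (P.one_mul_sec 1)
    rw [map_mul] at this
    exact mul_left_cancel₀ hy (by rw [this, mul_one])
  refine ⟨AlgHom.ofLinearMap (y.toLinearMap.comp P.sec) h1 (fun a b => ?_), ?_⟩
  · simp [P.sec_mul]
  · ext b
    simp [P.sec_π, h1]

theorem isIntegral_sec (φ : R →ₐ[ℂ] B) (a : A) (ha : (P.π.comp φ).toRingHom.IsIntegralElem a) :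
    φ.toRingHom.IsIntegralElem (P.sec a) := by
  obtain ⟨p, hp, hp'⟩ := ha
  refine ⟨Polynomial.X * p, Polynomial.monic_X.mul hp, ?_⟩
  rw [Polynomial.eval₂_mul, Polynomial.eval₂_X, ← P.one_mul_sec, mul_assoc, ← P.sec_π, map_mul,
    P.π_sec]
  have := Polynomial.hom_eval₂ p φ.toRingHom P.π.toRingHom (P.sec 1 * P.sec a)
  have e : P.π (Polynomial.eval₂ φ.toRingHom (P.sec 1 * P.sec a) p) = 0 := by
    refine this.trans ?_
    rw [← hp']
    congr 1
    simp [P.π_sec]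
  rw [e, mul_zero, map_zero]

end Piece

end Pool.Agent.P.MP_824f38_ag
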