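import Pool.Agent.P.MP_824f38_ag.Cohom

/-! Disjoint sums of graph models; affine space; coboundaries. -/

set_option linter.style.haveILetI false
set_option linter.unusedTactic false
set_option linter.unusedSimpArgs false
set_option linter.unusedSectionVars false

namespace Pool.Agent.P.MP_824f38_ag

namespace GModel

theorem SurjOrd.mono {M : GModel} {K L : ℕ} (h : M.SurjOrd K) (hKL : K ≤ L) : M.SurjOrd L :=
  fun θ hθ => h θ fun e => Ideal.pow_le_pow_right hKL (hθ e)

/-- `θ` is the coboundary of a family of `p`-forms -/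
def Cob (M : GModel) (p : ℕ) (θ : ∀ e, DR (Pol (M.τ e))) : Prop :=
  ∃ η : ∀ v, DR (Pol (M.σ v)), (∀ v, η v ∈ Forms _ p) ∧
    ∀ e, pull (M.t e) (η (M.tgt e)) - pull (M.s e) (η (M.src e)) = θ e

theorem surjF_iff (M : GModel) (p : ℕ) :
    M.SurjF p ↔ ∀ θ : ∀ e, DR (Pol (M.τ e)), (∀ e, θ e ∈ Forms _ p) → M.Cob p θ := Iff.rfl

theorem surjOrd_iff (M : GModel) (K : ℕ) :
    M.SurjOrd (K + 1) ↔ ∀ θ : ∀ e, Pol (M.τ e), (∀ e, θ e ∈ RingHom.ker (org (M.τ e)) ^ (K + 1)) →
      M.Cob 0 (fun e => algebraMap _ _ (θ e)) := by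
  constructor
  · intro h θ hθ
    obtain ⟨η, -, hη⟩ := h θ hθ
    refine ⟨fun v => algebraMap _ _ (η v), fun v => mem_forms_zero.mpr ⟨_, rfl⟩, fun e => ?_⟩
    rw [pull_algebraMap, pull_algebraMap, ← map_sub, hη]
  · intro h θ hθ
    obtain ⟨η, hη, hη'⟩ := h θ hθ
    choose a ha using fun v => mem_forms_zero.mp (hη v)
    have e1 : ∀ e, M.t e (a (M.tgt e)) - M.s e (a (M.src e)) = θ e := by
      intro e
      have := hη' e
      rw [← ha, ← ha, pull_algebraMap, pull_algebraMap, ← map_sub] at this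
      exact algebraMap_dr_inj this
    refine ⟨fun v => a v - algebraMap ℂ _ (org _ (a v)), fun v => by simp, fun e => ?_⟩
    have h0 : org _ (θ e) = 0 := Ideal.pow_le_self (Nat.succ_ne_zero K) (hθ e)
    rw [← e1, map_sub, M.t_org, M.s_org, sub_eq_zero] at h0
    simp only [map_sub, AlgHom.commutes, h0]
    linear_combination e1 e

theorem integ_of_pow {M : GModel} (v : M.V) (i : M.σ v) (N : ℕ) (hN : 0 < N)
    (η : ∀ v, Pol (M.σ v)) (hη : M.Coc η) (h : η v = MvPolynomial.X i ^ N) :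
    ∃ (N : ℕ) (η : Fin N → ∀ v, Pol (M.σ v)), (∀ j, M.Coc (η j)) ∧
      MvPolynomial.X i ^ N = ∑ j : Fin N, η j v * MvPolynomial.X i ^ (j : ℕ) := by
  classical
  refine ⟨N, fun j => if j = ⟨0, hN⟩ then η else 0, fun j => ?_, ?_⟩
  · by_cases hj : j = ⟨0, hN⟩
    · simpa [hj] using hη
    · simp only [hj, if_false]
      exact ⟨fun e => by simp, fun v => by simp⟩
  · rw [Finset.sum_eq_single ⟨0, hN⟩]
    · simp [h]
    · intro j _ hj; simp [hj]
    · simp

/-- the disjoint sum of a finite family -/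
def sigma {I : Type} [Fintype I] (M : I → GModel) : GModel where
  V := Σ i, (M i).V
  E := Σ i, (M i).E
  σ v := (M v.1).σ v.2
  τ e := (M e.1).τ e.2
  src e := ⟨e.1, (M e.1).src e.2⟩
  tgt e := ⟨e.1, (M e.1).tgt e.2⟩
  s e := (M e.1).s e.2
  t e := (M e.1).t e.2
  s_surj e := (M e.1).s_surj e.2
  t_surj e := (M e.1).t_surj e.2
  s_org e := (M e.1).s_org e.2
  t_org e := (M e.1).t_org e.2

variable {I : Type} [Fintype I] {M : I → GModel}

theorem sigma_integ (h : ∀ i, (M i).Integ) : (sigma M).Integ := by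
  classical
  rintro ⟨i, v⟩ x
  obtain ⟨N, η, hη, e⟩ := h i v x
  refine ⟨N, fun j w => (Pi.single i (η j) : ∀ i, ∀ v, Pol ((M i).σ v)) w.1 w.2, fun j => ?_, ?_⟩
  · constructor
    · rintro ⟨i', e'⟩
      change (M i').t e' ((Pi.single i (η j) : ∀ i, ∀ v, Pol ((M i).σ v)) i' _) =
        (M i').s e' ((Pi.single i (η j) : ∀ i, ∀ v, Pol ((M i).σ v)) i' _)
      by_cases hi : i' = i
      · subst hi; rw [Pi.single_eq_same]; exact (hη j).1 e'
      · rw [Pi.single_eq_of_ne hi]; simp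
    · rintro ⟨i', v'⟩
      change org ((M i').σ v') ((Pi.single i (η j) : ∀ i, ∀ v, Pol ((M i).σ v)) i' v') = 0
      by_cases hi : i' = i
      · subst hi; rw [Pi.single_eq_same]; exact (hη j).2 v'
      · rw [Pi.single_eq_of_ne hi]; simp
  · simp only [Pi.single_eq_same]; exact e

theorem sigma_surjOrd (K : ℕ) : (sigma M).SurjOrd K ↔ ∀ i, (M i).SurjOrd K := by
  classical
  constructor
  · intro h i θ hθ
    obtain ⟨η, h0, hη⟩ := h (fun e => (Pi.single i θ : ∀ i, ∀ e, Pol ((M i).τ e)) e.1 e.2) (by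
      rintro ⟨i', e'⟩
      change (Pi.single i θ : ∀ i, ∀ e, Pol ((M i).τ e)) i' e' ∈
        RingHom.ker (org ((M i').τ e')) ^ K
      by_cases hi : i' = i
      · subst hi; rw [Pi.single_eq_same]; exact hθ e'
      · rw [Pi.single_eq_of_ne hi]; exact zero_mem _)
    refine ⟨fun v => η ⟨i, v⟩, fun v => h0 ⟨i, v⟩, fun e => ?_⟩
    have := hη ⟨i, e⟩
    simp only [Pi.single_eq_same] at this
    exact this
  · intro h θ hθ
    choose η h0 hη using fun i => h i (fun e => θ ⟨i, e⟩) (fun e => hθ ⟨i, e⟩)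
    exact ⟨fun v => η v.1 v.2, fun v => h0 v.1 v.2, fun e => hη e.1 e.2⟩

theorem sigma_surjF (p : ℕ) : (sigma M).SurjF p ↔ ∀ i, (M i).SurjF p := by
  classical
  constructor
  · intro h i θ hθ
    obtain ⟨η, h0, hη⟩ := h (fun e => (Pi.single i θ : ∀ i, ∀ e, DR (Pol ((M i).τ e))) e.1 e.2) (by
      rintro ⟨i', e'⟩
      change (Pi.single i θ : ∀ i, ∀ e, DR (Pol ((M i).τ e))) i' e' ∈ Forms (Pol ((M i').τ e')) p
      by_cases hi : i' = i
      · subst hi; rw [Pi.single_eq_same]; exact hθ e'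
      · rw [Pi.single_eq_of_ne hi]; exact zero_mem _)
    refine ⟨fun v => η ⟨i, v⟩, fun v => h0 ⟨i, v⟩, fun e => ?_⟩
    have := hη ⟨i, e⟩
    simp only [Pi.single_eq_same] at this
    exact this
  · intro h θ hθ
    choose η h0 hη using fun i => h i (fun e => θ ⟨i, e⟩) (fun e => hθ ⟨i, e⟩)
    exact ⟨fun v => η v.1 v.2, fun v => h0 v.1 v.2, fun e => hη e.1 e.2⟩

theorem sigma_surj (p : ℕ) : (sigma M).Surj p ↔ ∀ i, (M i).Surj p := by
  cases p with
  | zero => exact sigma_surjOrd 1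
  | succ p => exact sigma_surjF (p + 1)

theorem sigma_exists_surjOrd (h : ∀ i, ∃ K, (M i).SurjOrd K) : ∃ K, (sigma M).SurjOrd K := by
  choose K hK using h
  exact ⟨∑ i, K i, (sigma_surjOrd _).mpr fun i => (hK i).mono
    (Finset.single_le_sum (f := K) (fun _ _ => Nat.zero_le _) (Finset.mem_univ i))⟩

/-- affine space -/
def aff (n : ℕ) : GModel where
  V := Unit
  E := Empty
  σ _ := Fin n
  τ _ := Empty
  src e := e.elim
  tgt e := e.elim
  s e := e.elim
  t e := e.elim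
  s_surj e := e.elim
  t_surj e := e.elim
  s_org e := e.elim
  t_org e := e.elim

theorem aff_integ (n : ℕ) : (aff n).Integ := fun v i =>
  integ_of_pow v i 1 one_pos (fun _ => MvPolynomial.X i) ⟨fun e => e.elim, fun _ => org_X i⟩
    (pow_one _).symm

theorem aff_surjOrd (n K : ℕ) : (aff n).SurjOrd K :=
  fun _ _ => ⟨0, fun _ => map_zero _, fun e => e.elim⟩

theorem aff_surj (n p : ℕ) : (aff n).Surj p := by
  cases p with
  | zero => exact aff_surjOrd n 1
  | succ p => exact fun _ _ => ⟨0, fun _ => zero_mem _, fun e => e.elim⟩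

end GModel

end Pool.Agent.P.MP_824f38_ag
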