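import Pool.Agent.P.MP_824f38_ag.Atoms

/-! A surface whose only nonzero higher entry is `(0, 1)`. -/

set_option linter.style.haveILetI false
set_option linter.unusedTactic false
set_option linter.unusedSimpArgs false
set_option linter.unusedSectionVars false

namespace Pool.Agent.P.MP_824f38_ag

open MvPolynomial

/-- the coordinate on a line -/
noncomputable def tt : Pol Unit := X ()

/-- a parametrised plane curve -/
noncomputable def ev2 (a b : Pol Unit) : Pol (Fin 2) →ₐ[ℂ] Pol Unit := aeval ![a, b]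

@[simp] theorem ev2_0 (a b : Pol Unit) : ev2 a b (X 0) = a := by simp [ev2]
@[simp] theorem ev2_1 (a b : Pol Unit) : ev2 a b (X 1) = b := by simp [ev2]
@[simp] theorem ev2_C (a b : Pol Unit) (c : ℂ) : ev2 a b (C c) = C c := by simp [ev2]
@[simp] theorem org_tt : org Unit tt = 0 := org_X ()
@[simp] theorem org_C {σ : Type} (c : ℂ) : org σ (C c) = c := by simp [org]

theorem surj_of_tt {A : Type} [CommRing A] [Algebra ℂ A] (φ : A →ₐ[ℂ] Pol Unit) (x : A) (c : ℂ)
    (hc : c ≠ 0) (h : φ x = C c * tt) : Function.Surjective φ := by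
  intro f
  induction f using MvPolynomial.induction_on with
  | C a => exact ⟨algebraMap ℂ A a, φ.commutes a⟩
  | add p q hp hq =>
    obtain ⟨a, rfl⟩ := hp; obtain ⟨b, rfl⟩ := hq; exact ⟨a + b, map_add _ _ _⟩
  | mul_X p i hp =>
    obtain ⟨a, rfl⟩ := hp
    refine ⟨a * (algebraMap ℂ A c⁻¹ * x), ?_⟩
    rw [map_mul, map_mul, h, AlgHom.commutes, algebraMap_eq, ← mul_assoc (C _), ← map_mul,
      inv_mul_cancel₀ hc, map_one, one_mul]
    rfl

theorem ev2_org {a b : Pol Unit} (ha : org _ a = 0) (hb : org _ b = 0) (f : Pol (Fin 2)) :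
    org _ (ev2 a b f) = org _ f := by
  have : (org Unit).comp (ev2 a b) = org _ := MvPolynomial.algHom_ext fun o => by
    fin_cases o <;> simp [ha, hb]
  exact congrArg (fun φ : Pol (Fin 2) →ₐ[ℂ] ℂ => φ f) this

theorem tt_dvd {f : Pol Unit} (h : org _ f = 0) : tt ∣ f := by
  refine ker_induction (P := fun f => tt ∣ f) (dvd_zero _) (fun d c hd => ?_)
    (fun x y => dvd_add) h
  refine X_dvd_monomial.mpr (Or.inr fun h => hd (Finsupp.ext fun i => h))

theorem exists_div (q : Pol Unit) : ∃ c h, q = C c + tt * h := by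
  obtain ⟨h, hh⟩ := tt_dvd (f := q - C (org _ q)) (by simp)
  exact ⟨org _ q, h, by rw [← hh]; ring⟩

theorem one_form {θ : DR (Pol Unit)} (hθ : θ ∈ Forms (Pol Unit) 1) :
    ∃ q : Pol Unit, θ = q • dd tt := by
  refine mono_induction (P := fun θ => ∃ q : Pol Unit, θ = q • dd tt) ⟨0, by simp⟩
    (fun d c τ _ => ⟨monomial d c, ?_⟩) ?_ hθ
  · rw [wx_succ, wx_zero, mul_one]; rfl
  · rintro x y ⟨a, rfl⟩ ⟨b, rfl⟩; exact ⟨a + b, by rw [add_smul]⟩

theorem dd_C_mul (c : ℂ) : dd (C c * tt) = (C c : Pol Unit) • dd tt := by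
  rw [C_mul', dd_csmul, csmul_eq]; rfl

theorem dd_tt_sq : dd (tt ^ 2) = (2 * tt) • dd tt := by
  rw [sq, dd_mul, two_mul, add_smul]

/-- the plane with two parabolas glued to the two axes -/
noncomputable def surf (w : ℂ) (hw : w ≠ 0) : GModel where
  V := Unit
  E := Bool
  σ _ := Fin 2
  τ _ := Unit
  src _ := ()
  tgt _ := ()
  s e := cond e (ev2 (tt ^ 2) tt) (ev2 tt (tt ^ 2))
  t e := cond e (ev2 0 (C w * tt)) (ev2 (C w * tt) 0)
  s_surj e := by
    cases e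
    · exact surj_of_tt _ (X 0) 1 one_ne_zero (by simp)
    · exact surj_of_tt _ (X 1) 1 one_ne_zero (by simp)
  t_surj e := by
    cases e
    · exact surj_of_tt _ (X 0) w hw (by simp)
    · exact surj_of_tt _ (X 1) w hw (by simp)
  s_org e f := by cases e <;> exact ev2_org (by simp) (by simp) f
  t_org e f := by cases e <;> exact ev2_org (by simp) (by simp) f

variable {w : ℂ} (hw : w ≠ 0)

include hw in
theorem surj1 : Function.Surjective (ev2 (C w * tt) 0) := surj_of_tt _ (X 0) w hw (by simp)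

include hw in
theorem surj2 : Function.Surjective (ev2 0 (C w * tt)) := surj_of_tt _ (X 1) w hw (by simp)

theorem surf_coc (η : Pol (Fin 2)) (h1 : ev2 (C w * tt) 0 η = ev2 tt (tt ^ 2) η)
    (h2 : ev2 0 (C w * tt) η = ev2 (tt ^ 2) tt η) (h0 : org _ η = 0) :
    (surf w hw).Coc (fun _ => η) :=
  ⟨fun e => by cases e; exacts [h1, h2], fun _ => h0⟩

theorem surf_integ (h3 : w ^ 3 = 1) : (surf w hw).Integ := by
  have hW : (C w : Pol Unit) ^ 3 = 1 := by rw [← map_pow, h3, map_one]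
  let r : Pol (Fin 2) := X 0 ^ 3 + X 1 ^ 3 - X 0 ^ 4 * X 1 - X 0 * X 1 ^ 4 + X 0 ^ 3 * X 1 ^ 3
  have r1 : ev2 (C w * tt) 0 r = tt ^ 3 := by
    simp only [r, map_add, map_sub, map_mul, map_pow, ev2_0, ev2_1]
    linear_combination tt ^ 3 * hW
  have r2 : ev2 tt (tt ^ 2) r = tt ^ 3 := by
    simp only [r, map_add, map_sub, map_mul, map_pow, ev2_0, ev2_1]; ring
  have r3 : ev2 0 (C w * tt) r = tt ^ 3 := by
    simp only [r, map_add, map_sub, map_mul, map_pow, ev2_0, ev2_1]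
    linear_combination tt ^ 3 * hW
  have r4 : ev2 (tt ^ 2) tt r = tt ^ 3 := by
    simp only [r, map_add, map_sub, map_mul, map_pow, ev2_0, ev2_1]; ring
  have r0 : org _ r = 0 := by simp [r]
  intro v i
  have key : ∀ i : Fin 2, (surf w hw).Coc (fun _ => (X i ^ 3 * (X i ^ 3 - r) * (X i ^ 3 - r ^ 2) :
      Pol (Fin 2))) := by
    intro i
    refine surf_coc hw _ ?_ ?_ (by simp)
    · fin_cases i
      · simp only [map_sub, map_mul, map_pow, Fin.zero_eta, ev2_0, r1, r2, mul_pow, hW]; ring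
      · simp only [map_sub, map_mul, map_pow, Fin.mk_one, ev2_1, r1, r2]; ring
    · fin_cases i
      · simp only [map_sub, map_mul, map_pow, Fin.zero_eta, ev2_0, r3, r4]; ring
      · simp only [map_sub, map_mul, map_pow, Fin.mk_one, ev2_1, r3, r4, mul_pow, hW]; ring
  have c0 : (surf w hw).Coc (fun _ => (0 : Pol (Fin 2))) := surf_coc hw _ (by simp) (by simp) (by simp)
  have c3 : (surf w hw).Coc (fun _ => (- r ^ 3 : Pol (Fin 2))) :=
    surf_coc hw (- r ^ 3) (by simp [r1, r2]) (by simp [r3, r4]) (by simp [r0])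
  have c6 : (surf w hw).Coc (fun _ => (r + r ^ 2 : Pol (Fin 2))) :=
    surf_coc hw _ (by simp [r1, r2]) (by simp [r3, r4]) (by simp [r0])
  refine ⟨9, fun j _ => (![X i ^ 3 * (X i ^ 3 - r) * (X i ^ 3 - r ^ 2), 0, 0, - r ^ 3, 0, 0,
    r + r ^ 2, 0, 0] : Fin 9 → Pol (Fin 2)) j, fun j => ?_, ?_⟩
  · fin_cases j
    exacts [key i, c0, c0, c3, c0, c0, c6, c0, c0]
  · have fin : ∀ x r : Pol (Fin 2), x ^ 9 = ∑ j : Fin 9, (![x ^ 3 * (x ^ 3 - r) * (x ^ 3 - r ^ 2),
        0, 0, - r ^ 3, 0, 0, r + r ^ 2, 0, 0] : Fin 9 → Pol (Fin 2)) j * x ^ (j : ℕ) := by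
      intro x r
      simp only [Fin.sum_univ_succ, Fin.sum_univ_zero, Matrix.cons_val_zero, Matrix.cons_val_succ,
        Fin.val_succ, Fin.val_zero]
      ring
    exact fin (X i) r

theorem surf_surjOrd (h3 : w ^ 3 = 1) : (surf w hw).SurjOrd 4 := by
  have hW : (C w : Pol Unit) ^ 3 = 1 := by rw [← map_pow, h3, map_one]
  intro θ hθ
  have hd : ∀ e, tt ^ 4 ∣ θ e := by
    intro e
    have h1 : RingHom.ker (org Unit) ≤ Ideal.span {tt} := fun f hf =>
      Ideal.mem_span_singleton.mpr (tt_dvd hf)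
    have h2 := Ideal.pow_right_mono h1 4 (hθ e)
    rwa [Ideal.span_singleton_pow, Ideal.mem_span_singleton] at h2
  obtain ⟨h1, e1⟩ := hd false
  obtain ⟨h2, e2⟩ := hd true
  obtain ⟨H1, hH1⟩ := surj1 hw (C w ^ 2 * h1)
  obtain ⟨H2, hH2⟩ := surj2 hw (C w ^ 2 * h2)
  refine ⟨fun _ => (X 0 * (X 0 - X 1 ^ 2) * (X 0 ^ 2 - X 1) * H1 +
    X 1 * (X 1 - X 0 ^ 2) * (X 1 ^ 2 - X 0) * H2 : Pol (Fin 2)), fun _ => ?_, fun e => ?_⟩
  · change org (Fin 2) _ = 0
    simp
  · cases e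
    · change ev2 (C w * tt) 0 _ - ev2 tt (tt ^ 2) _ = θ false
      simp only [map_add, map_sub, map_mul, map_pow, ev2_0, ev2_1, hH1, e1]
      linear_combination (tt ^ 4 * h1 * (C w ^ 3 + 1)) * hW
    · change ev2 0 (C w * tt) _ - ev2 (tt ^ 2) tt _ = θ true
      simp only [map_add, map_sub, map_mul, map_pow, ev2_0, ev2_1, hH2, e2]
      linear_combination (tt ^ 4 * h2 * (C w ^ 3 + 1)) * hW

theorem coeff_three (c : ℂ) (n : ℕ) :
    coeff (Finsupp.single () 3) (C c * tt ^ n) = if n = 3 then c else 0 := by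
  classical
  rw [coeff_C_mul, tt, coeff_X_pow]
  simp [Finsupp.single_left_inj, (Finsupp.single_injective ()).eq_iff]

theorem surf_not_surjOrd (h3 : w ^ 3 = 1) : ¬ (surf w hw).SurjOrd 1 := by
  classical
  have key : ∀ η : Pol (Fin 2),
      coeff (Finsupp.single () 3) (ev2 (C w * tt) 0 η - ev2 tt (tt ^ 2) η) =
      coeff (Finsupp.single () 3) (ev2 0 (C w * tt) η - ev2 (tt ^ 2) tt η) := by
    intro η
    induction η using MvPolynomial.induction_on' with
    | add p q hp hq =>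
      simp only [map_add, coeff_sub, coeff_add] at hp hq ⊢
      linear_combination hp + hq
    | monomial d c =>
      rw [monomial_eq, Finsupp.prod_fintype _ _ (by simp), Fin.prod_univ_two]
      generalize d 0 = i
      generalize d 1 = j
      simp only [map_mul, map_pow, ev2_0, ev2_1, ev2_C, coeff_sub]
      have e1 : C c * (tt ^ i * (tt ^ 2) ^ j) = C c * tt ^ (i + 2 * j) := by ring
      have e2 : C c * ((tt ^ 2) ^ i * tt ^ j) = C c * tt ^ (2 * i + j) := by ring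
      have e3 : C c * ((C w * tt) ^ i * 0 ^ j) = C (c * w ^ i * 0 ^ j) * tt ^ i := by
        simp only [map_mul, map_pow, map_zero]; ring
      have e4 : C c * (0 ^ i * (C w * tt) ^ j) = C (c * w ^ j * 0 ^ i) * tt ^ j := by
        simp only [map_mul, map_pow, map_zero]; ring
      rw [e1, e2, e3, e4, coeff_three, coeff_three, coeff_three, coeff_three]
      by_cases hi : i = 3
      · subst hi
        rcases j with _ | j
        · simp [h3]
        · rw [if_neg (by omega : ¬ 3 + 2 * (j + 1) = 3), if_neg (by omega : ¬ 2 * 3 + (j + 1) = 3)]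
          simp
      by_cases hj : j = 3
      · subst hj
        rcases i with _ | i
        · simp [h3]
        · rw [if_neg (by omega : ¬ i + 1 + 2 * 3 = 3), if_neg (by omega : ¬ 2 * (i + 1) + 3 = 3)]
          simp
      rw [if_neg hi, if_neg hj]
      by_cases h : i + 2 * j = 3
      · rw [if_pos h, if_pos (by omega)]
      · rw [if_neg h, if_neg (by omega)]
  intro h
  obtain ⟨η, -, hη⟩ := h (fun e => cond e 0 (tt ^ 3)) (fun e => by
    rw [pow_one]
    cases e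
    · change org Unit (tt ^ 3) = 0; simp
    · exact zero_mem _)
  have e1 : ev2 (C w * tt) 0 (η ()) - ev2 tt (tt ^ 2) (η ()) = tt ^ 3 := hη false
  have e2 : ev2 0 (C w * tt) (η ()) - ev2 (tt ^ 2) tt (η ()) = 0 := hη true
  have := key (η ())
  rw [e1, e2, ← one_mul (tt ^ 3), ← C_1, coeff_three] at this
  simp at this

theorem surf_surjF_one (h3 : w ^ 3 = 1) (h1 : w ≠ 1) : (surf w hw).SurjF 1 := by
  have hW : (C w : Pol Unit) ^ 3 = 1 := by rw [← map_pow, h3, map_one]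
  have h2 : w ^ 2 - 1 ≠ 0 := fun h => h1 (by linear_combination h3 - w * h)
  have h1' : w - 1 ≠ 0 := sub_ne_zero.mpr h1
  intro θ hθ
  obtain ⟨q1, e1⟩ := one_form (hθ false)
  obtain ⟨q2, e2⟩ := one_form (hθ true)
  obtain ⟨α0, q1, rfl⟩ := exists_div q1
  obtain ⟨α1, q1, rfl⟩ := exists_div q1
  obtain ⟨α2, q1, rfl⟩ := exists_div q1
  obtain ⟨β0, q2, rfl⟩ := exists_div q2
  obtain ⟨β1, q2, rfl⟩ := exists_div q2
  obtain ⟨β2, q2, rfl⟩ := exists_div q2
  obtain ⟨a0, rfl⟩ : ∃ a0, α0 = (w - 1) * a0 := ⟨α0 / (w - 1), by field_simp⟩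
  obtain ⟨b0, rfl⟩ : ∃ b0, β0 = (w - 1) * b0 := ⟨β0 / (w - 1), by field_simp⟩
  obtain ⟨a1, rfl⟩ : ∃ a1, α1 = (w ^ 2 - 1) * a1 - 2 * b0 :=
    ⟨(α1 + 2 * b0) / (w ^ 2 - 1), by field_simp; ring⟩
  obtain ⟨b1, rfl⟩ : ∃ b1, β1 = (w ^ 2 - 1) * b1 - 2 * a0 :=
    ⟨(β1 + 2 * a0) / (w ^ 2 - 1), by field_simp; ring⟩
  obtain ⟨a2, b2, rfl, rfl⟩ : ∃ a2 b2, α2 = -a2 - 2 * b2 ∧ β2 = -2 * a2 - b2 :=
    ⟨(α2 - 2 * β2) / 3, (β2 - 2 * α2) / 3, by ring, by ring⟩
  obtain ⟨H1, hH1⟩ := surj1 hw (C w ^ 2 * (q1 + 2 * C b1))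
  obtain ⟨H2, hH2⟩ := surj2 hw (C w ^ 2 * (q2 + 2 * C a1))
  let a : Pol (Fin 2) := C a0 + C a1 * X 0 + C a2 * X 1 + (X 0 - X 1 ^ 2) * (X 0 ^ 2 - X 1) * H1
  let b : Pol (Fin 2) := C b0 + C b1 * X 1 + C b2 * X 0 + (X 1 - X 0 ^ 2) * (X 1 ^ 2 - X 0) * H2
  have hm : ∀ x : Pol (Fin 2), dd x ∈ Forms (Pol (Fin 2)) 1 := fun x => by
    simpa using dd_mul_mem x (mem_forms_zero.mpr ⟨1, rfl⟩)
  have two : (C 2 : Pol Unit) = 2 := map_ofNat C 2
  let η : DR (Pol (Fin 2)) := a • dd (X 0) + b • dd (X 1)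
  refine ⟨fun _ => η, fun _ => add_mem (Submodule.smul_mem _ _ (hm _))
    (Submodule.smul_mem _ _ (hm _)), fun e => ?_⟩
  cases e
  · change pull (ev2 (C w * tt) 0) (a • dd (X 0) + b • dd (X 1)) -
      pull (ev2 tt (tt ^ 2)) (a • dd (X 0) + b • dd (X 1)) = θ false
    simp only [map_add, pull_smul, pull_dd, ev2_0, ev2_1, dd_zero, dd_C_mul, dd_tt_sq, smul_zero,
      smul_smul, add_zero, ← add_smul, ← sub_smul, e1]
    congr 1
    simp only [a, b, map_add, map_sub, map_mul, map_pow, map_neg, map_one, ev2_0, ev2_1, ev2_C,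
      hH1, two]
    linear_combination (tt ^ 3 * (q1 + 2 * C b1) * (C w ^ 3 + 1)) * hW
  · change pull (ev2 0 (C w * tt)) (a • dd (X 0) + b • dd (X 1)) -
      pull (ev2 (tt ^ 2) tt) (a • dd (X 0) + b • dd (X 1)) = θ true
    simp only [map_add, pull_smul, pull_dd, ev2_0, ev2_1, dd_zero, dd_C_mul, dd_tt_sq, smul_zero,
      smul_smul, zero_add, ← add_smul, ← sub_smul, e2]
    congr 1
    simp only [a, b, map_add, map_sub, map_mul, map_pow, map_neg, map_one, ev2_0, ev2_1, ev2_C,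
      hH2, two]
    linear_combination (tt ^ 3 * (q2 + 2 * C a1) * (C w ^ 3 + 1)) * hW

theorem zero_atom : ∃ M : GModel, M.Good 2 (fun p => p = 0) := by
  obtain ⟨w, hw⟩ : ∃ ω : ℂ, IsPrimitiveRoot ω 3 := ⟨_, Complex.isPrimitiveRoot_exp 3 (by norm_num)⟩
  have h0 : w ≠ 0 := hw.ne_zero (by norm_num)
  refine ⟨surf w h0, surf_integ h0 hw.pow_eq_one, ⟨4, surf_surjOrd h0 hw.pow_eq_one⟩,
    fun v => (Fintype.card_fin 2).le, fun p => ⟨fun h => ?_, ?_⟩⟩
  · rcases p with _ | _ | p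
    · rfl
    · exact absurd (surf_surjF_one h0 hw.pow_eq_one (hw.ne_one (by norm_num))) h
    · refine absurd (fun θ hθ => ⟨0, fun _ => zero_mem _, fun e => ?_⟩) h
      have : θ e = 0 := forms_eq_zero (σ := Unit) (by simp) (hθ e)
      rw [this]; simp
  · rintro rfl
    exact surf_not_surjOrd h0 hw.pow_eq_one

end Pool.Agent.P.MP_824f38_ag
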