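import Pool.Agent.P.MP_824f38_ag.Func

/-! Cycle models attached to a family of exponents. -/

set_option linter.style.haveILetI false
set_option linter.unusedTactic false
set_option linter.unusedSimpArgs false
set_option linter.unusedSectionVars false

namespace Pool.Agent.P.MP_824f38_ag

open ExteriorAlgebra MvPolynomial

/-- exponents, coefficients and a diagonal symmetry -/
structure UData (e : ℕ) where
  /-- index set -/
  K : Type
  [fK : Fintype K]
  /-- a base index -/
  k0 : K
  /-- exponents -/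
  a : K → (Fin (e + 1) →₀ ℕ)
  /-- coefficients -/
  b : K → ℂ
  /-- the symmetry -/
  ζ : Fin (e + 1) → ℂ
  /-- its order -/
  N : ℕ
  hN : 0 < N
  hζ : ∀ j, ζ j ^ N = 1
  hb : ∀ k, a k = 0 → b k = 0
  hni : ∀ k l j, a l ≤ a k + Finsupp.single j 1 → l = k
  hinv : ∀ k, ∏ j, ζ j ^ (a k j + 1) = 1

attribute [instance] UData.fK

namespace UData

variable {e : ℕ} (U : UData e)

/-- standard exponents -/
def Std (d : Fin (e + 1) →₀ ℕ) : Prop := ∃ k j, d ≤ U.a k + Finsupp.single j 1

/-- few invariant multidegrees -/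
def Uniq : Prop := ∀ (v : Fin (e + 1) → ℕ) k j,
    (∀ i, v i ≤ (U.a k + Finsupp.single j 1 : Fin (e + 1) →₀ ℕ) i + 1) → ∏ i, U.ζ i ^ v i = 1 →
      v = 0 ∨ ∃ l, ∀ i, v i = U.a l i + 1

/-- no invariant standard forms of low degree -/
def Low : Prop := ∀ (p : ℕ) (d : Fin (e + 1) →₀ ℕ) (τ : Fin p → Fin (e + 1)),
  Function.Injective τ → U.Std d → (∏ j, U.ζ j ^ d j) * ∏ i, U.ζ (τ i) = 1 →
    (p = 0 ∧ d = 0) ∨ e ≤ p

/-- the polynomial -/
noncomputable def f : Pol (Fin (e + 1)) := ∑ k, monomial (U.a k) (U.b k)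

/-- the ideal -/
noncomputable def J : Ideal (Pol (Fin (e + 1))) :=
  Ideal.span (insert U.f {g | ∃ d, ¬ U.Std d ∧ monomial d 1 = g})

theorem f_mem : U.f ∈ U.J := Ideal.subset_span (Set.mem_insert _ _)

theorem monomial_mem {d : Fin (e + 1) →₀ ℕ} (h : ¬ U.Std d) (c : ℂ) : monomial d c ∈ U.J := by
  have : (monomial d c : Pol (Fin (e + 1))) = C c * monomial d 1 := by
    rw [C_mul_monomial, mul_one]
  rw [this]
  exact U.J.mul_mem_left _ (Ideal.subset_span (Set.mem_insert_of_mem _ ⟨d, h, rfl⟩))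

theorem Std.mono {U : UData e} {d d' : Fin (e + 1) →₀ ℕ} (h : U.Std d) (h' : d' ≤ d) : U.Std d' :=
  let ⟨k, j, hk⟩ := h
  ⟨k, j, h'.trans hk⟩

theorem J_le : U.J ≤ RingHom.ker (org (Fin (e + 1))) := by
  classical
  refine Ideal.span_le.mpr ?_
  rintro g (rfl | ⟨d, hd, rfl⟩)
  · change org _ U.f = 0
    rw [org_eq, f, coeff_sum]
    refine Finset.sum_eq_zero fun k _ => ?_
    rw [coeff_monomial]
    split_ifs with h
    · exact U.hb k h
    · rfl
  · change org _ _ = 0
    rw [org_eq, coeff_monomial, if_neg]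
    rintro rfl
    exact hd ⟨U.k0, 0, zero_le⟩

/-- the cycle data -/
noncomputable def Z : ZData (Fin (e + 1)) := (exists_zdata U.J U.J_le U.ζ U.N U.hN U.hζ).choose

theorem Z_J : U.Z.J = U.J := (exists_zdata U.J U.J_le U.ζ U.N U.hN U.hζ).choose_spec.1
theorem Z_ζ : U.Z.ζ = U.ζ := (exists_zdata U.J U.J_le U.ζ U.N U.hN U.hζ).choose_spec.2

theorem triv_mono {p : ℕ} (d : Fin (e + 1) →₀ ℕ) (c : ℂ) (τ : Fin p → Fin (e + 1)) :
    U.Z.Triv p ((monomial d c : Pol (Fin (e + 1))) • wx τ) ∨
      (U.Std d ∧ (∏ j, U.ζ j ^ d j) * ∏ i, U.ζ (τ i) = 1) := by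
  classical
  by_cases hs : U.Std d
  swap
  · exact Or.inl (ZData.Triv.of_W (ZData.smul_mem_W (U.Z_J ▸ U.monomial_mem hs c) (wx_mem τ)))
  by_cases hχ : (∏ j, U.ζ j ^ d j) * ∏ i, U.ζ (τ i) = 1
  swap
  · exact Or.inl (ZData.Triv.of_eigen (Submodule.smul_mem _ _ (wx_mem τ)) hχ
      (by rw [U.Z_ζ, pull_diag_mono]))
  exact Or.inr ⟨hs, hχ⟩

theorem of_uniq (hu : U.Uniq) {p : ℕ} (d : Fin (e + 1) →₀ ℕ) (τ : Fin p → Fin (e + 1))
    (hτ : Function.Injective τ) (hs : U.Std d) (hχ : (∏ j, U.ζ j ^ d j) * ∏ i, U.ζ (τ i) = 1) :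
    (p = 0 ∧ d = 0) ∨ (e ≤ p ∧ (Function.Surjective τ → ∃ l, d = U.a l)) := by
  classical
  obtain ⟨k, j, hk⟩ := hs
  let v : Fin (e + 1) → ℕ := fun i => d i + if i ∈ Finset.univ.image τ then 1 else 0
  have hv : ∏ i, U.ζ i ^ v i = 1 := by
    rw [← hχ]
    simp only [v, pow_add, Finset.prod_mul_distrib, pow_ite, pow_one, pow_zero]
    rw [Finset.prod_ite_mem, Finset.univ_inter, Finset.prod_image (fun x _ y _ h => hτ h)]
  rcases hu v k j (fun i => by
    have := hk i
    simp only [v]; split_ifs <;> omega) hv with h | ⟨l, h⟩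
  · left
    constructor
    · by_contra hp
      have := congrFun h (τ ⟨0, Nat.pos_of_ne_zero hp⟩)
      simp [v] at this
    · ext i
      have := congrFun h i
      simp only [v, Pi.zero_apply] at this
      simp only [Finsupp.coe_zero, Pi.zero_apply]
      omega
  · right
    have hl : l = k := U.hni k l j (le_trans (fun i => by
      have := h i
      simp only [v] at this
      split_ifs at this <;> omega) hk)
    subst hl
    constructor
    · have hsub : Finset.univ.erase j ⊆ Finset.univ.image τ := by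
        intro i hi
        by_contra hn
        have h1 := h i
        have h2 := hk i
        simp only [v, if_neg hn] at h1
        rw [Finsupp.add_apply, Finsupp.single_eq_of_ne (Finset.ne_of_mem_erase hi)] at h2
        omega
      have := Finset.card_le_card hsub
      rw [Finset.card_erase_of_mem (Finset.mem_univ _), Finset.card_image_of_injective _ hτ] at this
      simpa using this
    · intro hsurj
      refine ⟨l, Finsupp.ext fun i => ?_⟩
      have h1 := h i
      obtain ⟨x, rfl⟩ := hsurj i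
      simp only [v, if_pos (Finset.mem_image_of_mem τ (Finset.mem_univ x))] at h1
      omega

theorem low_of_uniq (hu : U.Uniq) : U.Low := fun _ d τ hτ hs hχ =>
  (U.of_uniq hu d τ hτ hs hχ).imp id And.left

theorem triv_zero (p : ℕ) : U.Z.Triv p 0 := ZData.Triv.of_W (zero_mem _)

theorem surj_of_lt (hl : U.Low) {p : ℕ} (hp : p < e) : U.Z.model.Surj p := by
  cases p with
  | zero =>
    refine ZData.surjOrd_of_triv (K := 0) fun f hf => ?_
    rw [zero_add, pow_one] at hf
    refine ker_induction (P := fun f => U.Z.Triv 0 (algebraMap _ _ f)) ?_ ?_ ?_ hf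
    · rw [map_zero]; exact U.triv_zero 0
    · intro d c hd
      rcases U.triv_mono d c Fin.elim0 with h | h
      · rwa [wx_zero, ← Algebra.algebraMap_eq_smul_one] at h
      rcases hl 0 d Fin.elim0 (fun x => x.elim0) h.1 h.2 with h | h
      · exact absurd h.2 hd
      · omega
    · intro x y hx hy; rw [map_add]; exact hx.add hy
  | succ p =>
    refine ZData.surjF_of_triv fun θ hθ => ?_
    refine mono_induction (U.triv_zero _) (fun d c τ hτ => ?_) (fun x y hx hy => hx.add hy) hθ
    rcases U.triv_mono d c τ with h | h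
    · exact h
    rcases hl _ d τ hτ h.1 h.2 with h | h
    · omega
    · omega

theorem surj_of_gt {p : ℕ} (hp : e + 1 < p) : U.Z.model.Surj p := by
  cases p with
  | zero => omega
  | succ p =>
    refine ZData.surjF_of_triv fun θ hθ => ?_
    rw [forms_eq_zero (by simpa using hp) hθ]; exact U.triv_zero _

theorem surj_top [DecidableEq U.K] (hu : U.Uniq) (h : ∀ l, ∃ (α : ℂ) (β : Fin (e + 1) → ℂ), ∀ k,
    U.b k * (α + ∑ i, β i * U.a k i) = if k = l then 1 else 0) :
    U.Z.model.Surj (e + 1) := by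
  classical
  refine ZData.surjF_of_triv fun θ hθ => ?_
  refine mono_induction (U.triv_zero _) (fun d c τ hτ => ?_) (fun x y hx hy => hx.add hy) hθ
  have hs : Function.Surjective τ := Finite.injective_iff_surjective.mp hτ
  rcases U.triv_mono d c τ with h' | h'
  · exact h'
  rcases U.of_uniq hu d τ hτ h'.1 h'.2 with h' | h'
  · omega
  obtain ⟨l, rfl⟩ := h'.2 hs
  obtain ⟨α, β, hαβ⟩ := h l
  have e1 : (monomial (U.a l) c : Pol (Fin (e + 1))) =
      C (c * α) * U.f + ∑ i, (C (c * β i) * X i) * pderiv i U.f := by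
    simp only [f, map_sum, Finset.mul_sum, mul_assoc, X_mul_pderiv_monomial]
    rw [Finset.sum_comm, ← Finset.sum_add_distrib]
    have : ∀ k, C (c * α) * monomial (U.a k) (U.b k) +
        ∑ i, C (c * β i) * (U.a k i • monomial (U.a k) (U.b k) : Pol (Fin (e + 1))) =
        monomial (U.a k) (c * if k = l then 1 else 0) := by
      intro k
      simp only [smul_monomial, C_mul_monomial, ← map_sum, ← map_add]
      congr 1
      rw [← hαβ, mul_add, mul_add, Finset.mul_sum, Finset.mul_sum]
      congr 1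
      · ring
      · refine Finset.sum_congr rfl fun i _ => ?_
        rw [nsmul_eq_mul]; ring
    simp only [this]
    rw [Finset.sum_eq_single l]
    · simp
    · intro k _ hk; simp [hk]
    · simp
  refine ZData.Triv.of_W ?_
  rw [e1, add_smul, Finset.sum_smul]
  have hf : U.f ∈ U.Z.J := U.Z_J ▸ U.f_mem
  refine add_mem (ZData.smul_mem_W (Ideal.mul_mem_left _ _ hf) (wx_mem τ))
    (Submodule.sum_mem _ fun i _ => ?_)
  rw [mul_smul]
  exact Submodule.smul_mem _ _ (ZData.pderiv_smul_mem_W hf τ hs i)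

theorem exists_surjOrd : ∃ K, U.Z.model.SurjOrd K := by
  classical
  have hr : RingHom.ker (org (Fin (e + 1))) ≤ U.J.radical := by
    intro f hf
    refine ker_induction (P := fun f => f ∈ U.J.radical) (zero_mem _) (fun d c hd => ?_)
      (fun x y hx hy => add_mem hx hy) hf
    obtain ⟨i, hi⟩ : ∃ i, d i ≠ 0 := by
      by_contra hn
      push Not at hn
      exact hd (Finsupp.ext hn)
    refine ⟨∑ k, U.a k i + 2, ?_⟩
    rw [monomial_pow]
    refine U.monomial_mem ?_ _
    rintro ⟨k, j, hk⟩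
    have h1 := hk i
    have h2 : U.a k i ≤ ∑ k, U.a k i :=
      Finset.single_le_sum (f := fun k => U.a k i) (fun _ _ => Nat.zero_le _) (Finset.mem_univ k)
    have h3 : (Finsupp.single j 1 : Fin (e + 1) →₀ ℕ) i ≤ 1 := by
      rw [Finsupp.single_apply]; split_ifs <;> omega
    have h4 : (∑ k, U.a k i + 2) ≤ (∑ k, U.a k i + 2) * d i :=
      Nat.le_mul_of_pos_right _ (Nat.pos_of_ne_zero hi)
    simp only [Finsupp.smul_apply, smul_eq_mul, Finsupp.add_apply] at h1
    omega
  obtain ⟨K, hK⟩ := Ideal.exists_pow_le_of_le_radical_of_fg hr (IsNoetherian.noetherian _)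
  refine ⟨K + 1, ZData.surjOrd_of_triv fun f hf => ZData.Triv.of_W ?_⟩
  rw [Algebra.algebraMap_eq_smul_one, ← wx_zero (Fin.elim0 : Fin 0 → Fin (e + 1))]
  exact ZData.smul_mem_W (U.Z_J ▸ hK (Ideal.pow_le_pow_right (Nat.le_succ K) hf)) (wx_mem _)

/-- a combination of coefficient functionals -/
noncomputable def L (c : U.K → ℂ) : Pol (Fin (e + 1)) →ₗ[ℂ] ℂ := ∑ k, c k • lcoeff ℂ (U.a k)

theorem L_apply (c : U.K → ℂ) (g : Pol (Fin (e + 1))) : U.L c g = ∑ k, c k * coeff (U.a k) g := by
  simp [L, LinearMap.sum_apply]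

theorem L_inv (c : U.K → ℂ) (d : Fin (e + 1) →₀ ℕ) (x : ℂ) (h : U.L c (monomial d x) ≠ 0) :
    ∏ j, U.ζ j ^ (d j + 1) = 1 := by
  classical
  rw [L_apply] at h
  obtain ⟨k, -, h⟩ := Finset.exists_ne_zero_of_sum_ne_zero h
  have : d = U.a k := by
    by_contra hn
    exact h (by rw [coeff_monomial, if_neg hn, mul_zero])
  rw [this]; exact U.hinv k

theorem L_a (c : U.K → ℂ) (l : U.K) : U.L c (monomial (U.a l) 1) = c l := by
  classical
  rw [L_apply, Finset.sum_eq_single l]
  · simp
  · intro k _ hk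
    rw [coeff_monomial, if_neg, mul_zero]
    intro h
    exact hk (U.hni k l 0 (h ▸ le_self_add)).symm
  · simp

theorem L_pderiv (c : U.K → ℂ) (hc : ∀ j, ∑ k, c k * U.b k * (U.a k j + 1) = 0)
    (g : Pol (Fin (e + 1))) (hg : g ∈ U.J) (j : Fin (e + 1)) : U.L c (pderiv j g) = 0 := by
  classical
  suffices ∀ h, U.L c (pderiv j (h * g)) = 0 by simpa using this 1
  induction hg using Submodule.span_induction with
  | zero => simp
  | add x y _ _ hx hy => intro h; rw [mul_add, map_add, map_add, hx, hy, add_zero]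
  | smul q x _ hx => intro h; rw [smul_eq_mul, ← mul_assoc, hx]
  | mem x hx =>
    intro h
    rw [L_apply]
    simp only [coeff_pderiv]
    rcases hx with rfl | ⟨d, hd, rfl⟩
    · have : ∀ k, coeff (U.a k + Finsupp.single j 1) (h * U.f) =
          coeff (Finsupp.single j 1) h * U.b k := by
        intro k
        rw [f, Finset.mul_sum, coeff_sum, Finset.sum_eq_single k]
        · rw [add_comm (U.a k), coeff_mul_monomial]
        · intro l _ hl
          rw [coeff_mul_monomial', if_neg fun h' => hl (U.hni k l j h')]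
        · simp
      simp only [this]
      have e1 := congrArg (fun x => coeff (Finsupp.single j 1) h * x) (hc j)
      simp only [Finset.mul_sum, mul_zero] at e1
      rw [← e1]
      refine Finset.sum_congr rfl fun k _ => by ring
    · refine Finset.sum_eq_zero fun k _ => ?_
      rw [coeff_mul_monomial', if_neg fun h' => hd ⟨k, j, h'⟩, zero_mul, mul_zero]

theorem not_surj_mid (c : U.K → ℂ) (hc : ∀ j, ∑ k, c k * U.b k * (U.a k j + 1) = 0)
    (l : U.K) (hl : c l ≠ 0) : ¬ U.Z.model.Surj e := by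
  classical
  have hL : ∀ g ∈ U.Z.J, ∀ j, U.L c (pderiv j g) = 0 := fun g hg => U.L_pderiv c hc g (U.Z_J ▸ hg)
  refine ZData.not_surj (phi (U.L c)).toAddMonoidHom (phi_smul _ _ hL) (phi_dd _ _ hL)
    (fun ω => by rw [U.Z_ζ]; exact phi_invariant _ _ (U.L_inv c) ω)
    (monomial (U.a l + Finsupp.single 0 1) 1) Fin.succ (fun _ => ?_)
    (phi_ne_zero _ _ (by rwa [L_a]))
  rw [org_eq, coeff_monomial, if_neg]
  intro h
  simpa using congrArg (fun d : Fin (e + 1) →₀ ℕ => d 0) h

theorem not_surj_top (ha : U.a U.k0 = 0) (hb : ∀ k, U.b k = 0) : ¬ U.Z.model.Surj (e + 1) := by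
  classical
  let L : Pol (Fin (e + 1)) →ₗ[ℂ] ℂ := (org _).toLinearMap
  have hL : ∀ g, L g = org _ g := fun _ => rfl
  have h2 : ∀ g ∈ U.J, ∀ j, org _ (pderiv j g) = 0 := by
    intro g hg j
    induction hg using Submodule.span_induction with
    | zero => simp
    | add x y _ _ hx hy => rw [map_add, map_add, hx, hy, add_zero]
    | smul q x hx' hx =>
      have : org _ x = 0 := U.J_le hx'
      rw [smul_eq_mul, pderiv_mul, map_add, map_mul, map_mul, hx, this]; simp
    | mem x hx =>
      rcases hx with rfl | ⟨d, hd, rfl⟩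
      · simp [f, hb]
      · rw [org_eq, coeff_pderiv, coeff_monomial, if_neg, zero_mul]
        rintro rfl
        exact hd ⟨U.k0, j, by rw [ha]⟩
  refine ZData.not_surj (psi L).toAddMonoidHom (fun g hg ω => ?_) (fun g hg ω => psi_dd L g
    (fun j h => ?_) ω) (fun ω => ?_) 1 (fun i => i) (fun h => by omega) ?_
  · change L (top _ (g • ω)) = 0
    have : org _ g = 0 := U.J_le (U.Z_J ▸ hg)
    rw [LinearMap.map_smul, smul_eq_mul, hL, map_mul, this, zero_mul]
  · rw [hL, map_mul, h2 g (U.Z_J ▸ hg), zero_mul]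
  · rw [U.Z_ζ]
    refine psi_invariant L _ (fun d c h => ?_) ω
    have : d = U.a U.k0 := by
      rw [ha]; by_contra hn
      exact h (by rw [hL, org_eq, coeff_monomial, if_neg hn])
    rw [this]; exact U.hinv _
  · change L (top _ _) ≠ 0
    rw [one_smul, top_wx_id, hL, map_one]; exact one_ne_zero

theorem card_le (v : U.Z.model.V) : Fintype.card (U.Z.model.σ v) ≤ e + 2 := by
  change Fintype.card (Option (Fin (e + 1))) ≤ e + 2
  simp

end UData

end Pool.Agent.P.MP_824f38_ag
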