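import Pool.Agent.P.MP_824f38_ag.Mono

/-! A cycle of affine spaces glued along graphs of polynomials, with monodromy. -/

set_option linter.style.haveILetI false
set_option linter.unusedTactic false
set_option linter.unusedSimpArgs false
set_option linter.unusedSectionVars false

namespace Pool.Agent.P.MP_824f38_ag

open ExteriorAlgebra MvPolynomial

variable {σ : Type}

/-- restriction to the graph of `g` -/
noncomputable def rg (g : Pol σ) : Pol (Option σ) →ₐ[ℂ] Pol σ := aeval (fun o => o.elim g X)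

/-- functions not depending on the last variable -/
noncomputable def inc (σ : Type) : Pol σ →ₐ[ℂ] Pol (Option σ) := rename some

@[simp] theorem rg_none (g : Pol σ) : rg g (X none) = g := by simp [rg]
@[simp] theorem rg_some (g : Pol σ) (j : σ) : rg g (X (some j)) = X j := by simp [rg]
@[simp] theorem inc_X (j : σ) : inc σ (X j) = X (some j) := by simp [inc]

theorem rg_comp_inc (g : Pol σ) : (rg g).comp (inc σ) = AlgHom.id ℂ _ :=
  MvPolynomial.algHom_ext fun j => by simp

@[simp] theorem rg_inc (g f : Pol σ) : rg g (inc σ f) = f :=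
  congrArg (fun φ : Pol σ →ₐ[ℂ] Pol σ => φ f) (rg_comp_inc g)

@[simp] theorem pull_rg_inc (g : Pol σ) (ω : DR (Pol σ)) : pull (rg g) (pull (inc σ) ω) = ω := by
  rw [pull_pull, rg_comp_inc, pull_id]

theorem rg_surj (g : Pol σ) : Function.Surjective (rg g) := fun f => ⟨inc σ f, rg_inc g f⟩

theorem rg_org {g : Pol σ} (hg : org σ g = 0) (f : Pol (Option σ)) :
    org _ (rg g f) = org _ f := by
  have : (org σ).comp (rg g) = org _ := MvPolynomial.algHom_ext fun o => by
    cases o <;> simp [hg]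
  exact congrArg (fun φ : Pol (Option σ) →ₐ[ℂ] ℂ => φ f) this

theorem diag_org (ζ : σ → ℂ) (f : Pol σ) : org _ (diag ζ f) = org _ f := by
  have : (org σ).comp (diag ζ) = org _ := MvPolynomial.algHom_ext fun o => by simp
  exact congrArg (fun φ : Pol σ →ₐ[ℂ] ℂ => φ f) this

theorem diag_surj {ζ : σ → ℂ} (h : ∀ j, ζ j ≠ 0) : Function.Surjective (diag ζ) := by
  intro f
  have : (diag ζ).comp (diag fun j => (ζ j)⁻¹) = AlgHom.id ℂ _ :=
    MvPolynomial.algHom_ext fun j => by simp [smul_smul, h j]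
  exact ⟨_, congrArg (fun φ : Pol σ →ₐ[ℂ] Pol σ => φ f) this⟩

theorem rg_sub_dvd (g : Pol σ) (f : Pol (Option σ)) : g ∣ rg g f - rg 0 f := by
  induction f using MvPolynomial.induction_on with
  | C a => simp
  | add p q hp hq =>
    have := dvd_add hp hq
    simp only [map_add]
    convert this using 1; ring
  | mul_X p i hp =>
    simp only [map_mul]
    cases i with
    | none => simp
    | some j => simp only [rg_some, ← sub_mul]; exact hp.mul_right _

theorem mul_dd_comm {A : Type} [CommRing A] [Algebra ℂ A] (g : A) (x : DR A) :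
    ∃ x', x * dd g = dd g * x' := by
  induction x using dr_induction with
  | h0 a => exact ⟨_, Algebra.commutes a _⟩
  | h1 a => exact ⟨-dd a, by rw [dd_swap, mul_neg]⟩
  | hadd x y hx hy =>
    obtain ⟨x', hx⟩ := hx; obtain ⟨y', hy⟩ := hy
    exact ⟨x' + y', by rw [add_mul, mul_add, hx, hy]⟩
  | hmul x y hx hy =>
    obtain ⟨x', hx⟩ := hx; obtain ⟨y', hy⟩ := hy
    exact ⟨x' * y', by rw [mul_assoc, hy, ← mul_assoc, hx, mul_assoc]⟩

theorem pull_rg_sub (g : Pol σ) (η : DR (Pol (Option σ))) :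
    ∃ x y : DR (Pol σ), pull (rg g) η - pull (rg 0) η = g • x + dd g * y := by
  induction η using dr_induction with
  | h0 a =>
    obtain ⟨h, hh⟩ := rg_sub_dvd g a
    refine ⟨algebraMap _ _ h, 0, ?_⟩
    rw [pull_algebraMap, pull_algebraMap, ← map_sub, hh, map_mul, mul_zero, add_zero,
      Algebra.smul_def]
  | h1 a =>
    obtain ⟨h, hh⟩ := rg_sub_dvd g a
    refine ⟨dd h, algebraMap _ _ h, ?_⟩
    rw [pull_dd, pull_dd, ← dd_sub, hh, dd_mul, Algebra.smul_def h, Algebra.commutes]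
  | hadd u v hu hv =>
    obtain ⟨x, y, hu⟩ := hu; obtain ⟨x', y', hv⟩ := hv
    refine ⟨x + x', y + y', ?_⟩
    rw [map_add, map_add, add_sub_add_comm, hu, hv, smul_add, mul_add]; abel
  | hmul u v hu hv =>
    obtain ⟨x, y, hu⟩ := hu; obtain ⟨x', y', hv⟩ := hv
    obtain ⟨w, hw⟩ := mul_dd_comm g (pull (rg 0) u)
    refine ⟨x * pull (rg g) v + pull (rg 0) u * x', y * pull (rg g) v + w * y', ?_⟩
    have : pull (rg g) (u * v) - pull (rg 0) (u * v) =
        (pull (rg g) u - pull (rg 0) u) * pull (rg g) v +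
          pull (rg 0) u * (pull (rg g) v - pull (rg 0) v) := by
      rw [map_mul, map_mul]; noncomm_ring
    rw [this, hu, hv, mul_add (pull (rg 0) u), ← mul_assoc, hw]
    simp only [add_mul, mul_add, smul_add, smul_mul_assoc, mul_smul_comm, mul_assoc]
    abel

/-- data of the cycle -/
structure ZData (σ : Type) where
  /-- number of polynomials -/
  s : ℕ
  /-- the polynomials -/
  g : Fin s → Pol σ
  g0 : ∀ a, org σ (g a) = 0
  /-- the monodromy -/
  ζ : σ → ℂ
  /-- its order -/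
  N : ℕ
  hN : 0 < N
  hζ : ∀ j, ζ j ^ N = 1

namespace ZData

variable [Fintype σ] (Z : ZData σ)

theorem ζ_ne (j : σ) : Z.ζ j ≠ 0 := fun h => by
  have := Z.hζ j
  rw [h, zero_pow Z.hN.ne'] at this
  exact zero_ne_one this

/-- the graph model -/
noncomputable def model : GModel where
  V := Fin (Z.s + 1)
  E := Option (Fin Z.s)
  σ _ := Option σ
  τ _ := σ
  src e := e.elim (Fin.last _) Fin.castSucc
  tgt e := e.elim 0 Fin.succ
  s e := e.elim (rg 0) (fun a => rg (Z.g a))
  t e := e.elim ((diag Z.ζ).comp (rg 0)) (fun a => rg (Z.g a))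
  s_surj e := by cases e <;> exact rg_surj _
  t_surj e := by
    cases e with
    | none => exact (diag_surj Z.ζ_ne).comp (rg_surj _)
    | some a => exact rg_surj _
  s_org e f := by
    cases e with
    | none => exact rg_org (map_zero _) f
    | some a => exact rg_org (Z.g0 a) f
  t_org e f := by
    cases e with
    | none => exact (diag_org _ _).trans (rg_org (map_zero _) f)
    | some a => exact rg_org (Z.g0 a) f

theorem integ : Z.model.Integ := by
  intro v i
  cases i with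
  | none =>
    refine GModel.integ_of_pow (M := Z.model) v none 1 one_pos (fun _ => X none) ⟨fun e => ?_, fun _ => org_X _⟩
      (pow_one _).symm
    cases e with
    | none => change diag Z.ζ (rg 0 (X none)) = rg 0 (X none); simp
    | some a => rfl
  | some j =>
    refine GModel.integ_of_pow (M := Z.model) v (some j) Z.N Z.hN (fun _ => X (some j) ^ Z.N)
      ⟨fun e => ?_, fun _ => ?_⟩ rfl
    · cases e with
      | none =>
        change diag Z.ζ (rg 0 (X (some j) ^ Z.N)) = rg 0 (X (some j) ^ Z.N)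
        simp [_root_.smul_pow, Z.hζ]
      | some a => rfl
    · change org (Option σ) (X (some j) ^ Z.N) = 0
      simp [Z.hN.ne']

/-- the ideal of the polynomials -/
noncomputable def J : Ideal (Pol σ) := Ideal.span (Set.range Z.g)

/-- forms coming from the relations -/
def W (p : ℕ) : Submodule (Pol σ) (DR (Pol σ)) where
  carrier := {θ | ∃ η : Fin Z.s → DR (Pol (Option σ)),
    (∀ a, η a ∈ Forms _ p ∧ pull (rg (Z.g a)) (η a) = 0) ∧ ∑ a, pull (rg 0) (η a) = θ}
  zero_mem' := ⟨0, fun a => ⟨zero_mem _, map_zero _⟩, by simp⟩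
  add_mem' := by
    rintro _ _ ⟨η, h, rfl⟩ ⟨η', h', rfl⟩
    refine ⟨η + η', fun a => ⟨add_mem (h a).1 (h' a).1, ?_⟩, by simp [Finset.sum_add_distrib]⟩
    rw [Pi.add_apply, map_add, (h a).2, (h' a).2, add_zero]
  smul_mem' := by
    rintro q _ ⟨η, h, rfl⟩
    refine ⟨fun a => inc σ q • η a, fun a => ⟨Submodule.smul_mem _ _ (h a).1, ?_⟩, ?_⟩
    · rw [pull_smul, (h a).2, smul_zero]
    · simp [pull_smul, Finset.smul_sum]

variable {Z}

theorem W_single {p : ℕ} (a : Fin Z.s) (η : DR (Pol (Option σ))) (h1 : η ∈ Forms _ p)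
    (h2 : pull (rg (Z.g a)) η = 0) : pull (rg 0) η ∈ Z.W p := by
  classical
  refine ⟨Pi.single a η, fun b => ?_, ?_⟩
  · by_cases hb : b = a
    · subst hb; simp [h1, h2]
    · simp [hb]
  · rw [Finset.sum_eq_single a]
    · simp
    · intro b _ hb; simp [hb]
    · simp

theorem W_dd_mul {p : ℕ} (q : Pol σ) {θ : DR (Pol σ)} (h : θ ∈ Z.W p) :
    dd q * θ ∈ Z.W (p + 1) := by
  obtain ⟨η, h, rfl⟩ := h
  refine ⟨fun a => dd (inc σ q) * η a, fun a => ⟨dd_mul_mem _ (h a).1, ?_⟩, ?_⟩
  · rw [map_mul, (h a).2, mul_zero]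
  · simp [Finset.mul_sum]

theorem smul_mem_W {p : ℕ} {g : Pol σ} (hg : g ∈ Z.J) {ω : DR (Pol σ)} (hω : ω ∈ Forms _ p) :
    g • ω ∈ Z.W p := by
  induction hg using Submodule.span_induction with
  | mem x hx =>
    obtain ⟨a, rfl⟩ := hx
    have := W_single a ((inc σ (Z.g a) - X none) • pull (inc σ) ω)
      (Submodule.smul_mem _ _ (pull_mem _ hω)) (by simp [pull_smul])
    simpa [pull_smul] using this
  | zero => simp
  | add x y _ _ hx hy => rw [add_smul]; exact add_mem hx hy
  | smul q x _ hx => rw [smul_assoc]; exact Submodule.smul_mem _ _ hx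

theorem dd_mul_mem_W {p : ℕ} {g : Pol σ} (hg : g ∈ Z.J) {ω : DR (Pol σ)} (hω : ω ∈ Forms _ p) :
    dd g * ω ∈ Z.W (p + 1) := by
  induction hg using Submodule.span_induction with
  | mem x hx =>
    obtain ⟨a, rfl⟩ := hx
    have := W_single a (dd (inc σ (Z.g a) - X none) * pull (inc σ) ω)
      (dd_mul_mem _ (pull_mem _ hω)) (by simp [dd_zero])
    simpa using this
  | zero => simp [dd_zero]
  | add x y _ _ hx hy => rw [dd_add, add_mul]; exact add_mem hx hy
  | smul q x hx' hx =>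
    rw [smul_eq_mul, dd_mul, add_mul, smul_mul_assoc, smul_mul_assoc]
    exact add_mem (Submodule.smul_mem _ _ hx) (smul_mem_W hx' (dd_mul_mem _ hω))

theorem wd_mem_W {p : ℕ} (v : Fin p → Pol σ) (i : Fin p) (hv : v i ∈ Z.J) : wd v ∈ Z.W p := by
  induction p with
  | zero => exact i.elim0
  | succ p ih =>
    rw [wd_succ]
    refine Fin.cases (fun hv => ?_) (fun i hv => ?_) i hv
    · exact dd_mul_mem_W hv (wd_mem _)
    · exact W_dd_mul _ (ih _ i hv)

theorem pderiv_smul_mem_W {p : ℕ} {g : Pol σ} (hg : g ∈ Z.J) (τ : Fin p → σ)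
    (hτ : Function.Surjective τ) (j : σ) : pderiv j g • wx τ ∈ Z.W p := by
  classical
  by_cases hi : Function.Injective τ
  swap
  · rw [wx_not_inj hi, smul_zero]; exact zero_mem _
  obtain ⟨i, rfl⟩ := hτ j
  have h := wd_mem_W (Function.update (fun i => (X (τ i) : Pol σ)) i g) i (by simpa using hg)
  have e1 : (fun k => KaehlerDifferential.D ℂ (Pol σ)
      (Function.update (fun i => (X (τ i) : Pol σ)) i g k)) =
      Function.update (fun k => KaehlerDifferential.D ℂ (Pol σ) (X (τ k))) i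
        (KaehlerDifferential.D ℂ (Pol σ) g) := by
    funext k
    exact Function.apply_update (fun _ => KaehlerDifferential.D ℂ (Pol σ)) _ i g k
  unfold wd at h
  rw [e1, D_eq_sum, AlternatingMap.map_update_sum, Finset.sum_eq_single (τ i)] at h
  · rw [AlternatingMap.map_update_smul, Function.update_eq_self] at h
    exact h
  · intro j _ hj
    obtain ⟨k, rfl⟩ := hτ j
    have hk : k ≠ i := fun h => hj (by rw [h])
    rw [AlternatingMap.map_update_smul, AlternatingMap.map_update_self _ _ hk.symm, smul_zero]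
  · simp

/-- forms that are trivial modulo relations and monodromy -/
def Triv (Z : ZData σ) (p : ℕ) (θ : DR (Pol σ)) : Prop :=
  ∃ β ∈ Forms (Pol σ) p, θ - (pull (diag Z.ζ) β - β) ∈ Z.W p

theorem Triv.of_W {p : ℕ} {θ : DR (Pol σ)} (h : θ ∈ Z.W p) : Z.Triv p θ :=
  ⟨0, zero_mem _, by simpa using h⟩

theorem Triv.add {p : ℕ} {θ θ' : DR (Pol σ)} (h : Z.Triv p θ) (h' : Z.Triv p θ') :
    Z.Triv p (θ + θ') := by
  obtain ⟨β, hβ, h⟩ := h
  obtain ⟨β', hβ', h'⟩ := h'
  refine ⟨β + β', add_mem hβ hβ', ?_⟩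
  have := add_mem h h'
  rw [map_add]
  convert this using 1; abel

theorem Triv.of_eigen {p : ℕ} {θ : DR (Pol σ)} (hθ : θ ∈ Forms _ p) {c : ℂ} (hc : c ≠ 1)
    (h : pull (diag Z.ζ) θ = c • θ) : Z.Triv p θ := by
  refine ⟨(c - 1)⁻¹ • θ, by rw [csmul_eq]; exact Submodule.smul_mem _ _ hθ, ?_⟩
  have : θ - (pull (diag Z.ζ) ((c - 1)⁻¹ • θ) - (c - 1)⁻¹ • θ) = 0 := by
    rw [pull_csmul, h, ← smul_sub, show c • θ - θ = (c - 1) • θ by rw [sub_smul, one_smul],
      smul_smul, inv_mul_cancel₀ (sub_ne_zero.mpr hc), one_smul, sub_self]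
  rw [this]; exact zero_mem _

theorem partialSum_last {M : Type} [AddCommMonoid M] {n : ℕ} (f : Fin n → M) :
    Fin.partialSum f (Fin.last n) = ∑ i, f i := by
  unfold Fin.partialSum
  rw [List.take_of_length_le (by simp), List.sum_ofFn]

theorem cob_of_triv {p : ℕ} (θ : Option (Fin Z.s) → DR (Pol σ)) (hθ : ∀ e, θ e ∈ Forms _ p)
    (h : Z.Triv p (∑ e, θ e)) : Z.model.Cob p θ := by
  obtain ⟨β, hβ, η, hη, e1⟩ := h
  let f : Fin Z.s → DR (Pol (Option σ)) := fun b => pull (inc σ) (θ (some b)) - η b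
  refine ⟨fun a => pull (inc σ) β + Fin.partialSum f a, fun a => ?_, fun e => ?_⟩
  · refine add_mem (pull_mem _ hβ) ?_
    change Fin.partialSum f a ∈ Forms (Pol (Option σ)) p
    induction a using Fin.induction with
    | zero => simp
    | succ a ih =>
      rw [Fin.partialSum_succ]
      exact add_mem ih (sub_mem (pull_mem _ (hθ _)) (hη a).1)
  · cases e with
    | none =>
      change pull ((diag Z.ζ).comp (rg 0)) (pull (inc σ) β + Fin.partialSum f 0) -
        pull (rg 0) (pull (inc σ) β + Fin.partialSum f (Fin.last _)) = θ none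
      rw [partialSum_last, ← pull_pull, Fin.partialSum_zero, add_zero, pull_rg_inc, map_add,
        pull_rg_inc, map_sum]
      simp only [f, map_sub, pull_rg_inc, Finset.sum_sub_distrib, e1, Fintype.sum_option]
      abel
    | some b =>
      change pull (rg (Z.g b)) (pull (inc σ) β + Fin.partialSum f b.succ) -
        pull (rg (Z.g b)) (pull (inc σ) β + Fin.partialSum f b.castSucc) = θ (some b)
      rw [Fin.partialSum_succ, ← map_sub, add_sub_add_left_eq_sub, add_sub_cancel_left]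
      simp only [f, map_sub, pull_rg_inc, (hη b).2, sub_zero]

theorem surjF_of_triv {p : ℕ} (h : ∀ θ ∈ Forms (Pol σ) p, Z.Triv p θ) : Z.model.SurjF p :=
  fun θ hθ => cob_of_triv θ hθ (h _ (Submodule.sum_mem _ fun e _ => hθ e))

theorem surjOrd_of_triv {K : ℕ}
    (h : ∀ f ∈ RingHom.ker (org σ) ^ (K + 1), Z.Triv 0 (algebraMap _ _ f)) :
    Z.model.SurjOrd (K + 1) := by
  refine (GModel.surjOrd_iff _ _).mpr fun θ hθ => cob_of_triv _
    (fun e => mem_forms_zero.mpr ⟨_, rfl⟩) ?_
  have := h _ (Submodule.sum_mem _ fun e (_ : e ∈ Finset.univ) => hθ e)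
  rwa [map_sum] at this

theorem eq_zero_of_cob (φ : DR (Pol σ) →+ ℂ) (h1 : ∀ g ∈ Z.J, ∀ ω, φ (g • ω) = 0)
    (h2 : ∀ g ∈ Z.J, ∀ ω, φ (dd g * ω) = 0) (h3 : ∀ ω, φ (pull (diag Z.ζ) ω) = φ ω)
    {p : ℕ} {θ : Option (Fin Z.s) → DR (Pol σ)} (hθ : ∀ a, θ (some a) = 0)
    (h : Z.model.Cob p θ) : φ (θ none) = 0 := by
  obtain ⟨η, -, hη⟩ := h
  have key : ∀ (a : Fin Z.s) (x : DR (Pol (Option σ))),
      φ (pull (rg (Z.g a)) x) = φ (pull (rg 0) x) := by
    intro a x
    obtain ⟨y, z, e1⟩ := pull_rg_sub (Z.g a) x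
    have hm : Z.g a ∈ Z.J := Ideal.subset_span ⟨a, rfl⟩
    rw [← sub_eq_zero, ← map_sub, e1, map_add, h1 _ hm, h2 _ hm, add_zero]
  have ind : ∀ a : Fin (Z.s + 1), φ (pull (rg 0) (η a)) = φ (pull (rg 0) (η (0 : Fin (Z.s + 1)))) := by
    intro a
    induction a using Fin.induction with
    | zero => rfl
    | succ a ih =>
      have e1 : pull (rg (Z.g a)) (η a.succ) - pull (rg (Z.g a)) (η a.castSucc) = θ (some a) :=
        hη (some a)
      rw [hθ, sub_eq_zero] at e1
      rw [← ih, ← key a, ← key a, e1]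
  have e2 : pull ((diag Z.ζ).comp (rg 0)) (η (0 : Fin (Z.s + 1))) -
    pull (rg 0) (η (Fin.last _)) = θ none := hη none
  rw [← e2, map_sub, ← pull_pull, h3, ind (Fin.last _), sub_self]

theorem not_surj (φ : DR (Pol σ) →+ ℂ) (h1 : ∀ g ∈ Z.J, ∀ ω, φ (g • ω) = 0)
    (h2 : ∀ g ∈ Z.J, ∀ ω, φ (dd g * ω) = 0) (h3 : ∀ ω, φ (pull (diag Z.ζ) ω) = φ ω)
    {p : ℕ} (f : Pol σ) (τ : Fin p → σ) (hf : p = 0 → org σ f = 0) (hφ : φ (f • wx τ) ≠ 0) :
    ¬ Z.model.Surj p := by
  intro h
  cases p with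
  | zero =>
    have := (GModel.surjOrd_iff _ 0).mp h (fun e => Option.elim e f (fun _ => 0)) (fun e => by
      cases e with
      | none => rw [zero_add, pow_one]; exact hf rfl
      | some a => exact zero_mem _)
    refine hφ ?_
    rw [wx_zero, ← Algebra.algebraMap_eq_smul_one]
    exact eq_zero_of_cob φ h1 h2 h3 (fun a => map_zero _) this
  | succ p =>
    have := h (fun e => Option.elim e (f • wx τ) (fun _ => 0)) (fun e => by
      cases e with
      | none => exact Submodule.smul_mem _ _ (wx_mem τ)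
      | some a => exact zero_mem _)
    exact hφ (eq_zero_of_cob φ h1 h2 h3 (fun a => rfl) this)

end ZData

theorem exists_zdata [Fintype σ] (J : Ideal (Pol σ)) (hJ : J ≤ RingHom.ker (org σ)) (ζ : σ → ℂ)
    (N : ℕ) (hN : 0 < N) (hζ : ∀ j, ζ j ^ N = 1) : ∃ Z : ZData σ, Z.J = J ∧ Z.ζ = ζ := by
  obtain ⟨s, g, hg⟩ := Submodule.fg_iff_exists_fin_generating_family.mp
    (IsNoetherian.noetherian J)
  exact ⟨⟨s, g, fun a => hJ (hg ▸ Ideal.subset_span ⟨a, rfl⟩), ζ, N, hN, hζ⟩, hg, rfl⟩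

end Pool.Agent.P.MP_824f38_ag
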